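import Pool.Agent.Lib.MP_0430e4_lc.TensorRate

/-!
# Lower bounds for certificates: the mass polynomial and its Fourier form
-/

set_option autoImplicit false

namespace Pool.Agent.Lib.MP_0430e4_lc.Lower

open Tensor Filter Topology Set

variable {n : ℕ}

/-- The mass polynomial of `h`. -/
noncomputable def Pz (h : (Fin n → Bool) → ℝ) (z : ℂ) : ℂ :=
  ∑ y, (h y : ℂ) * ∏ i, (if y i = true then z else 1)

/-- The mass polynomial of `h` on the real line. -/
noncomputable def Pr (h : (Fin n → Bool) → ℝ) (r : ℝ) : ℝ :=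
  ∑ y, h y * ∏ i, (if y i = true then r else 1)

theorem Pz_ofReal (h : (Fin n → Bool) → ℝ) (r : ℝ) : Pz h (r : ℂ) = (Pr h r : ℂ) := by
  unfold Pz Pr
  push_cast
  apply Finset.sum_congr rfl
  intro y _
  congr 1
  apply Finset.prod_congr rfl
  intro i _
  split_ifs <;> simp

theorem four (h : (Fin n → Bool) → ℝ) (z : ℂ) :
    ∑ x : Fin n → Bool, ((∑ y, h y * chi x y : ℝ) : ℂ) *
        ∏ i, (if x i = true then 1 - z else 1 + z)
      = 2 ^ n * Pz h z := by
  unfold Pz
  push_cast
  simp_rw [Finset.sum_mul]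
  rw [Finset.sum_comm, Finset.mul_sum]
  apply Finset.sum_congr rfl
  intro y _
  have h1 : ∀ x : Fin n → Bool, (h y : ℂ) * (chi x y : ℂ) *
      ∏ i, (if x i = true then 1 - z else 1 + z)
      = (h y : ℂ) * ∏ i, ((sg (x i) (y i) : ℂ) * (if x i = true then 1 - z else 1 + z)) := by
    intro x
    rw [chi_eq]
    push_cast
    rw [mul_assoc, ← Finset.prod_mul_distrib]
  simp_rw [h1]
  rw [← Finset.mul_sum]
  have h2 : ∑ x : Fin n → Bool, ∏ i, ((sg (x i) (y i) : ℂ) * (if x i = true then 1 - z else 1 + z))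
      = ∏ i, ∑ b : Bool, ((sg b (y i) : ℂ) * (if b = true then 1 - z else 1 + z)) := by
    rw [Finset.prod_univ_sum, Fintype.piFinset_univ]
  rw [h2]
  have h3 : ∀ i, ∑ b : Bool, ((sg b (y i) : ℂ) * (if b = true then 1 - z else 1 + z))
      = 2 * (if y i = true then z else 1) := by
    intro i
    cases y i
    · simp [sg]; ring
    · simp [sg]; ring
  simp_rw [h3]
  rw [Finset.prod_mul_distrib]
  simp
  ring

theorem Pz_zero (h : (Fin n → Bool) → ℝ) : Pz h 0 = (h (fun _ => false) : ℂ) := by
  unfold Pz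
  rw [Finset.sum_eq_single (fun _ => false)]
  · simp
  · intro y _ hy
    have : ∃ i, y i = true := by
      by_contra hc
      push Not at hc
      apply hy
      funext i
      simpa using hc i
    obtain ⟨i, hi⟩ := this
    rw [Finset.prod_eq_zero (Finset.mem_univ i) (by simp [hi]), mul_zero]
  · intro hc
    exact absurd (Finset.mem_univ _) hc

theorem sum_four (h : (Fin n → Bool) → ℝ) :
    ∑ x : Fin n → Bool, (∑ y, h y * chi x y) = 2 ^ n * h (fun _ => false) := by
  have h1 := four h 0
  rw [Pz_zero] at h1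
  simp only [sub_zero, add_zero, ite_self, Finset.prod_const_one, mul_one] at h1
  exact_mod_cast h1

/-- Bound on the imaginary axis. -/
theorem norm_Pz_imag {l : ℝ} {h : (Fin n → Bool) → ℝ} (hh : IsCert l h) (z : ℂ) (A : ℝ)
    (h1 : ‖1 - z‖ ≤ A) (h2 : ‖1 + z‖ ≤ A) :
    ‖Pz h z‖ ≤ A ^ n * h (fun _ => false) := by
  have hA : 0 ≤ A := le_trans (norm_nonneg _) h1
  have h3 : ‖(2 : ℂ) ^ n * Pz h z‖ ≤ A ^ n * (2 ^ n * h (fun _ => false)) := by
    rw [← four, ← sum_four]
    refine le_trans (norm_sum_le _ _) ?_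
    rw [Finset.mul_sum]
    apply Finset.sum_le_sum
    intro x _
    rw [norm_mul, mul_comm]
    have h4 : ‖((∑ y, h y * chi x y : ℝ) : ℂ)‖ = ∑ y, h y * chi x y := by
      rw [Complex.norm_real, Real.norm_eq_abs, abs_of_nonneg (hh.fourier x)]
    rw [h4]
    apply mul_le_mul_of_nonneg_right _ (hh.fourier x)
    rw [norm_prod]
    calc ∏ i, ‖(if x i = true then 1 - z else 1 + z)‖ ≤ ∏ _i : Fin n, A := by
          apply Finset.prod_le_prod
          · intro i _
            exact norm_nonneg _
          · intro i _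
            split_ifs
            · exact h1
            · exact h2
      _ = A ^ n := by simp
  rw [norm_mul] at h3
  have h5 : ‖(2 : ℂ) ^ n‖ = 2 ^ n := by simp
  rw [h5] at h3
  have h6 : (0 : ℝ) < 2 ^ n := by positivity
  have h7 : A ^ n * (2 ^ n * h (fun _ => false)) = 2 ^ n * (A ^ n * h (fun _ => false)) := by ring
  rw [h7] at h3
  exact le_of_mul_le_mul_left h3 h6

theorem norm_Pz_le {l : ℝ} {h : (Fin n → Bool) → ℝ} (hh : IsCert l h) (z : ℂ) (hz : ‖z‖ ≤ 1) :
    ‖Pz h z‖ ≤ ∑ y, h y := by
  unfold Pz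
  refine le_trans (norm_sum_le _ _) ?_
  apply Finset.sum_le_sum
  intro y _
  rw [norm_mul, Complex.norm_real, Real.norm_eq_abs, abs_of_nonneg (hh.nonneg y), norm_prod]
  have : ∏ i, ‖(if y i = true then z else 1)‖ ≤ 1 := by
    apply Finset.prod_le_one
    · intro i _
      exact norm_nonneg _
    · intro i _
      split_ifs
      · exact hz
      · simp
  calc h y * ∏ i, ‖(if y i = true then z else 1)‖ ≤ h y * 1 :=
        mul_le_mul_of_nonneg_left this (hh.nonneg y)
    _ = h y := mul_one _

theorem Pz_differentiable (h : (Fin n → Bool) → ℝ) : Differentiable ℂ (Pz h) := by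
  unfold Pz
  apply Differentiable.fun_sum
  intro y _
  apply Differentiable.const_mul
  apply Differentiable.fun_finsetProd
  intro i _
  split_ifs
  · exact differentiable_id
  · exact differentiable_const _

theorem Pr_lower {l : ℝ} {h : (Fin n → Bool) → ℝ} (hh : IsCert l h) {r : ℝ} (hr : 0 ≤ r) :
    h (fun _ => false) * (1 + l * r) ≤ Pr h r := by
  have hnn : ∀ y : Fin n → Bool, 0 ≤ h y * ∏ i, (if y i = true then r else 1) := by
    intro y
    apply mul_nonneg (hh.nonneg y)
    apply Finset.prod_nonneg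
    intro i _
    split_ifs
    · exact hr
    · norm_num
  have hinj : Function.Injective (fun i : Fin n => flp (fun _ => false) i) := by
    intro i j hij
    by_contra hne
    have := congrFun hij i
    simp only [flp, Function.update_self] at this
    rw [Function.update_of_ne hne] at this
    simp at this
  have hnot : (fun _ => false : Fin n → Bool) ∉
      Finset.univ.image (fun i : Fin n => flp (fun _ => false) i) := by
    intro hc
    rw [Finset.mem_image] at hc
    obtain ⟨i, -, hi⟩ := hc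
    have := congrFun hi i
    simp [flp] at this
  have h1 : ∑ y ∈ insert (fun _ => false : Fin n → Bool)
      (Finset.univ.image (fun i : Fin n => flp (fun _ => false) i)),
      h y * ∏ i, (if y i = true then r else 1) ≤ Pr h r := by
    unfold Pr
    apply Finset.sum_le_sum_of_subset_of_nonneg (Finset.subset_univ _)
    intro y _ _
    exact hnn y
  rw [Finset.sum_insert hnot, Finset.sum_image (fun i _ j _ hij => hinj hij)] at h1
  have h2 : ∀ i : Fin n, ∏ j, (if flp (fun _ => false) i j = true then r else 1) = r := by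
    intro i
    rw [Finset.prod_eq_single i]
    · simp [flp]
    · intro j _ hj
      simp [flp, Function.update_of_ne hj]
    · intro hc
      exact absurd (Finset.mem_univ _) hc
  simp only [h2] at h1
  rw [← Finset.sum_mul] at h1
  have h3 := hh.adj (fun _ => false)
  have h4 : l * h (fun _ => false) * r ≤ (∑ i, h (flp (fun _ => false) i)) * r :=
    mul_le_mul_of_nonneg_right h3 hr
  simp at h1
  nlinarith [h1, h4]

/-- The maximum principle on a vertical strip, bounded case. -/
theorem strip_max {F : ℂ → ℂ} {η c M : ℝ} (hη : 0 < η)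
    (hF : DiffContOnCl ℂ F (Complex.re ⁻¹' Ioo 0 η))
    (hM : ∀ z : ℂ, 0 ≤ z.re → z.re ≤ η → ‖F z‖ ≤ M)
    (h0 : ∀ z : ℂ, z.re = 0 → ‖F z‖ ≤ c) (h1 : ∀ z : ℂ, z.re = η → ‖F z‖ ≤ c)
    (z : ℂ) (hz0 : 0 ≤ z.re) (hz1 : z.re ≤ η) : ‖F z‖ ≤ c := by
  apply PhragmenLindelof.vertical_strip hF _ h0 h1 hz0 hz1
  refine ⟨0, by positivity, 0, ?_⟩
  apply Asymptotics.IsBigO.of_bound M
  rw [eventually_inf_principal]
  filter_upwards with w hw
  simp only [zero_mul, Real.exp_zero, norm_one, mul_one]
  exact hM w (le_of_lt hw.1) (le_of_lt hw.2)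

/-- Comparison of derivatives at `0`. -/
theorem deriv_le_of_le {f g : ℝ → ℝ} {f' g' η : ℝ} (hη : 0 < η) (hf : HasDerivAt f f' 0)
    (hg : HasDerivAt g g' 0) (h0 : f 0 = g 0) (h : ∀ s, 0 < s → s < η → f s ≤ g s) :
    f' ≤ g' := by
  have h1 := hf.tendsto_slope_zero_right
  have h2 := hg.tendsto_slope_zero_right
  apply le_of_tendsto_of_tendsto h1 h2
  have : Ioo 0 η ∈ 𝓝[>] (0 : ℝ) := Ioo_mem_nhdsGT hη
  filter_upwards [this] with s hs
  simp only [zero_add, smul_eq_mul]
  apply mul_le_mul_of_nonneg_left _ (inv_nonneg.2 hs.1.le)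
  have := h s hs.1 hs.2
  linarith

end Pool.Agent.Lib.MP_0430e4_lc.Lower
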