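import Pool.Agent.Lib.MP_0430e4_lc.Lower.Ident2
import Pool.Agent.Lib.MP_0430e4_lc.Lower.Core

/-!
# The uniformising map, the majorant and the three lines bound
-/

set_option autoImplicit false
set_option linter.unusedSectionVars false

namespace Pool.Agent.Lib.MP_0430e4_lc.Lower

open Filter Topology Set

variable {r : ℝ}

noncomputable def eta (r : ℝ) : ℝ := -Real.log r / 2

theorem eta_pos (hr : 0 < r) (hr1 : r < 1) : 0 < eta r := by
  unfold eta
  have := Real.log_neg hr hr1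
  linarith

theorem exp_two_eta (hr : 0 < r) : Real.exp (2 * eta r) = 1 / r := by
  unfold eta
  rw [mul_div_cancel₀ _ (two_ne_zero), Real.exp_neg, Real.exp_log hr, one_div]

/-- the uniformising map of the disc minus a slit -/
noncomputable def zz (r : ℝ) (s : ℂ) : ℂ :=
  2 * ((√r : ℝ) : ℂ) * Complex.sinh s * Complex.exp (T2 (ca r) (Complex.exp (2 * s)))

theorem norm_exp_two (s : ℂ) : ‖Complex.exp (2 * s)‖ = Real.exp (2 * s.re) := by
  rw [Complex.norm_exp]
  simp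

theorem one_le_norm {s : ℂ} (h : 0 ≤ s.re) : 1 ≤ ‖Complex.exp (2 * s)‖ := by
  rw [norm_exp_two]
  exact Real.one_le_exp (by linarith)

theorem norm_le_inv (hr : 0 < r) {s : ℂ} (h : s.re ≤ eta r) : ‖Complex.exp (2 * s)‖ ≤ 1 / r := by
  rw [norm_exp_two, ← exp_two_eta hr]
  exact Real.exp_le_exp.2 (by linarith)

theorem exp_mem (hr : 0 < r) (hr1 : r < 1) {s : ℂ} (h0 : 0 ≤ s.re) (h1 : s.re ≤ eta r) :
    Complex.exp (2 * s) ∈ Ua r :=
  closed_sub hr hr1 (one_le_norm h0) (norm_le_inv hr h1)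

theorem zz_sq (hr : 0 ≤ r) (s : ℂ) : zz r s ^ 2 = Z2 r (Complex.exp (2 * s)) := by
  unfold zz Z2
  have h1 : (((√r : ℝ) : ℂ)) ^ 2 = (r : ℂ) := by
    rw [← Complex.ofReal_pow, Real.sq_sqrt hr]
  have h2 : (2 * Complex.sinh s) ^ 2 = Complex.exp (2 * s) - 2 + (Complex.exp (2 * s))⁻¹ := by
    rw [Complex.sinh, ← Complex.exp_neg, mul_div_cancel₀ _ (two_ne_zero), sub_sq,
      ← Complex.exp_nat_mul, ← Complex.exp_nat_mul, mul_assoc, ← Complex.exp_add]
    simp
  have h3 : Complex.exp (T2 (ca r) (Complex.exp (2 * s))) ^ 2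
      = Complex.exp (2 * T2 (ca r) (Complex.exp (2 * s))) := by
    rw [← Complex.exp_nat_mul]
    simp
  calc _ = (((√r : ℝ) : ℂ)) ^ 2 * (2 * Complex.sinh s) ^ 2
        * Complex.exp (T2 (ca r) (Complex.exp (2 * s))) ^ 2 := by ring
    _ = _ := by rw [h1, h2, h3]

theorem zz_norm (hr : 0 < r) (hr1 : r < 1) {s : ℂ} (h : s.re = eta r) : ‖zz r s‖ = 1 := by
  have h1 : ‖zz r s ^ 2‖ = 1 := by
    rw [zz_sq hr.le]
    apply Z2_norm hr hr1
    rw [norm_exp_two, h, exp_two_eta hr]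
  rw [norm_pow] at h1
  nlinarith [norm_nonneg (zz r s)]

theorem comp_diff (hr : 0 < r) (hr1 : r < 1) {f : ℂ → ℂ}
    (hf : ∀ t ∈ Ua r, DifferentiableAt ℂ f t) {s : ℂ} (h0 : 0 ≤ s.re) (h1 : s.re ≤ eta r) :
    DifferentiableAt ℂ (fun s => f (Complex.exp (2 * s))) s := by
  have h2 := hf _ (exp_mem hr hr1 h0 h1)
  have h3 : DifferentiableAt ℂ (fun s : ℂ => Complex.exp (2 * s)) s := by fun_prop
  exact h2.comp s h3

theorem zz_diff (hr : 0 < r) (hr1 : r < 1) {s : ℂ} (h0 : 0 ≤ s.re) (h1 : s.re ≤ eta r) :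
    DifferentiableAt ℂ (zz r) s := by
  have h2 : DifferentiableAt ℂ (fun s => T2 (ca r) (Complex.exp (2 * s))) s :=
    comp_diff hr hr1 (fun t ht => T2_diff hr hr1 (ca_bd r) ht) h0 h1
  unfold zz
  have h3 : DifferentiableAt ℂ Complex.sinh s := Complex.differentiable_sinh.differentiableAt
  exact ((differentiableAt_const _).mul h3).mul h2.cexp

/-! ### the majorant -/

noncomputable def KK (r : ℝ) (t : ℂ) : ℂ :=
  T (ha r) t⁻¹ - T (fun m => (r ^ (m + 1)) ^ 2 * ha r m) t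

theorem ha2_bd (hr : 0 < r) (hr1 : r < 1) : Bd (fun m => (r ^ (m + 1)) ^ 2 * ha r m) (r ^ 2) := by
  intro m
  have h1 := ha_nonneg hr.le m
  have h2 := ha_le hr.le m
  have h3 : r ^ (m + 1) ≤ 1 := pow_le_one₀ hr.le hr1.le
  have h4 : (r ^ 2) ^ (m + 1) = (r ^ (m + 1)) ^ 2 := by ring
  have h5 : 0 ≤ (r ^ (m + 1)) ^ 2 := by positivity
  show |(r ^ (m + 1)) ^ 2 * ha r m| ≤ 2 * (r ^ 2) ^ (m + 1)
  rw [h4, abs_of_nonneg (by positivity)]
  nlinarith

theorem KK_diff (hr : 0 < r) (hr1 : r < 1) {t : ℂ} (ht : t ∈ Ua r) :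
    DifferentiableAt ℂ (KK r) t := by
  have h1 : DifferentiableAt ℂ (T (fun m => (r ^ (m + 1)) ^ 2 * ha r m)) t :=
    T_differentiableAt (by positivity) (ha2_bd hr hr1) ht.2
  have hlt : r * ‖t⁻¹‖ < 1 := by
    rw [norm_inv, ← div_eq_mul_inv, div_lt_one (hr.trans ht.1)]
    exact ht.1
  have h2 : DifferentiableAt ℂ (T (ha r)) t⁻¹ := T_differentiableAt hr (ha_bd hr.le) hlt
  have h3 : DifferentiableAt ℂ (fun t : ℂ => t⁻¹) t := differentiableAt_inv (ne_zero_of_Ua hr ht)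
  exact (h2.comp t h3).sub h1

noncomputable def GG (r c : ℝ) (s : ℂ) : ℂ :=
  (f0 r : ℂ) + (((c - f0 r) / eta r : ℝ) : ℂ) * s - KK r (Complex.exp (2 * s))

theorem GG_diff (hr : 0 < r) (hr1 : r < 1) (c : ℝ) {s : ℂ} (h0 : 0 ≤ s.re) (h1 : s.re ≤ eta r) :
    DifferentiableAt ℂ (GG r c) s := by
  have h2 : DifferentiableAt ℂ (fun s => KK r (Complex.exp (2 * s))) s :=
    comp_diff hr hr1 (fun t ht => KK_diff hr hr1 ht) h0 h1
  unfold GG
  exact ((differentiableAt_const _).add ((differentiableAt_const _).mul differentiableAt_id)).sub h2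

theorem re_T_conj (p : ℕ → ℝ) (t : ℂ) : (T p ((starRingEnd ℂ) t)).re = (T p t).re := by
  rw [← T_conj, Complex.conj_re]

/-- real part of `KK` on the inner circle -/
theorem KK_re_one (hr : 0 < r) (hr1 : r < 1) {t : ℂ} (ht : ‖t‖ = 1) :
    (KK r t).re = (T (fa r) t).re := by
  have h1 : (T (ha r) t⁻¹).re = (T (ha r) t).re := by
    rw [Complex.inv_eq_conj ht, re_T_conj]
  have c1 : Cv (ha r) t := cv_of_norm_one hr.le hr1 (ha_bd hr.le) ht
  have c2 : Cv (fun m => (r ^ (m + 1)) ^ 2 * ha r m) t :=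
    cv_of_norm_one (sq_nonneg r) (by nlinarith) (ha2_bd hr hr1) ht
  unfold KK
  rw [Complex.sub_re, h1, ← Complex.sub_re]
  congr 1
  have h2 : T (fun m => (-1) * ((r ^ (m + 1)) ^ 2 * ha r m)) t
      = -T (fun m => (r ^ (m + 1)) ^ 2 * ha r m) t := by
    rw [T_mul (-1) (fun m => (r ^ (m + 1)) ^ 2 * ha r m)]
    push_cast
    ring
  rw [sub_eq_add_neg, ← h2, T_add c1 (c2.mul (-1))]
  congr 1
  funext m
  rw [fa_eq hr.le]
  unfold ha
  have h3 : (1 : ℝ) + r ^ (m + 1) ≠ 0 := by positivity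
  have h4 : (1 : ℝ) + (r ^ (m + 1)) ^ 2 ≠ 0 := by positivity
  generalize r ^ (m + 1) = a at *
  field_simp
  ring

/-- real part of `KK` on the outer circle -/
theorem KK_re_outer (hr : 0 < r) {t : ℂ} (ht : ‖t‖ = 1 / r) :
    (KK r t).re = 0 := by
  have h1 : (T (fun m => (r ^ (m + 1)) ^ 2 * ha r m) t).re
      = (T (ha r) t⁻¹).re := by
    rw [← re_T_conj, conj_eq hr ht, T_scale]
    congr 2
    funext m
    rw [inv_pow]
    have : (r ^ 2) ^ (m + 1) = (r ^ (m + 1)) ^ 2 := by ring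
    rw [this]
    have h0 : r ^ (m + 1) ≠ 0 := by positivity
    field_simp
  unfold KK
  rw [Complex.sub_re, h1, sub_self]

theorem GG_re (r c : ℝ) (s : ℂ) : (GG r c s).re
    = f0 r + (c - f0 r) / eta r * s.re - (KK r (Complex.exp (2 * s))).re := by
  unfold GG
  rw [Complex.sub_re, Complex.add_re, Complex.ofReal_re, Complex.re_ofReal_mul]

theorem GG_re_outer (hr : 0 < r) (hr1 : r < 1) (c : ℝ) {s : ℂ} (h : s.re = eta r) :
    (GG r c s).re = c := by
  have he := eta_pos hr hr1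
  rw [GG_re, KK_re_outer hr (by rw [norm_exp_two, h, exp_two_eta hr]), h]
  field_simp
  ring

theorem GG_re_zero (hr : 0 < r) (hr1 : r < 1) (c : ℝ) {s : ℂ} (h : s.re = 0) :
    (GG r c s).re = f0 r - (T (fa r) (Complex.exp (2 * s))).re := by
  rw [GG_re, KK_re_one hr hr1 (by rw [norm_exp_two, h]; simp), h]
  ring

/-- On the imaginary axis `z` is imaginary and `1 + |z|² = exp (2 Re G)`. -/
theorem zz_zero (hr : 0 < r) (hr1 : r < 1) (c : ℝ) {s : ℂ} (h : s.re = 0) :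
    ∃ y : ℝ, zz r s = (y : ℂ) * Complex.I ∧ √(1 + y ^ 2) = Real.exp (GG r c s).re := by
  have ht : ‖Complex.exp (2 * s)‖ = 1 := by rw [norm_exp_two, h]; simp
  set t := Complex.exp (2 * s) with htdef
  have hc : (starRingEnd ℂ) t = t⁻¹ := (Complex.inv_eq_conj ht).symm
  -- sinh is imaginary
  have hs : s = (s.im : ℂ) * Complex.I := by
    apply Complex.ext
    · simp [h]
    · simp
  have hsinh : Complex.sinh s = (Real.sin s.im : ℂ) * Complex.I := by
    conv_lhs => rw [hs]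
    rw [Complex.sinh_mul_I]
    push_cast
    rfl
  obtain ⟨τ, hτ⟩ : ∃ τ : ℝ, T2 (ca r) t = (τ : ℂ) := by
    refine ⟨(T2 (ca r) t).re, ?_⟩
    have := (Complex.conj_eq_iff_re).1 (T2_real (p := ca r) ht)
    exact this.symm
  have hz : zz r s = ((2 * √r * Real.sin s.im * Real.exp τ : ℝ) : ℂ) * Complex.I := by
    unfold zz
    rw [← htdef, hsinh, hτ]
    push_cast
    ring
  refine ⟨2 * √r * Real.sin s.im * Real.exp τ, hz, ?_⟩
  · set y : ℝ := 2 * √r * Real.sin s.im * Real.exp τ with hy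
    have h1 := one_sub_Z2 hr hr1 ht
    rw [htdef, ← zz_sq hr.le, hz] at h1
    have h2 : (1 : ℂ) - ((y : ℂ) * Complex.I) ^ 2 = ((1 + y ^ 2 : ℝ) : ℂ) := by
      rw [mul_pow, Complex.I_sq]
      push_cast
      ring
    rw [h2] at h1
    have h3 : ‖((1 + y ^ 2 : ℝ) : ℂ)‖ = Real.exp (2 * (GG r c s).re) := by
      rw [h1, Complex.norm_exp]
      congr 1
      rw [GG_re_zero hr hr1 c h, ← htdef]
      unfold T2
      rw [← hc, Complex.sub_re, Complex.add_re, re_T_conj]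
      simp
      ring
    rw [Complex.norm_real, Real.norm_eq_abs, abs_of_pos (by positivity)] at h3
    have h4 : Real.exp (2 * (GG r c s).re) = Real.exp (GG r c s).re ^ 2 := by
      rw [← Real.exp_nat_mul]
      norm_num
    rw [h3, h4, Real.sqrt_sq (Real.exp_pos _).le]

/-- boundedness of the series on the closed annulus -/
theorem T_bdd {p : ℕ → ℝ} {ρ R : ℝ} (hρ : 0 ≤ ρ) (hp : Bd p ρ) (hR : ρ * R < 1) :
    ∃ C, 0 ≤ C ∧ ∀ t : ℂ, ‖t‖ ≤ R → ‖T p t‖ ≤ C := by
  by_cases hR0 : 0 ≤ R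
  · refine ⟨∑' m : ℕ, 2 * (ρ * R) ^ (m + 1), ?_, fun t ht => norm_T_le hρ hp ht hR⟩
    apply tsum_nonneg
    intro m
    positivity
  · refine ⟨0, le_rfl, fun t ht => ?_⟩
    exact absurd ((norm_nonneg t).trans ht) hR0

theorem zz_bdd (hr : 0 < r) (hr1 : r < 1) :
    ∃ B, 1 ≤ B ∧ ∀ s : ℂ, 0 ≤ s.re → s.re ≤ eta r → ‖zz r s‖ ≤ B := by
  have hlt : r ^ 2 * (1 / r) < 1 := by
    have : r ^ 2 * (1 / r) = r := by field_simp
    rw [this]
    exact hr1
  obtain ⟨C, hC0, hC⟩ := T_bdd (sq_nonneg r) (ca_bd r) hlt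
  refine ⟨max 1 (2 * √r * Real.cosh (eta r) * Real.exp (C + C)), le_max_left _ _, ?_⟩
  intro s h0 h1
  refine le_trans ?_ (le_max_right _ _)
  unfold zz
  rw [norm_mul, norm_mul, norm_mul, Complex.norm_real, Real.norm_eq_abs,
    abs_of_nonneg (Real.sqrt_nonneg r), Complex.norm_ofNat, Complex.norm_exp]
  have h2 : ‖Complex.sinh s‖ ≤ Real.cosh (eta r) := by
    have h3 : ‖Complex.sinh s‖ ≤ Real.cosh s.re := by
      rw [Complex.sinh, norm_div, Real.cosh_eq]
      have h4 : ‖Complex.exp s - Complex.exp (-s)‖ ≤ Real.exp s.re + Real.exp (-s.re) := by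
        refine le_trans (norm_sub_le _ _) ?_
        rw [Complex.norm_exp, Complex.norm_exp]
        simp
      simp only [Complex.norm_ofNat]
      linarith
    refine h3.trans ?_
    rw [Real.cosh_le_cosh, abs_of_nonneg h0, abs_of_pos (eta_pos hr hr1)]
    exact h1
  have h3 : (T2 (ca r) (Complex.exp (2 * s))).re ≤ C + C := by
    refine (Complex.re_le_norm _).trans ?_
    unfold T2
    refine (norm_add_le _ _).trans ?_
    apply add_le_add
    · exact hC _ (norm_le_inv hr h1)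
    · apply hC
      rw [norm_inv]
      have h4 := one_le_norm h0
      have h5 : ‖Complex.exp (2 * s)‖⁻¹ ≤ 1 := inv_le_one_of_one_le₀ h4
      refine h5.trans ?_
      rw [le_div_iff₀ hr]
      linarith
  apply mul_le_mul _ (Real.exp_le_exp.2 h3) (Real.exp_pos _).le (by positivity)
  exact mul_le_mul_of_nonneg_left h2 (by positivity)

theorem GG_bdd (hr : 0 < r) (hr1 : r < 1) (c : ℝ) :
    ∃ B, ∀ s : ℂ, 0 ≤ s.re → s.re ≤ eta r → |(GG r c s).re| ≤ B := by
  have hlt : r ^ 2 * (1 / r) < 1 := by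
    have : r ^ 2 * (1 / r) = r := by field_simp
    rw [this]
    exact hr1
  obtain ⟨C1, hC10, hC1⟩ := T_bdd (sq_nonneg r) (ha2_bd hr hr1) hlt
  obtain ⟨C2, hC20, hC2⟩ := T_bdd hr.le (ha_bd hr.le) (R := 1) (by linarith)
  have he := eta_pos hr hr1
  refine ⟨|f0 r| + |c - f0 r| + (C2 + C1), ?_⟩
  intro s h0 h1
  rw [GG_re]
  have h2 : |(KK r (Complex.exp (2 * s))).re| ≤ C2 + C1 := by
    refine (Complex.abs_re_le_norm _).trans ?_
    unfold KK
    refine (norm_sub_le _ _).trans ?_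
    apply add_le_add
    · apply hC2
      rw [norm_inv]
      exact inv_le_one_of_one_le₀ (one_le_norm h0)
    · exact hC1 _ (norm_le_inv hr h1)
  have h3 : |(c - f0 r) / eta r * s.re| ≤ |c - f0 r| := by
    rw [abs_mul, abs_div, abs_of_pos he, abs_of_nonneg h0, div_mul_eq_mul_div, div_le_iff₀ he]
    exact mul_le_mul_of_nonneg_left h1 (abs_nonneg _)
  calc |f0 r + (c - f0 r) / eta r * s.re - (KK r (Complex.exp (2 * s))).re|
      ≤ |f0 r + (c - f0 r) / eta r * s.re| + |(KK r (Complex.exp (2 * s))).re| := abs_sub _ _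
    _ ≤ |f0 r| + |(c - f0 r) / eta r * s.re| + |(KK r (Complex.exp (2 * s))).re| := by
        have := abs_add_le (f0 r) ((c - f0 r) / eta r * s.re)
        linarith
    _ ≤ _ := by linarith

/-- THE THREE LINES BOUND. -/
theorem three_lines (hr : 0 < r) (hr1 : r < 1) (c : ℝ) {F : ℂ → ℂ} (hF : Differentiable ℂ F)
    {N : ℝ} (n : ℕ)
    (h1 : ∀ z : ℂ, ‖z‖ = 1 → ‖F z‖ ≤ N * Real.exp (n * c))
    (h2 : ∀ y : ℝ, ‖F ((y : ℂ) * Complex.I)‖ ≤ N * √(1 + y ^ 2) ^ n)
    {s : ℂ} (hs0 : 0 ≤ s.re) (hs1 : s.re ≤ eta r) :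
    ‖F (zz r s)‖ ≤ N * Real.exp (n * (GG r c s).re) := by
  have he := eta_pos hr hr1
  obtain ⟨B, hB1, hB⟩ := zz_bdd hr hr1
  obtain ⟨B', hB'⟩ := GG_bdd hr hr1 c
  obtain ⟨M, hM⟩ : ∃ M, ∀ z : ℂ, ‖z‖ ≤ B → ‖F z‖ ≤ M := by
    have hcpt : IsCompact (Metric.closedBall (0 : ℂ) B) := isCompact_closedBall _ _
    obtain ⟨M, hM⟩ := hcpt.exists_bound_of_continuousOn (f := F) hF.continuous.continuousOn
    exact ⟨M, fun z hz => hM z (by rwa [mem_closedBall_zero_iff])⟩
  have hM0 : 0 ≤ M := (norm_nonneg _).trans (hM 0 (by rw [norm_zero]; linarith))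
  set H : ℂ → ℂ := fun s => F (zz r s) * Complex.exp (-(n * GG r c s)) with hH
  have hHn : ∀ s, ‖H s‖ = ‖F (zz r s)‖ * Real.exp (-(n * (GG r c s).re)) := by
    intro s
    rw [hH]
    simp only
    rw [norm_mul, Complex.norm_exp]
    congr 2
    rw [Complex.neg_re, ← Complex.ofReal_natCast, Complex.re_ofReal_mul]
  have hdiff : DiffContOnCl ℂ H (Complex.re ⁻¹' Ioo 0 (eta r)) := by
    apply DifferentiableOn.diffContOnCl
    intro s hs
    have hcl : closure (Complex.re ⁻¹' Ioo 0 (eta r)) ⊆ Complex.re ⁻¹' Icc 0 (eta r) := by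
      apply closure_minimal
      · exact preimage_mono Ioo_subset_Icc_self
      · exact isClosed_Icc.preimage Complex.continuous_re
    have hs' := hcl hs
    apply DifferentiableAt.differentiableWithinAt
    have e1 : DifferentiableAt ℂ (fun s => F (zz r s)) s :=
      (hF (zz r s)).comp s (zz_diff hr hr1 hs'.1 hs'.2)
    have e2 := GG_diff hr hr1 c hs'.1 hs'.2
    exact e1.mul (((differentiableAt_const _).mul e2).neg.cexp)
  have key := strip_max (F := H) (η := eta r) (c := N) (M := M * Real.exp (n * B')) he hdiff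
    (by
      intro s h3 h4
      rw [hHn]
      apply mul_le_mul (hM _ (hB s h3 h4)) _ (Real.exp_pos _).le hM0
      apply Real.exp_le_exp.2
      have h5 := neg_abs_le (GG r c s).re
      have h6 := hB' s h3 h4
      have h7 : -(GG r c s).re ≤ B' := by linarith
      have h8 : (0 : ℝ) ≤ n := Nat.cast_nonneg n
      nlinarith)
    (by
      intro s h3
      rw [hHn]
      obtain ⟨y, hy1, hy2⟩ := zz_zero hr hr1 c h3
      rw [hy1]
      have h4 := h2 y
      rw [hy2, ← Real.exp_nat_mul] at h4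
      rw [Real.exp_neg]
      have h5 := Real.exp_pos (n * (GG r c s).re)
      rw [← div_eq_mul_inv, div_le_iff₀ h5]
      exact h4)
    (by
      intro s h3
      rw [hHn, GG_re_outer hr hr1 c h3]
      have h4 := h1 _ (zz_norm hr hr1 h3)
      rw [Real.exp_neg]
      have h5 := Real.exp_pos (n * c)
      rw [← div_eq_mul_inv, div_le_iff₀ h5]
      exact h4) s hs0 hs1
  rw [hHn, Real.exp_neg, ← div_eq_mul_inv, div_le_iff₀ (Real.exp_pos _)] at key
  exact key

end Pool.Agent.Lib.MP_0430e4_lc.Lower
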