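import Pool.Agent.Lib.MP_0430e4_lc.Lower.Sid2
import Pool.Agent.Lib.MP_0430e4_lc.Lower.Major
import Pool.Agent.Lib.MP_0430e4_lc.LPLOW.Ident
import Pool.Agent.Lib.MP_0430e4_lc.LPLOW.Defs

/-!
# Translation to the bilateral series in the strip variable, and the main bound of branch I
-/

set_option autoImplicit false
set_option linter.unusedSectionVars false

namespace Pool.Agent.Lib.MP_0430e4_lc.Lower

open Filter Topology Set
open LPLOW (S Dec cL cS cA Fp Gp Nb)
open Exact (sech)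

/-- a bilateral series as two one-sided series -/
theorem S_eq_T {κ : ℝ} {c : ℤ → ℝ} (hc : Dec κ c) {s : ℂ} (hs : |s.re| < κ) :
    S c s = (c 0 : ℂ) + T (fun m => c ((m : ℤ) + 1)) (Complex.exp s)
      + T (fun m => c (-((m : ℤ) + 1))) (Complex.exp (-s)) := by
  set f : ℤ → ℂ := fun k => (c k : ℂ) * Complex.exp (k * s) with hf
  have hsum : Summable f := hc.summable hs
  have h1 : Summable (fun n : ℕ => f (n : ℤ)) := hsum.comp_injective Nat.cast_injective
  have hinj : Function.Injective (fun n : ℕ => (-((n : ℤ) + 1) : ℤ)) := by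
    intro a b h
    simp only at h
    omega
  have h2 : Summable (fun n : ℕ => f (-((n : ℤ) + 1))) := hsum.comp_injective hinj
  have h3 : S c s = ∑' n : ℕ, f (n : ℤ) + ∑' n : ℕ, f (-((n : ℤ) + 1)) :=
    tsum_of_nat_of_neg_add_one h1 h2
  have h4 : ∑' n : ℕ, f (n : ℤ) = f 0 + ∑' n : ℕ, f ((n + 1 : ℕ) : ℤ) := by
    have := h1.tsum_eq_zero_add
    simpa using this
  have e1 : f 0 = (c 0 : ℂ) := by
    rw [hf]
    simp
  have e2 : (∑' n : ℕ, f ((n + 1 : ℕ) : ℤ))
      = T (fun m => c ((m : ℤ) + 1)) (Complex.exp s) := by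
    unfold T
    apply tsum_congr
    intro n
    rw [← Complex.exp_nat_mul, hf]
    simp only
    push_cast
    rfl
  have e3 : (∑' n : ℕ, f (-((n : ℤ) + 1)))
      = T (fun m => c (-((m : ℤ) + 1))) (Complex.exp (-s)) := by
    unfold T
    apply tsum_congr
    intro n
    rw [← Complex.exp_nat_mul, hf]
    simp only
    congr 2
    push_cast
    ring
  rw [h3, h4, e1, e2, e3]

theorem sech_eq (η : ℝ) (m : ℕ) :
    sech ((m + 1) * η) = 2 * Real.exp (-η) ^ (m + 1) / (1 + (Real.exp (-η) ^ (m + 1)) ^ 2) := by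
  unfold sech
  rw [Real.cosh_eq, ← Real.exp_nat_mul]
  have e1 : Real.exp ((m + 1) * η) = (Real.exp (((m + 1 : ℕ) : ℝ) * -η))⁻¹ := by
    rw [← Real.exp_neg]
    congr 1
    push_cast
    ring
  have e2 : Real.exp (-((m + 1) * η)) = Real.exp (((m + 1 : ℕ) : ℝ) * -η) := by
    congr 1
    push_cast
    ring
  rw [e1, e2]
  have := Real.exp_pos (((m + 1 : ℕ) : ℝ) * -η)
  generalize Real.exp (((m + 1 : ℕ) : ℝ) * -η) = a at *
  field_simp

theorem cL_eq (η : ℝ) (m : ℕ) : cL η ((m : ℤ) + 1) = lq (Real.exp (-η)) m := by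
  unfold cL lq
  by_cases hm : Even m
  · have h1 : Odd ((m : ℤ) + 1) := by
      have : Even (m : ℤ) := by exact_mod_cast hm
      exact this.add_one
    rw [if_pos h1, if_pos hm]
    push_cast
    rw [sech_eq]
    have h2 : (m : ℝ) + 1 ≠ 0 := by positivity
    have h3 := Real.exp_pos (-η)
    have h4 : 1 + (Real.exp (-η) ^ (m + 1)) ^ 2 ≠ 0 := by positivity
    field_simp
  · have h1 : ¬ Odd ((m : ℤ) + 1) := by
      rw [Int.not_odd_iff_even]
      have : Odd (m : ℤ) := by exact_mod_cast Nat.not_even_iff_odd.1 hm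
      exact this.add_one
    rw [if_neg h1, if_neg hm]

theorem cL_neg' (η : ℝ) (k : ℤ) : cL η (-k) = -cL η k := by
  unfold cL
  simp only [odd_neg]
  split_ifs
  · rw [show ((-k : ℤ) : ℝ) * η = -(k * η) by push_cast; ring, LPLOW.sech_neg]
    push_cast
    ring
  · ring

/-- `S cL s = Lf (exp (-η)) (exp s)` -/
theorem S_cL {η : ℝ} (hη : 0 < η) {s : ℂ} (hs : |s.re| < η) :
    S (cL η) s = Lf (Real.exp (-η)) (Complex.exp s) := by
  rw [S_eq_T (LPLOW.dec_cL hη) hs]
  have h0 : cL η 0 = 0 := by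
    unfold cL
    rw [if_neg (by decide)]
  have h1 : (fun m : ℕ => cL η ((m : ℤ) + 1)) = lq (Real.exp (-η)) := by
    funext m
    exact cL_eq η m
  have h2 : T (fun m : ℕ => cL η (-((m : ℤ) + 1))) (Complex.exp (-s))
      = -T (lq (Real.exp (-η))) (Complex.exp (-s)) := by
    have e1 : (fun m : ℕ => cL η (-((m : ℤ) + 1))) = fun m => (-1) * lq (Real.exp (-η)) m := by
      funext m
      rw [cL_neg', cL_eq]
      ring
    rw [e1, T_mul]
    push_cast
    ring
  rw [h0, h1, h2]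
  unfold Lf
  rw [Complex.exp_neg]
  push_cast
  ring

section
variable {η : ℝ} (hη : 0 < η)
include hη

theorem q_pos : 0 < Real.exp (-η) := Real.exp_pos _

theorem q_lt : Real.exp (-η) < 1 := by
  rw [Real.exp_lt_one_iff]
  linarith

theorem r_eq : Real.exp (-(2 * η)) = Real.exp (-η) ^ 2 := by
  rw [← Real.exp_nat_mul]
  congr 1
  push_cast
  ring

theorem eta_eq : eta (Real.exp (-η) ^ 2) = η := by
  rw [← r_eq hη]
  unfold eta
  rw [Real.log_exp]
  ring

theorem zz_eq (s : ℂ) : zz (Real.exp (-η) ^ 2) s = zv (Real.exp (-η)) (Complex.exp s) := by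
  unfold zz zv
  have h1 : √(Real.exp (-η) ^ 2) = Real.exp (-η) := Real.sqrt_sq (Real.exp_pos _).le
  have h2 : Complex.exp s ^ 2 = Complex.exp (2 * s) := by
    rw [← Complex.exp_nat_mul]
    simp
  rw [h1, h2, Complex.sinh, ← Complex.exp_neg]
  ring

/-- The relation between `z` and `L`: `z = tanh L`, in the form `(1 - z) = exp (-2 L) (1 + z)`. -/
theorem one_sub_zz {s : ℂ} (h0 : 0 ≤ s.re) (h1 : s.re < η) :
    1 - zz (Real.exp (-η) ^ 2) s
      = Complex.exp (-2 * S (cL η) s) * (1 + zz (Real.exp (-η) ^ 2) s) := by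
  have hq := q_pos hη
  have hq1 := q_lt hη
  set q := Real.exp (-η) with hqd
  have hnorm : ‖Complex.exp s‖ = Real.exp s.re := Complex.norm_exp s
  have hn1 : 1 ≤ ‖Complex.exp s‖ := by
    rw [hnorm]
    exact Real.one_le_exp h0
  have hn2 : q * ‖Complex.exp s‖ < 1 := by
    rw [hnorm, hqd, ← Real.exp_add, Real.exp_lt_one_iff]
    linarith
  have hn3 : q * ‖(Complex.exp s)⁻¹‖ < 1 := by
    rw [norm_inv]
    have : ‖Complex.exp s‖⁻¹ ≤ 1 := inv_le_one_of_one_le₀ hn1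
    nlinarith
  have hn4 : ‖Complex.exp s‖ ≤ 1 / q := by
    rw [le_div_iff₀ hq]
    linarith
  have e1 := al_be_rel hq hq1 hn1 hn4
  rw [be_eq hq hq1 hn2 hn3] at e1
  have hs : |s.re| < η := by rw [abs_of_nonneg h0]; exact h1
  rw [zz_eq hη, S_cL hη hs, ← hqd]
  -- al is nonzero
  have hv0 : Complex.exp s ≠ 0 := Complex.exp_ne_zero s
  have hA : al q (Complex.exp s) ≠ 0 := by
    intro h
    have h2 := al_mul_be q hv0
    rw [h, zero_mul] at h2
    obtain ⟨r0, r1⟩ := rq hq hq1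
    have hmem := Uv_closed hq hq1 hn1 hn4
    have n1 : (1 : ℂ) - ((q ^ 2 : ℝ) : ℂ) * (Complex.exp s ^ 2)⁻¹ ≠ 0 :=
      one_sub_ne r0 (Uv_sq hq hq1 hmem)
    have h3 : (1 : ℂ) - ((q ^ 2 : ℝ) : ℂ) * Complex.exp s ^ 2 = 0 := by
      rcases mul_eq_zero.1 h2.symm with h | h
      · exact h
      · exact absurd h n1
    have h4 : ‖((q ^ 2 : ℝ) : ℂ) * Complex.exp s ^ 2‖ = 1 := by
      have : ((q ^ 2 : ℝ) : ℂ) * Complex.exp s ^ 2 = 1 := by linear_combination -h3
      rw [this, norm_one]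
    rw [norm_mul, norm_pow, Complex.norm_real, Real.norm_eq_abs, abs_of_pos r0] at h4
    have h5 : q ^ 2 * ‖Complex.exp s‖ ^ 2 = (q * ‖Complex.exp s‖) ^ 2 := by ring
    rw [h5] at h4
    have h6 : 0 ≤ q * ‖Complex.exp s‖ := by positivity
    nlinarith
  have e2 : al q (Complex.exp s) * ((1 + zv q (Complex.exp s))
      - Complex.exp (2 * Lf q (Complex.exp s)) * (1 - zv q (Complex.exp s))) = 0 := by
    linear_combination e1
  have e3 := (mul_eq_zero.1 e2).resolve_left hA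
  have e4 : Complex.exp (-2 * Lf q (Complex.exp s)) * Complex.exp (2 * Lf q (Complex.exp s)) = 1 := by
    rw [← Complex.exp_add]
    simp
  linear_combination (-Complex.exp (-2 * Lf q (Complex.exp s))) * e3
    - (1 - zv q (Complex.exp s)) * e4

theorem one_add_zz_ne {s : ℂ} (h0 : 0 ≤ s.re) (h1 : s.re < η) :
    1 + zz (Real.exp (-η) ^ 2) s ≠ 0 := by
  intro h
  have h2 := one_sub_zz hη h0 h1
  rw [h, mul_zero] at h2
  have h3 : (2 : ℂ) = 0 := by linear_combination h + h2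
  norm_num at h3

/-- `1 - z² = exp (2 f0 - T2 fa)` inside the strip -/
theorem one_sub_zz_sq {s : ℂ} (h0 : 0 ≤ s.re) (h1 : s.re < η) :
    1 - zz (Real.exp (-η) ^ 2) s ^ 2
      = Complex.exp (2 * (f0 (Real.exp (-η) ^ 2) : ℂ)
          - T2 (fa (Real.exp (-η) ^ 2)) (Complex.exp (2 * s))) := by
  have hq := q_pos hη
  have hq1 := q_lt hη
  obtain ⟨r0, r1⟩ := rq hq hq1
  set r := Real.exp (-η) ^ 2 with hr
  have hn1 : 1 ≤ ‖Complex.exp (2 * s)‖ := one_le_norm h0
  have hn2 : r * ‖Complex.exp (2 * s)‖ < 1 := by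
    rw [norm_exp_two, hr, ← r_eq hη, ← Real.exp_add, Real.exp_lt_one_iff]
    linarith
  have hn3 : r * ‖(Complex.exp (2 * s))⁻¹‖ < 1 := by
    rw [norm_inv]
    have : ‖Complex.exp (2 * s)‖⁻¹ ≤ 1 := inv_le_one_of_one_le₀ hn1
    nlinarith
  have hn4 : ‖Complex.exp (2 * s)‖ ≤ 1 / r := by
    rw [le_div_iff₀ r0]
    linarith
  rw [zz_sq r0.le, one_sub_Z2_closed r0 r1 hn1 hn4]
  set t := Complex.exp (2 * s) with ht
  have l1 := T_log (x := r) (t := t) (by
    rw [norm_mul, Complex.norm_real, Real.norm_eq_abs, abs_of_pos r0]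
    exact hn2)
  have l2 := T_log (x := r) (t := t⁻¹) (by
    rw [norm_mul, Complex.norm_real, Real.norm_eq_abs, abs_of_pos r0]
    exact hn3)
  have hsq : ∀ u : ℂ, r * ‖u‖ < 1 → r ^ 2 * ‖u‖ < 1 := by
    intro u hu
    have : r ^ 2 ≤ r := by nlinarith
    have := mul_le_mul_of_nonneg_right this (norm_nonneg u)
    linarith
  have key : ∀ u : ℂ, r * ‖u‖ < 1 →
      T (fun m => r ^ (m + 1) / ((m : ℝ) + 1)) u = T (ga r) u + T (fa r) u := by
    intro u hu
    rw [T_add ((ga_bd r0.le).cv (sq_nonneg r) (hsq u hu)) ((fa_bd r0.le r1.le).cv r0.le hu)]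
    congr 1
    funext m
    unfold ga
    ring
  rw [l1, l2, key t hn2, key t⁻¹ hn3, ← Complex.exp_add, ← Complex.exp_add]
  congr 1
  unfold T2
  ring

end

/-! ### the function `U` of branch I -/

noncomputable def cU (η : ℝ) (k : ℤ) : ℝ := if Even k then sech (k * (η / 2)) ^ 2 / (4 * k) else 0

theorem dec_cU {η : ℝ} (hη : 0 < η) : Dec η (cU η) := by
  refine ((LPLOW.dec_cS hη).const_mul (1 / 4)).of_le (fun k => ?_)
  unfold cU cS
  split_ifs with h
  · by_cases hk0 : k = 0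
    · subst hk0
      simp [sq_nonneg]
    · have hk : (1 : ℝ) ≤ |(k : ℝ)| := by exact_mod_cast Int.one_le_abs hk0
      have h0 : 0 ≤ sech (k * (η / 2)) ^ 2 := sq_nonneg _
      rw [abs_div, abs_mul, abs_mul, abs_of_nonneg h0,
        abs_of_pos (show (0 : ℝ) < 4 by norm_num), abs_of_pos (show (0 : ℝ) < 1 / 4 by norm_num),
        div_le_iff₀ (by linarith)]
      nlinarith
  · simp

theorem cU_neg (η : ℝ) (k : ℤ) : cU η (-k) = -cU η k := by
  unfold cU
  simp only [even_neg]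
  split_ifs
  · rw [show ((-k : ℤ) : ℝ) * (η / 2) = -(k * (η / 2)) by push_cast; ring, LPLOW.sech_neg]
    push_cast
    ring
  · ring

/-- termwise derivative of `S cU` -/
theorem hasDerivAt_U {η : ℝ} (hη : 0 < η) {s : ℂ} (hs : |s.re| < η) :
    HasDerivAt (S (cU η)) ((S (cS η) s - 1) / 4) s := by
  have h := (dec_cU hη).hasDerivAt hs
  have e : S (fun k => (k : ℝ) * cU η k) s = (S (cS η) s - 1) / 4 := by
    have e1 : (fun k : ℤ => (k : ℝ) * cU η k)
        = fun k => (1 / 4) * cS η k + (if k = 0 then (-(1 / 4) : ℝ) else 0) := by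
      funext k
      unfold cU cS
      by_cases hk0 : k = 0
      · subst hk0
        simp [LPLOW.sech_zero]
      · have : (k : ℝ) ≠ 0 := by exact_mod_cast hk0
        split_ifs
        · field_simp
          ring
        · ring
    rw [e1, LPLOW.S_add ((LPLOW.dec_cS hη).const_mul (1 / 4)) (LPLOW.Dec.delta _ _) hs,
      LPLOW.S_smul, LPLOW.S_delta]
    push_cast
    ring
  rw [e] at h
  exact h

/-! ### even series in the variable `exp (2 s)` -/

theorem S_even_eq {c : ℤ → ℝ} (h : ∀ k, ¬ Even k → c k = 0) (s : ℂ) :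
    S c s = S (fun M => c (2 * M)) (2 * s) := by
  have hinj : Function.Injective (fun M : ℤ => 2 * M) := by
    intro a b hab
    simp only at hab
    omega
  unfold S
  have hsupp : Function.support (fun k : ℤ => (c k : ℂ) * Complex.exp (k * s))
      ⊆ Set.range (fun M : ℤ => 2 * M) := by
    intro k hk
    by_contra hcon
    apply hk
    have : ¬ Even k := by
      intro hev
      obtain ⟨m, hm⟩ := hev
      exact hcon ⟨m, by simp only; omega⟩
    simp only
    rw [h k this]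
    simp
  rw [← hinj.tsum_eq hsupp]
  apply tsum_congr
  intro M
  congr 2
  push_cast
  ring

theorem sech_sq_eq (η : ℝ) (m : ℕ) :
    sech ((m + 1) * η) ^ 2
      = 4 * (Real.exp (-η) ^ 2) ^ (m + 1) / (1 + (Real.exp (-η) ^ 2) ^ (m + 1)) ^ 2 := by
  rw [sech_eq]
  have e : (Real.exp (-η) ^ 2) ^ (m + 1) = (Real.exp (-η) ^ (m + 1)) ^ 2 := by ring
  rw [e]
  have := Real.exp_pos (-η)
  generalize Real.exp (-η) ^ (m + 1) = a at *
  rw [div_pow]
  ring

theorem sech_two_eq (η : ℝ) (m : ℕ) :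
    sech (2 * ((m + 1) * η))
      = 2 * (Real.exp (-η) ^ 2) ^ (m + 1) / (1 + ((Real.exp (-η) ^ 2) ^ (m + 1)) ^ 2) := by
  have h := sech_eq (2 * η) m
  have e : Real.exp (-(2 * η)) = Real.exp (-η) ^ 2 := by
    rw [← Real.exp_nat_mul]
    congr 1
    push_cast
    ring
  rw [e] at h
  rw [← h]
  congr 1
  ring

theorem dec_double {κ : ℝ} {c : ℤ → ℝ} (h : Dec κ c) : Dec (2 * κ) (fun M => c (2 * M)) := by
  obtain ⟨C, hC⟩ := h
  refine ⟨C, fun k => (hC (2 * k)).trans (le_of_eq ?_)⟩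
  congr 2
  push_cast
  rw [abs_mul, abs_of_pos (show (0 : ℝ) < 2 by norm_num)]
  ring

/-- `S cU s = - KK + T2 fa / 2` inside the strip -/
theorem S_cU {η : ℝ} (hη : 0 < η) {s : ℂ} (h0 : 0 ≤ s.re) (h1 : s.re < η) :
    S (cU η) s = -KK (Real.exp (-η) ^ 2) (Complex.exp (2 * s))
      + (1 / 2) * T2 (fa (Real.exp (-η) ^ 2)) (Complex.exp (2 * s)) := by
  have hq := q_pos hη
  have hq1 := q_lt hη
  obtain ⟨r0, r1⟩ := rq hq hq1
  have hs : |s.re| < η := by rw [abs_of_nonneg h0]; exact h1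
  rw [S_even_eq (fun k hk => by unfold cU; rw [if_neg hk]) s,
    S_eq_T (dec_double (dec_cU hη)) (s := 2 * s) (by
      simp only [Complex.mul_re, Complex.re_ofNat, Complex.im_ofNat, zero_mul, sub_zero]
      rw [abs_mul, abs_of_pos (show (0 : ℝ) < 2 by norm_num)]
      linarith)]
  set r := Real.exp (-η) ^ 2 with hr
  set t := Complex.exp (2 * s) with ht
  have hti : Complex.exp (-(2 * s)) = t⁻¹ := Complex.exp_neg _
  rw [hti]
  have hn1 : 1 ≤ ‖t‖ := one_le_norm h0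
  have hn2 : r * ‖t‖ < 1 := by
    rw [ht, norm_exp_two, hr, ← r_eq hη, ← Real.exp_add, Real.exp_lt_one_iff]
    linarith
  have hn3 : r * ‖t⁻¹‖ < 1 := by
    rw [norm_inv]
    have : ‖t‖⁻¹ ≤ 1 := inv_le_one_of_one_le₀ hn1
    nlinarith
  have hsq : ∀ u : ℂ, r * ‖u‖ < 1 → r ^ 2 * ‖u‖ < 1 := by
    intro u hu
    have : r ^ 2 ≤ r := by nlinarith
    have := mul_le_mul_of_nonneg_right this (norm_nonneg u)
    linarith
  have hc0 : cU η (2 * 0) = 0 := by
    unfold cU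
    simp
  have hval : ∀ m : ℕ, cU η (2 * ((m : ℤ) + 1))
      = r ^ (m + 1) / (2 * ((m : ℝ) + 1) * (1 + r ^ (m + 1)) ^ 2) := by
    intro m
    unfold cU
    rw [if_pos (even_two_mul _)]
    have e1 : ((2 * ((m : ℤ) + 1) : ℤ) : ℝ) * (η / 2) = (m + 1) * η := by
      push_cast
      ring
    rw [e1, sech_sq_eq, ← hr]
    push_cast
    have h3 : (m : ℝ) + 1 ≠ 0 := by positivity
    have h4 : 1 + r ^ (m + 1) ≠ 0 := by positivity
    field_simp
  have c1 : Cv (fun m => (r ^ (m + 1)) ^ 2 * ha r m) t := (ha2_bd r0 r1).cv (sq_nonneg r) (hsq t hn2)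
  have c2 : Cv (fa r) t := (fa_bd r0.le r1.le).cv r0.le hn2
  have c3 : Cv (ha r) t⁻¹ := (ha_bd r0.le).cv r0.le hn3
  have c4 : Cv (fa r) t⁻¹ := (fa_bd r0.le r1.le).cv r0.le hn3
  have I1 : T (fun m => cU η (2 * ((m : ℤ) + 1))) t
      = T (fun m => (r ^ (m + 1)) ^ 2 * ha r m) t + ((1 / 2 : ℝ) : ℂ) * T (fa r) t := by
    rw [← T_mul, T_add c1 (c2.mul (1 / 2))]
    congr 1
    funext m
    rw [hval, fa_eq r0.le]
    unfold ha
    have h3 : (m : ℝ) + 1 ≠ 0 := by positivity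
    have h4 : 1 + r ^ (m + 1) ≠ 0 := by positivity
    have h5 : 1 + (r ^ (m + 1)) ^ 2 ≠ 0 := by positivity
    generalize r ^ (m + 1) = a at *
    field_simp
    ring
  have I2 : T (fun m => cU η (2 * (-((m : ℤ) + 1)))) t⁻¹
      = ((-1 : ℝ) : ℂ) * T (ha r) t⁻¹ + ((1 / 2 : ℝ) : ℂ) * T (fa r) t⁻¹ := by
    rw [← T_mul, ← T_mul, T_add (c3.mul (-1)) (c4.mul (1 / 2))]
    congr 1
    funext m
    have e1 : (2 * (-((m : ℤ) + 1)) : ℤ) = -(2 * ((m : ℤ) + 1)) := by ring
    rw [e1, cU_neg, hval, fa_eq r0.le]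
    unfold ha
    have h3 : (m : ℝ) + 1 ≠ 0 := by positivity
    have h4 : 1 + r ^ (m + 1) ≠ 0 := by positivity
    have h5 : 1 + (r ^ (m + 1)) ^ 2 ≠ 0 := by positivity
    generalize r ^ (m + 1) = a at *
    field_simp
    ring
  rw [I1, I2, hc0]
  unfold KK T2
  push_cast
  ring

/-- polynomial bound on the imaginary axis -/
theorem norm_Fp_imag (n : ℕ) (b : ℕ → ℝ) (y : ℝ) :
    ‖Fp n b ((y : ℂ) * Complex.I)‖ ≤ Nb n b * √(1 + y ^ 2) ^ n := by
  have h1 : ‖(1 : ℂ) - (y : ℂ) * Complex.I‖ = √(1 + y ^ 2) := by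
    rw [Complex.norm_eq_sqrt_sq_add_sq]
    congr 1
    simp
  have h2 : ‖(1 : ℂ) + (y : ℂ) * Complex.I‖ = √(1 + y ^ 2) := by
    rw [Complex.norm_eq_sqrt_sq_add_sq]
    congr 1
    simp
  unfold Fp Nb
  refine (norm_sum_le _ _).trans ?_
  rw [Finset.sum_mul]
  apply Finset.sum_le_sum
  intro k hk
  have hk' : k ≤ n := by
    have := Finset.mem_range.1 hk
    omega
  rw [norm_mul, norm_mul, norm_pow, norm_pow, h1, h2, ← pow_add, Complex.norm_real,
    Real.norm_eq_abs]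
  have : k + (n - k) = n := by omega
  rw [this]

theorem Fp_differentiable (n : ℕ) (b : ℕ → ℝ) : Differentiable ℂ (Fp n b) := by
  unfold Fp
  fun_prop

theorem Gp_differentiable (n : ℕ) (b : ℕ → ℝ) : Differentiable ℂ (Gp n b) := by
  unfold Gp
  fun_prop

/-- THE MAIN BOUND OF BRANCH I. -/
theorem M1 {η : ℝ} (hη : 0 < η) (R : ℝ) (n : ℕ) (b : ℕ → ℝ)
    (hF : ∀ z : ℂ, ‖z‖ ≤ 1 → ‖Fp n b z‖ ≤ Real.exp (n * R) * Nb n b)
    {s : ℂ} (h0 : 0 ≤ s.re) (h1 : s.re < η) :
    ‖Gp n b (Complex.exp (-2 * S (cL η) s))‖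
      ≤ Nb n b * Real.exp (n * ((R - f0 (Real.exp (-(2 * η)))) / η * s.re
          + (S (cU η) s).re - (S (cL η) s).re)) := by
  have hq := q_pos hη
  have hq1 := q_lt hη
  obtain ⟨r0, r1⟩ := rq hq hq1
  rw [r_eq hη]
  have hrel := one_sub_zz hη h0 h1
  have hne := one_add_zz_ne hη h0 h1
  have hsq := one_sub_zz_sq hη h0 h1
  have hU := S_cU hη h0 h1
  have heta := eta_eq hη
  set r := Real.exp (-η) ^ 2 with hr
  have h3 := three_lines r0 r1 R (Fp_differentiable n b) (N := Nb n b) n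
    (fun z hz => by
      rw [mul_comm]
      exact hF z hz.le)
    (norm_Fp_imag n b) h0 (by rw [heta]; exact h1.le)
  set z := zz r s with hz
  have hw : (1 - z) / (1 + z) = Complex.exp (-2 * S (cL η) s) := by
    rw [div_eq_iff hne]
    exact hrel
  have h4 := LPLOW.Fp_eq n b hne
  rw [hw] at h4
  rw [h4, norm_mul, norm_pow] at h3
  -- the norm of `1 + z`
  have h5 : ‖1 + z‖ = Real.exp (f0 r - (T2 (fa r) (Complex.exp (2 * s))).re / 2
      + (S (cL η) s).re) := by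
    have e1 : (1 + z) ^ 2 * Complex.exp (-2 * S (cL η) s)
        = Complex.exp (2 * (f0 r : ℂ) - T2 (fa r) (Complex.exp (2 * s))) := by
      rw [← hsq]
      linear_combination -(1 + z) * hrel
    have e2 := congrArg norm e1
    rw [norm_mul, norm_pow, Complex.norm_exp, Complex.norm_exp] at e2
    have e3 : (-2 * S (cL η) s).re = -(2 * (S (cL η) s).re) := by simp
    have e4 : (2 * (f0 r : ℂ) - T2 (fa r) (Complex.exp (2 * s))).re
        = 2 * f0 r - (T2 (fa r) (Complex.exp (2 * s))).re := by simp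
    rw [e3, e4, Real.exp_neg, ← div_eq_mul_inv, div_eq_iff (Real.exp_ne_zero _), ← Real.exp_add]
      at e2
    have e5 : Real.exp (2 * f0 r - (T2 (fa r) (Complex.exp (2 * s))).re + 2 * (S (cL η) s).re)
        = Real.exp (f0 r - (T2 (fa r) (Complex.exp (2 * s))).re / 2 + (S (cL η) s).re) ^ 2 := by
      rw [← Real.exp_nat_mul]
      congr 1
      push_cast
      ring
    rw [e5] at e2
    exact (pow_left_inj₀ (norm_nonneg _) (Real.exp_pos _).le two_ne_zero).1 e2
  have h6 : 0 < ‖1 + z‖ ^ n := by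
    have : 0 < ‖1 + z‖ := norm_pos_iff.2 hne
    positivity
  rw [mul_comm, ← le_div_iff₀ h6] at h3
  refine h3.trans (le_of_eq ?_)
  rw [h5, ← Real.exp_nat_mul, mul_div_assoc, ← Real.exp_sub, hU, GG_re, heta]
  congr 2
  have e6 : (-KK r (Complex.exp (2 * s)) + 1 / 2 * T2 (fa r) (Complex.exp (2 * s))).re
      = -(KK r (Complex.exp (2 * s))).re + (T2 (fa r) (Complex.exp (2 * s))).re / 2 := by
    have : (1 / 2 : ℂ) * T2 (fa r) (Complex.exp (2 * s))
        = (((1 / 2 : ℝ)) : ℂ) * T2 (fa r) (Complex.exp (2 * s)) := by push_cast; rfl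
    rw [this, Complex.add_re, Complex.neg_re, Complex.re_ofReal_mul]
    ring
  rw [e6]
  ring

end Pool.Agent.Lib.MP_0430e4_lc.Lower
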