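import Pool.Agent.Lib.MP_0430e4_lc.Lower.Strip

/-!
# The main bound of branch II
-/

set_option autoImplicit false
set_option linter.unusedSectionVars false

namespace Pool.Agent.Lib.MP_0430e4_lc.Lower

open Filter Topology Set
open LPLOW (S Dec cL cS cA cO Fp Gp Nb)
open Exact (sech)

noncomputable def cM (η : ℝ) (k : ℤ) : ℝ := if Even k then sech (k * η) / k else 0

noncomputable def cW (η : ℝ) (k : ℤ) : ℝ :=
  if Even k then sech (k * η) / (2 * k) - sech (k * (η / 2)) ^ 2 / (4 * k) else 0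

theorem cM_neg (η : ℝ) (k : ℤ) : cM η (-k) = -cM η k := by
  unfold cM
  simp only [even_neg]
  split_ifs
  · rw [show ((-k : ℤ) : ℝ) * η = -(k * η) by push_cast; ring, LPLOW.sech_neg]
    push_cast
    ring
  · ring

theorem cW_neg (η : ℝ) (k : ℤ) : cW η (-k) = -cW η k := by
  unfold cW
  simp only [even_neg]
  split_ifs
  · rw [show ((-k : ℤ) : ℝ) * η = -(k * η) by push_cast; ring, LPLOW.sech_neg,
      show ((-k : ℤ) : ℝ) * (η / 2) = -(k * (η / 2)) by push_cast; ring, LPLOW.sech_neg]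
    push_cast
    ring
  · ring

theorem cW_eq (η : ℝ) (k : ℤ) : cW η k = (1 / 2) * cM η k + (-1) * cU η k := by
  unfold cW cM cU
  split_ifs
  · by_cases hk : (k : ℝ) = 0
    · rw [hk]
      simp
    · field_simp
      ring
  · ring

theorem dec_cM {η : ℝ} (hη : 0 < η) : Dec η (cM η) := by
  refine (LPLOW.dec_cO hη).of_le (fun k => ?_)
  unfold cM cO
  split_ifs with h
  · by_cases hk0 : k = 0
    · subst hk0
      simp
    · have hk : (1 : ℝ) ≤ |(k : ℝ)| := by exact_mod_cast Int.one_le_abs hk0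
      have h0 := LPLOW.sech_pos ((k : ℝ) * η)
      rw [abs_div, abs_of_pos h0, div_le_iff₀ (by linarith)]
      nlinarith
  · simp

theorem dec_cW {η : ℝ} (hη : 0 < η) : Dec η (cW η) := by
  have h := ((dec_cM hη).const_mul (1 / 2)).add ((dec_cU hη).const_mul (-1))
  refine h.of_le (fun k => ?_)
  rw [cW_eq]

theorem hasDerivAt_M {η : ℝ} (hη : 0 < η) {s : ℂ} (hs : |s.re| < η) :
    HasDerivAt (S (cM η)) (S (cO η) s - 1) s := by
  have h := (dec_cM hη).hasDerivAt hs
  have e : S (fun k => (k : ℝ) * cM η k) s = S (cO η) s - 1 := by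
    have e1 : (fun k : ℤ => (k : ℝ) * cM η k)
        = fun k => cO η k + (if k = 0 then (-1 : ℝ) else 0) := by
      funext k
      unfold cM cO
      by_cases hk0 : k = 0
      · subst hk0
        simp [LPLOW.sech_zero]
      · have : (k : ℝ) ≠ 0 := by exact_mod_cast hk0
        rw [if_neg hk0]
        split_ifs
        · field_simp
          ring
        · ring
    rw [e1, LPLOW.S_add (LPLOW.dec_cO hη) (LPLOW.Dec.delta _ _) hs, LPLOW.S_delta]
    push_cast
    ring
  rw [e] at h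
  exact h

theorem hasDerivAt_W {η : ℝ} (hη : 0 < η) {s : ℂ} (hs : |s.re| < η) :
    HasDerivAt (S (cW η)) (-1 / 4 + S (cO η) s / 2 - S (cS η) s / 4) s := by
  have h := (dec_cW hη).hasDerivAt hs
  have hM := (dec_cM hη).hasDerivAt hs
  have hU := (dec_cU hη).hasDerivAt hs
  have e1 : S (fun k => (k : ℝ) * cM η k) s = S (cO η) s - 1 :=
    hM.unique (hasDerivAt_M hη hs)
  have e2 : S (fun k => (k : ℝ) * cU η k) s = (S (cS η) s - 1) / 4 :=
    hU.unique (hasDerivAt_U hη hs)
  have e : S (fun k => (k : ℝ) * cW η k) s = -1 / 4 + S (cO η) s / 2 - S (cS η) s / 4 := by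
    obtain ⟨κ', h1, h2⟩ := exists_between hs
    have e3 : (fun k : ℤ => (k : ℝ) * cW η k)
        = fun k : ℤ => (1 / 2) * ((k : ℝ) * cM η k) + (-1) * ((k : ℝ) * cU η k) := by
      funext k
      rw [cW_eq]
      ring
    rw [e3, LPLOW.S_add (((dec_cM hη).mul_k h2).const_mul (1 / 2))
      (((dec_cU hη).mul_k h2).const_mul (-1)) h1, LPLOW.S_smul, LPLOW.S_smul, e1, e2]
    push_cast
    ring
  rw [e] at h
  exact h

section
variable {η : ℝ} (hη : 0 < η)
include hη

theorem exp_two_shift (u : ℂ) : Complex.exp (2 * ((η : ℂ) + u))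
    = (((Real.exp (-η) ^ 2)⁻¹ : ℝ) : ℂ) * Complex.exp (2 * u) := by
  rw [← r_eq hη, ← Real.exp_neg, neg_neg, mul_add, Complex.exp_add]
  push_cast
  rfl

theorem exp_two_shift_inv (u : ℂ) : (Complex.exp (2 * ((η : ℂ) + u)))⁻¹
    = ((Real.exp (-η) ^ 2 : ℝ) : ℂ) * Complex.exp (-(2 * u)) := by
  rw [exp_two_shift hη, mul_inv, ← Complex.exp_neg]
  congr 1
  push_cast
  rw [inv_inv]

variable {u : ℂ} (h0 : -η < u.re) (h1 : u.re ≤ 0)
include h0 h1

theorem abs_re_lt : |u.re| < η := by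
  rw [abs_of_nonpos h1]
  linarith

theorem norm_exp_neg_two : ‖Complex.exp (-(2 * u))‖ < 1 / Real.exp (-η) ^ 2 := by
  rw [Complex.norm_exp, ← r_eq hη, one_div, ← Real.exp_neg, neg_neg]
  apply Real.exp_lt_exp.2
  simp
  linarith

theorem norm_exp_two' : ‖Complex.exp (2 * u)‖ ≤ 1 := by
  rw [norm_exp_two, Real.exp_le_one_iff]
  linarith

/-- `zz (η + u) = exp (u + S cM u)` -/
theorem zz_shift : zz (Real.exp (-η) ^ 2) ((η : ℂ) + u)
    = Complex.exp (u + S (cM η) u) := by
  have hq := q_pos hη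
  have hq1 := q_lt hη
  obtain ⟨r0, r1⟩ := rq hq hq1
  have hn1 := norm_exp_neg_two hη h0 h1
  have hn2 := norm_exp_two' hη h0 h1
  have hti := exp_two_shift_inv hη u
  have htt := exp_two_shift hη u
  rw [S_even_eq (fun k hk => by unfold cM; rw [if_neg hk]) u,
    S_eq_T (dec_double (dec_cM hη)) (s := 2 * u) (by
      have := abs_re_lt hη h0 h1
      simp only [Complex.mul_re, Complex.re_ofNat, Complex.im_ofNat, zero_mul, sub_zero]
      rw [abs_mul, abs_of_pos (show (0 : ℝ) < 2 by norm_num)]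
      linarith)]
  have hsq : √(Real.exp (-η) ^ 2) = Real.exp (-η) := Real.sqrt_sq (Real.exp_pos _).le
  unfold zz
  rw [hsq]
  set q := Real.exp (-η) with hqd
  set r := q ^ 2 with hr
  set t := Complex.exp (2 * ((η : ℂ) + u)) with ht
  set e := Complex.exp (2 * u) with he
  set e' := Complex.exp (-(2 * u)) with he'
  have hmul : r * ‖e'‖ < 1 := by
    rw [lt_div_iff₀ r0] at hn1
    linarith
  -- 2 sinh = exp (η + u) (1 - t⁻¹)
  have hs : 2 * (q : ℂ) * Complex.sinh ((η : ℂ) + u) = Complex.exp u * (1 - t⁻¹) := by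
    rw [Complex.sinh, ht, ← Complex.exp_neg]
    have e1 : (q : ℂ) * Complex.exp ((η : ℂ) + u) = Complex.exp u := by
      rw [hqd, Complex.ofReal_exp, ← Complex.exp_add]
      congr 1
      push_cast
      ring
    have e2 : (q : ℂ) * Complex.exp (-((η : ℂ) + u))
        = Complex.exp u * Complex.exp (-(2 * ((η : ℂ) + u))) := by
      rw [hqd, Complex.ofReal_exp, ← Complex.exp_add, ← Complex.exp_add]
      congr 1
      push_cast
      ring
    calc _ = (q : ℂ) * Complex.exp ((η : ℂ) + u) - (q : ℂ) * Complex.exp (-((η : ℂ) + u)) := by ring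
      _ = _ := by
        rw [e1, e2]
        ring
  rw [hs, hti]
  have hre' : ‖((r : ℝ) : ℂ) * e'‖ < 1 := by
    rw [norm_mul, Complex.norm_real, Real.norm_eq_abs, abs_of_pos r0]
    exact hmul
  rw [T_log hre', mul_assoc, ← Complex.exp_add, ← Complex.exp_add]
  congr 1
  have hc0 : cM η (2 * 0) = 0 := by
    unfold cM
    simp
  have hval : ∀ m : ℕ, cM η (2 * ((m : ℤ) + 1))
      = r ^ (m + 1) / (((m : ℝ) + 1) * (1 + (r ^ (m + 1)) ^ 2)) := by
    intro m
    unfold cM
    rw [if_pos (even_two_mul _)]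
    have e1 : ((2 * ((m : ℤ) + 1) : ℤ) : ℝ) * η = 2 * ((m + 1) * η) := by
      push_cast
      ring
    rw [e1, sech_two_eq, ← hqd, ← hr]
    push_cast
    have h3 : (m : ℝ) + 1 ≠ 0 := by positivity
    have h4 : 1 + (r ^ (m + 1)) ^ 2 ≠ 0 := by positivity
    field_simp
  have hT1 : T (ca r) t = T (fun m => cM η (2 * ((m : ℤ) + 1))) e := by
    rw [htt, T_scale]
    congr 1
    funext m
    rw [hval, inv_pow]
    unfold ca
    have h4 : 1 + (r ^ (m + 1)) ^ 2 ≠ 0 := by positivity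
    have h5 : r ^ (m + 1) ≠ 0 := by positivity
    generalize r ^ (m + 1) = a at *
    field_simp
  have hT2 : T (ca r) t⁻¹ = T (fun m => ca r m * r ^ (m + 1)) e' := by
    rw [hti, T_scale]
  have hbd : Bd (fun m => ca r m * r ^ (m + 1)) r := by
    intro m
    have e1 := ca_nonneg r m
    have e2 := ca_le r m
    have e3 : (r ^ 2) ^ (m + 1) ≤ 1 := pow_le_one₀ (sq_nonneg r) (by nlinarith)
    have e4 : 0 ≤ r ^ (m + 1) := by positivity
    show |ca r m * r ^ (m + 1)| ≤ 2 * r ^ (m + 1)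
    rw [abs_of_nonneg (by positivity)]
    nlinarith
  have hlog : Cv (fun m => r ^ (m + 1) / ((m : ℝ) + 1)) e' := (log_bd r0.le).cv r0.le hmul
  have I2 : T (fun m => cM η (2 * (-((m : ℤ) + 1)))) e'
      = ((-1 : ℝ) : ℂ) * T (fun m => r ^ (m + 1) / ((m : ℝ) + 1)) e'
        + T (fun m => ca r m * r ^ (m + 1)) e' := by
    rw [← T_mul, T_add (hlog.mul (-1)) (hbd.cv r0.le hmul)]
    congr 1
    funext m
    have e1 : (2 * (-((m : ℤ) + 1)) : ℤ) = -(2 * ((m : ℤ) + 1)) := by ring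
    rw [e1, cM_neg, hval]
    unfold ca
    have h3 : (m : ℝ) + 1 ≠ 0 := by positivity
    have h4 : 1 + (r ^ (m + 1)) ^ 2 ≠ 0 := by positivity
    generalize r ^ (m + 1) = a at *
    field_simp
    ring
  unfold T2
  rw [hT1, hT2, I2, hc0]
  push_cast
  ring

/-- `- KK (exp (2 (η + u))) = S cW u` -/
theorem KK_shift : -KK (Real.exp (-η) ^ 2) (Complex.exp (2 * ((η : ℂ) + u))) = S (cW η) u := by
  have hq := q_pos hη
  have hq1 := q_lt hη
  obtain ⟨r0, r1⟩ := rq hq hq1
  have hti := exp_two_shift_inv hη u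
  have htt := exp_two_shift hη u
  rw [S_even_eq (fun k hk => by unfold cW; rw [if_neg hk]) u,
    S_eq_T (dec_double (dec_cW hη)) (s := 2 * u) (by
      have := abs_re_lt hη h0 h1
      simp only [Complex.mul_re, Complex.re_ofNat, Complex.im_ofNat, zero_mul, sub_zero]
      rw [abs_mul, abs_of_pos (show (0 : ℝ) < 2 by norm_num)]
      linarith)]
  set q := Real.exp (-η) with hqd
  set r := q ^ 2 with hr
  set t := Complex.exp (2 * ((η : ℂ) + u)) with ht
  set e := Complex.exp (2 * u) with he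
  set e' := Complex.exp (-(2 * u)) with he'
  have hc0 : cW η (2 * 0) = 0 := by
    unfold cW
    simp
  have hval : ∀ m : ℕ, cW η (2 * ((m : ℤ) + 1))
      = (r ^ (m + 1)) ^ 2 / (((m : ℝ) + 1) * (1 + r ^ (m + 1)) ^ 2 * (1 + (r ^ (m + 1)) ^ 2)) := by
    intro m
    unfold cW
    rw [if_pos (even_two_mul _)]
    have e1 : ((2 * ((m : ℤ) + 1) : ℤ) : ℝ) * η = 2 * ((m + 1) * η) := by
      push_cast
      ring
    have e2 : ((2 * ((m : ℤ) + 1) : ℤ) : ℝ) * (η / 2) = (m + 1) * η := by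
      push_cast
      ring
    rw [e1, e2, sech_two_eq, sech_sq_eq, ← hqd, ← hr]
    push_cast
    have h3 : (m : ℝ) + 1 ≠ 0 := by positivity
    have h4 : 1 + (r ^ (m + 1)) ^ 2 ≠ 0 := by positivity
    have h5 : 1 + r ^ (m + 1) ≠ 0 := by positivity
    generalize r ^ (m + 1) = a at *
    field_simp
    ring
  unfold KK
  rw [hti, htt, T_scale, T_scale, hc0]
  have I1 : (fun m => (r ^ (m + 1)) ^ 2 * ha r m * (r⁻¹) ^ (m + 1))
      = fun m : ℕ => cW η (2 * ((m : ℤ) + 1)) := by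
    funext m
    rw [hval, inv_pow]
    unfold ha
    have h3 : (m : ℝ) + 1 ≠ 0 := by positivity
    have h4 : 1 + (r ^ (m + 1)) ^ 2 ≠ 0 := by positivity
    have h5 : 1 + r ^ (m + 1) ≠ 0 := by positivity
    have h6 : r ^ (m + 1) ≠ 0 := by positivity
    generalize r ^ (m + 1) = a at *
    field_simp
  have I2 : T (fun m => cW η (2 * (-((m : ℤ) + 1)))) e'
      = ((-1 : ℝ) : ℂ) * T (fun m => ha r m * r ^ (m + 1)) e' := by
    rw [← T_mul]
    congr 1
    funext m
    have e1 : (2 * (-((m : ℤ) + 1)) : ℤ) = -(2 * ((m : ℤ) + 1)) := by ring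
    rw [e1, cW_neg, hval]
    unfold ha
    have h3 : (m : ℝ) + 1 ≠ 0 := by positivity
    have h4 : 1 + (r ^ (m + 1)) ^ 2 ≠ 0 := by positivity
    have h5 : 1 + r ^ (m + 1) ≠ 0 := by positivity
    generalize r ^ (m + 1) = a at *
    field_simp
  rw [I1, I2]
  push_cast
  ring

/-- THE MAIN BOUND OF BRANCH II. -/
theorem M2 (R : ℝ) (n : ℕ) (b : ℕ → ℝ)
    (hF : ∀ z : ℂ, ‖z‖ ≤ 1 → ‖Fp n b z‖ ≤ Real.exp (n * R) * Nb n b) :
    ‖Gp n b (Complex.exp (u + S (cM η) u))‖
      ≤ Nb n b * Real.exp (n * ((Real.log 2 - R - f0 (Real.exp (-(2 * η)))) / η * u.re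
          + (S (cW η) u).re)) := by
  have hq := q_pos hη
  have hq1 := q_lt hη
  obtain ⟨r0, r1⟩ := rq hq hq1
  rw [r_eq hη]
  have heta := eta_eq hη
  have hz := zz_shift hη h0 h1
  have hK := KK_shift hη h0 h1
  set r := Real.exp (-η) ^ 2 with hr
  have hNb := LPLOW.Nb_nonneg n b
  have hs0 : 0 ≤ ((η : ℂ) + u).re := by
    rw [Complex.add_re, Complex.ofReal_re]
    linarith
  have hs1 : ((η : ℂ) + u).re ≤ eta r := by
    rw [Complex.add_re, Complex.ofReal_re, heta]
    linarith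
  have h3 := three_lines r0 r1 (Real.log 2 - R) (Gp_differentiable n b)
    (N := Nb n b * Real.exp (n * (R - Real.log 2))) n
    (fun z hz => by
      rw [mul_assoc, ← Real.exp_add]
      have : (n : ℝ) * (R - Real.log 2) + n * (Real.log 2 - R) = 0 := by ring
      rw [this, Real.exp_zero, mul_one]
      exact LPLOW.norm_Gp_le n b hz.le)
    (fun y => by
      have e1 : (1 : ℂ) + (y : ℂ) * Complex.I ≠ 0 := by
        intro h
        have := congrArg Complex.re h
        simp at this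
      have e2 := LPLOW.Gp_eq n b e1
      have e3 := congrArg norm e2
      have n1 : ‖(1 : ℂ) - (y : ℂ) * Complex.I‖ = √(1 + y ^ 2) := by
        rw [Complex.norm_eq_sqrt_sq_add_sq]
        congr 1
        simp
      have n2 : ‖(1 : ℂ) + (y : ℂ) * Complex.I‖ = √(1 + y ^ 2) := by
        rw [Complex.norm_eq_sqrt_sq_add_sq]
        congr 1
        simp
      have hpos : 0 < √(1 + y ^ 2) := Real.sqrt_pos.2 (by positivity)
      have e4 : ‖(1 - (y : ℂ) * Complex.I) / (1 + (y : ℂ) * Complex.I)‖ ≤ 1 := by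
        rw [norm_div, n1, n2, div_self hpos.ne']
      have e5 := hF _ e4
      rw [norm_mul, norm_mul, norm_pow, norm_pow, n2, Complex.norm_ofNat] at e3
      have e6 : (2 : ℝ) ^ n * ‖Gp n b ((y : ℂ) * Complex.I)‖
          ≤ √(1 + y ^ 2) ^ n * (Real.exp (n * R) * Nb n b) := by
        rw [e3]
        exact mul_le_mul_of_nonneg_left e5 (by positivity)
      have e7 : Real.exp (n * (R - Real.log 2)) = Real.exp (n * R) / 2 ^ n := by
        rw [mul_sub, Real.exp_sub]
        congr 1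
        rw [Real.exp_nat_mul, Real.exp_log (by norm_num)]
      rw [e7]
      have e8 : (0 : ℝ) < 2 ^ n := by positivity
      have e9 : Nb n b * (Real.exp (n * R) / 2 ^ n) * √(1 + y ^ 2) ^ n
          = (√(1 + y ^ 2) ^ n * (Real.exp (n * R) * Nb n b)) / 2 ^ n := by
        ring
      rw [e9, le_div_iff₀ e8, mul_comm]
      exact e6) hs0 hs1
  rw [hz] at h3
  refine h3.trans (le_of_eq ?_)
  rw [mul_assoc, ← Real.exp_add, GG_re, heta]
  congr 2
  have e1 : (S (cW η) u).re = -(KK r (Complex.exp (2 * ((η : ℂ) + u)))).re := by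
    rw [← hK, Complex.neg_re]
  rw [e1, Complex.add_re, Complex.ofReal_re]
  have hη0 := hη.ne'
  field_simp
  ring

end

end Pool.Agent.Lib.MP_0430e4_lc.Lower
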