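import Pool.Agent.Lib.MP_0430e4_lc.Lower.Ident2

/-!
# Functions that are real on both boundary circles of an annulus are constant
-/

set_option autoImplicit false
set_option linter.unusedSectionVars false

namespace Pool.Agent.Lib.MP_0430e4_lc.Lower

open Filter Topology Set

theorem annulus_const {U : Set ℂ} (hU : IsOpen U) {R : ℝ} (hR : 1 < R) {f : ℂ → ℂ}
    (hf : DifferentiableOn ℂ f U) (hsub : ∀ v : ℂ, 1 ≤ ‖v‖ → ‖v‖ ≤ R → v ∈ U)
    (h1 : ∀ v : ℂ, ‖v‖ = 1 → (f v).im = 0) (h2 : ∀ v : ℂ, ‖v‖ = R → (f v).im = 0) :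
    ∃ w : ℂ, ∀ v : ℂ, 1 ≤ ‖v‖ → ‖v‖ ≤ R → f v = w := by
  set V : Set ℂ := {t : ℂ | 1 < ‖t‖ ∧ ‖t‖ < R} with hV
  have hVo : IsOpen V := by
    apply IsOpen.inter
    · exact isOpen_lt continuous_const continuous_norm
    · exact isOpen_lt continuous_norm continuous_const
  have hVc : closure V ⊆ {t : ℂ | 1 ≤ ‖t‖ ∧ ‖t‖ ≤ R} := by
    apply closure_minimal
    · intro t ht
      exact ⟨ht.1.le, ht.2.le⟩
    · apply IsClosed.inter
      · exact isClosed_le continuous_const continuous_norm
      · exact isClosed_le continuous_norm continuous_const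
  have hVf : ∀ t ∈ frontier V, ‖t‖ = 1 ∨ ‖t‖ = R := by
    intro t ht
    rw [hVo.frontier_eq] at ht
    obtain ⟨e1, e2⟩ := hVc ht.1
    by_contra hcon
    push Not at hcon
    exact ht.2 ⟨lt_of_le_of_ne e1 (Ne.symm hcon.1), lt_of_le_of_ne e2 hcon.2⟩
  have hVb : Bornology.IsBounded V := by
    apply (Metric.isBounded_ball (x := (0 : ℂ)) (r := R)).subset
    intro t ht
    rw [mem_ball_zero_iff]
    exact ht.2
  have hsubV : closure V ⊆ U := fun t ht => hsub t (hVc ht).1 (hVc ht).2
  have him : ∀ ε : ℝ, ∀ t ∈ closure V, -(ε * (f t).im) ≤ 0 := by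
    intro ε t ht
    have hd : DiffContOnCl ℂ (fun t => Complex.exp ((ε : ℂ) * Complex.I * f t)) V := by
      apply DifferentiableOn.diffContOnCl
      exact ((differentiableOn_const _).mul (hf.mono hsubV)).cexp
    have hn : ∀ w : ℂ, ‖Complex.exp ((ε : ℂ) * Complex.I * f w)‖
        = Real.exp (-(ε * (f w).im)) := by
      intro w
      rw [Complex.norm_exp]
      congr 1
      simp [Complex.mul_re, Complex.mul_im]
    have h := Complex.norm_le_of_forall_mem_frontier_norm_le hVb hd (C := 1) (by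
      intro w hw
      rw [hn]
      have : (f w).im = 0 := by
        rcases hVf w hw with h | h
        · exact h1 w h
        · exact h2 w h
      rw [this]
      simp) ht
    rw [hn] at h
    exact Real.exp_le_one_iff.1 h
  have him0 : ∀ t ∈ V, (f t).im = 0 := by
    intro t ht
    have e1 := him 1 t (subset_closure ht)
    have e2 := him (-1) t (subset_closure ht)
    linarith
  have hpre : IsPreconnected V := by
    have h : V = (fun σ : ℂ => Complex.exp σ) '' (Complex.re ⁻¹' Ioo 0 (Real.log R)) := by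
      ext t
      constructor
      · intro ht
        have h0 : t ≠ 0 := by
          intro h
          have := ht.1
          rw [h, norm_zero] at this
          linarith
        refine ⟨Complex.log t, ⟨?_, ?_⟩, Complex.exp_log h0⟩
        · rw [Complex.log_re]
          exact Real.log_pos ht.1
        · rw [Complex.log_re]
          exact Real.log_lt_log (norm_pos_iff.2 h0) ht.2
      · rintro ⟨σ, ⟨h1, h2⟩, rfl⟩
        refine ⟨?_, ?_⟩
        · show 1 < ‖Complex.exp σ‖
          rw [Complex.norm_exp]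
          exact Real.one_lt_exp_iff.2 h1
        · show ‖Complex.exp σ‖ < R
          rw [Complex.norm_exp]
          calc Real.exp σ.re < Real.exp (Real.log R) := Real.exp_lt_exp.2 h2
            _ = R := Real.exp_log (by linarith)
    rw [h]
    apply IsPreconnected.image
    · apply Convex.isPreconnected
      exact (convex_Ioo _ _).linear_preimage Complex.reLm
    · exact Complex.continuous_exp.continuousOn
  have han : AnalyticOnNhd ℂ f V :=
    (hf.mono (subset_closure.trans hsubV)).analyticOnNhd hVo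
  have hconst : ∃ w, ∀ t ∈ V, f t = w := by
    rcases han.is_constant_or_isOpen hpre with h | h
    · exact h
    · exfalso
      have e1 := h V subset_rfl hVo
      have e2 : (f '' V).Nonempty := by
        apply Set.Nonempty.image
        obtain ⟨x, hx1, hx2⟩ := exists_between hR
        refine ⟨(x : ℂ), ?_, ?_⟩
        · show 1 < ‖(x : ℂ)‖
          rw [Complex.norm_real, Real.norm_eq_abs, abs_of_pos (by linarith)]
          exact hx1
        · show ‖(x : ℂ)‖ < R
          rw [Complex.norm_real, Real.norm_eq_abs, abs_of_pos (by linarith)]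
          exact hx2
      obtain ⟨w, hw⟩ := e2
      rw [Metric.isOpen_iff] at e1
      obtain ⟨ε, hε, hball⟩ := e1 w hw
      have h4 : ∀ v ∈ f '' V, v.im = 0 := by
        rintro v ⟨t, ht, rfl⟩
        exact him0 t ht
      have h5 : w + (ε / 2 : ℝ) * Complex.I ∈ Metric.ball w ε := by
        rw [Metric.mem_ball, dist_eq_norm, add_sub_cancel_left, norm_mul, Complex.norm_real,
          Complex.norm_I, mul_one, Real.norm_eq_abs, abs_of_pos (by positivity)]
        linarith
      have h6 := h4 _ (hball h5)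
      have h7 := h4 w hw
      simp at h6
      rw [h7] at h6
      linarith
  obtain ⟨w, hw⟩ := hconst
  refine ⟨w, ?_⟩
  -- every point of the closed annulus is a radial limit
  intro v hv1 hv2
  have hv0 : 0 < ‖v‖ := by linarith
  have hmem : v ∈ U := hsub v hv1 hv2
  have hc : ContinuousAt f v := (hf.differentiableAt (hU.mem_nhds hmem)).continuousAt
  obtain ⟨ρ, hρ1, hρ2⟩ := exists_between hR
  -- the path `x ↦ (1 - x) v + x (ρ / ‖v‖) v`
  have hline : ContinuousAt (fun x : ℝ => (((1 - x) + x * (ρ / ‖v‖) : ℝ) : ℂ) * v) 0 := by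
    fun_prop
  have e1 : Tendsto (fun x : ℝ => f ((((1 - x) + x * (ρ / ‖v‖) : ℝ) : ℂ) * v)) (𝓝[>] 0) (𝓝 (f v)) := by
    have h2 : ContinuousAt (fun x : ℝ => f ((((1 - x) + x * (ρ / ‖v‖) : ℝ) : ℂ) * v)) 0 := by
      apply ContinuousAt.comp (f := fun x : ℝ => (((1 - x) + x * (ρ / ‖v‖) : ℝ) : ℂ) * v) (g := f) _ hline
      simpa using hc
    have h3 := h2.tendsto
    simp only [sub_zero, zero_mul, add_zero, Complex.ofReal_one, one_mul] at h3
    exact h3.mono_left nhdsWithin_le_nhds
  apply tendsto_nhds_unique e1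
  have h4 : Ioo (0 : ℝ) 1 ∈ 𝓝[>] (0 : ℝ) := Ioo_mem_nhdsGT one_pos
  apply tendsto_const_nhds.congr'
  filter_upwards [h4] with x hx
  apply (hw _ _).symm
  have hpos : 0 < (1 - x) + x * (ρ / ‖v‖) := by
    have : 0 < x * (ρ / ‖v‖) := mul_pos hx.1 (div_pos (by linarith) hv0)
    linarith [hx.2]
  have h5 : ‖(((1 - x) + x * (ρ / ‖v‖) : ℝ) : ℂ) * v‖ = (1 - x) * ‖v‖ + x * ρ := by
    rw [norm_mul, Complex.norm_real, Real.norm_eq_abs, abs_of_pos hpos]
    field_simp
  refine ⟨?_, ?_⟩
  · rw [h5]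
    nlinarith [hx.1, hx.2]
  · rw [h5]
    nlinarith [hx.1, hx.2]

variable {r : ℝ}

theorem rho_closed (hr : 0 < r) (hr1 : r < 1) {t : ℂ} (h1 : 1 ≤ ‖t‖) (h2 : ‖t‖ ≤ 1 / r) :
    rho r t = 1 := by
  have hR : 1 < 1 / r := by
    rw [lt_div_iff₀ hr]
    linarith
  obtain ⟨w, hw⟩ := annulus_const (Ua_open r) hR (rho_diff hr hr1)
    (fun v e1 e2 => closed_sub hr hr1 e1 e2)
    (fun v e => im_zero_of_conj (rho_real_one hr hr1 e))
    (fun v e => im_zero_of_conj (rho_real_outer hr hr1 e))
  rw [hw t h1 h2, ← rho_at_one hr hr1, hw 1 (by simp) (by rw [norm_one]; exact hR.le)]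

/-- The product identity on the closed annulus. -/
theorem one_sub_Z2_closed (hr : 0 < r) (hr1 : r < 1) {t : ℂ} (h1 : 1 ≤ ‖t‖) (h2 : ‖t‖ ≤ 1 / r) :
    1 - Z2 r t = (1 - (r : ℂ) * t) * (1 - (r : ℂ) * t⁻¹) *
      Complex.exp (2 * (f0 r : ℂ) + T2 (ga r) t) := by
  have hr0 : (r : ℂ) ≠ 0 := by exact_mod_cast hr.ne'
  by_cases hne : t = ((1 / r : ℝ) : ℂ)
  · rw [hne, Z2_point hr hr1]
    have : (1 : ℂ) - (r : ℂ) * ((1 / r : ℝ) : ℂ) = 0 := by
      push_cast
      field_simp
      ring
    rw [this]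
    ring
  · have h3 := rho_closed hr hr1 h1 h2
    have hmem := closed_sub hr hr1 h1 h2
    have n1 : (1 : ℂ) - (r : ℂ) * t⁻¹ ≠ 0 := one_sub_ne hr hmem
    have n2 : (1 : ℂ) - (r : ℂ) * t ≠ 0 := by
      intro h
      apply hne
      push_cast
      rw [eq_div_iff hr0]
      linear_combination -h
    rw [rho_eq hr hr1 hne, Complex.exp_neg] at h3
    have n3 := Complex.exp_ne_zero (2 * (f0 r : ℂ) + T2 (ga r) t)
    have h4 := (mul_inv_eq_one₀ n3).1 h3
    rw [div_eq_iff (mul_ne_zero n2 n1)] at h4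
    rw [h4]
    ring

end Pool.Agent.Lib.MP_0430e4_lc.Lower
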