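import Pool.Agent.Lib.MP_0430e4_lc.Lower.Series

/-!
# The coefficient sequences
-/

set_option autoImplicit false

namespace Pool.Agent.Lib.MP_0430e4_lc.Lower

open Filter Topology Set

variable {r : ℝ}

noncomputable def ca (r : ℝ) (m : ℕ) : ℝ := (r ^ (m + 1)) ^ 2 / ((m + 1) * (1 + (r ^ (m + 1)) ^ 2))

noncomputable def fa (r : ℝ) (m : ℕ) : ℝ :=
  (r ^ (m + 1) / (1 + r ^ (m + 1)) - (r ^ (m + 1)) ^ 2 / (1 + (r ^ (m + 1)) ^ 2)) / (m + 1)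

noncomputable def ga (r : ℝ) (m : ℕ) : ℝ := r ^ (m + 1) / (m + 1) - fa r m

noncomputable def ha (r : ℝ) (m : ℕ) : ℝ :=
  r ^ (m + 1) / ((m + 1) * (1 + r ^ (m + 1)) ^ 2 * (1 + (r ^ (m + 1)) ^ 2))

theorem one_le_cast (m : ℕ) : (1 : ℝ) ≤ (m : ℝ) + 1 := by
  have : (0 : ℝ) ≤ m := Nat.cast_nonneg m
  linarith

theorem ca_nonneg (r : ℝ) (m : ℕ) : 0 ≤ ca r m := by
  unfold ca
  positivity

theorem ca_le (r : ℝ) (m : ℕ) : ca r m ≤ (r ^ 2) ^ (m + 1) := by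
  unfold ca
  have h1 := one_le_cast m
  have e : (r ^ 2) ^ (m + 1) = (r ^ (m + 1)) ^ 2 := by ring
  rw [e]
  have h2 : 0 ≤ (r ^ (m + 1)) ^ 2 := sq_nonneg _
  rw [div_le_iff₀ (by positivity)]
  have h3 : 1 ≤ ((m : ℝ) + 1) * (1 + (r ^ (m + 1)) ^ 2) := by nlinarith
  nlinarith

theorem ca_bd (r : ℝ) : Bd (ca r) (r ^ 2) := by
  intro m
  rw [abs_of_nonneg (ca_nonneg r m)]
  have := ca_le r m
  have h : 0 ≤ (r ^ 2) ^ (m + 1) := by positivity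
  linarith

theorem ha_nonneg (hr : 0 ≤ r) (m : ℕ) : 0 ≤ ha r m := by
  unfold ha
  positivity

theorem ha_le (hr : 0 ≤ r) (m : ℕ) : ha r m ≤ r ^ (m + 1) := by
  unfold ha
  have h1 := one_le_cast m
  have ha0 : 0 ≤ r ^ (m + 1) := by positivity
  rw [div_le_iff₀ (by positivity)]
  have h3 : 1 ≤ (1 + r ^ (m + 1)) ^ 2 := by nlinarith
  have h4 : 1 ≤ (1 + (r ^ (m + 1)) ^ 2) := by nlinarith
  have h5 : 1 ≤ ((m : ℝ) + 1) * (1 + r ^ (m + 1)) ^ 2 * (1 + (r ^ (m + 1)) ^ 2) := by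
    have := one_le_mul_of_one_le_of_one_le (one_le_mul_of_one_le_of_one_le h1 h3) h4
    exact this
  nlinarith

theorem ha_bd (hr : 0 ≤ r) : Bd (ha r) r := by
  intro m
  rw [abs_of_nonneg (ha_nonneg hr m)]
  have := ha_le hr m
  have h : 0 ≤ r ^ (m + 1) := by positivity
  linarith

theorem fa_eq (hr : 0 ≤ r) (m : ℕ) : fa r m =
    r ^ (m + 1) * (1 - r ^ (m + 1)) / ((m + 1) * (1 + r ^ (m + 1)) * (1 + (r ^ (m + 1)) ^ 2)) := by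
  unfold fa
  have ha0 : 0 ≤ r ^ (m + 1) := by positivity
  have h1 : (1 : ℝ) + r ^ (m + 1) ≠ 0 := by positivity
  have h2 : (1 : ℝ) + (r ^ (m + 1)) ^ 2 ≠ 0 := by positivity
  have h3 : (m : ℝ) + 1 ≠ 0 := by positivity
  field_simp
  ring

theorem fa_nonneg (hr : 0 ≤ r) (hr1 : r ≤ 1) (m : ℕ) : 0 ≤ fa r m := by
  rw [fa_eq hr]
  have ha0 : 0 ≤ r ^ (m + 1) := by positivity
  have ha1 : r ^ (m + 1) ≤ 1 := pow_le_one₀ hr hr1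
  have : 0 ≤ 1 - r ^ (m + 1) := by linarith
  positivity

theorem fa_le (hr : 0 ≤ r) (hr1 : r ≤ 1) (m : ℕ) : fa r m ≤ r ^ (m + 1) := by
  rw [fa_eq hr]
  have h1 := one_le_cast m
  have ha0 : 0 ≤ r ^ (m + 1) := by positivity
  have ha1 : r ^ (m + 1) ≤ 1 := pow_le_one₀ hr hr1
  rw [div_le_iff₀ (by positivity)]
  have h3 : 1 ≤ (1 + r ^ (m + 1)) := by linarith
  have h4 : 1 ≤ (1 + (r ^ (m + 1)) ^ 2) := by nlinarith
  have h5 : 1 ≤ ((m : ℝ) + 1) * (1 + r ^ (m + 1)) * (1 + (r ^ (m + 1)) ^ 2) :=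
    one_le_mul_of_one_le_of_one_le (one_le_mul_of_one_le_of_one_le h1 h3) h4
  nlinarith

theorem fa_bd (hr : 0 ≤ r) (hr1 : r ≤ 1) : Bd (fa r) r := by
  intro m
  rw [abs_of_nonneg (fa_nonneg hr hr1 m)]
  have := fa_le hr hr1 m
  have h : 0 ≤ r ^ (m + 1) := by positivity
  linarith

theorem ga_eq (hr : 0 ≤ r) (m : ℕ) : ga r m =
    (r ^ (m + 1)) ^ 2 * (2 + r ^ (m + 1) + (r ^ (m + 1)) ^ 2) /
      ((m + 1) * (1 + r ^ (m + 1)) * (1 + (r ^ (m + 1)) ^ 2)) := by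
  unfold ga
  rw [fa_eq hr]
  have ha0 : 0 ≤ r ^ (m + 1) := by positivity
  have h1 : (1 : ℝ) + r ^ (m + 1) ≠ 0 := by positivity
  have h2 : (1 : ℝ) + (r ^ (m + 1)) ^ 2 ≠ 0 := by positivity
  have h3 : (m : ℝ) + 1 ≠ 0 := by positivity
  field_simp
  ring

theorem ga_bd (hr : 0 ≤ r) : Bd (ga r) (r ^ 2) := by
  intro m
  rw [ga_eq hr]
  have h1 := one_le_cast m
  have ha0 : 0 ≤ r ^ (m + 1) := by positivity
  have e : (r ^ 2) ^ (m + 1) = (r ^ (m + 1)) ^ 2 := by ring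
  rw [e, abs_of_nonneg (by positivity), div_le_iff₀ (by positivity)]
  set a := r ^ (m + 1) with ha
  have h5 : 2 + a + a ^ 2 ≤ 2 * ((1 + a) * (1 + a ^ 2)) := by nlinarith [pow_nonneg ha0 3, pow_nonneg ha0 2]
  have h6 : (1 + a) * (1 + a ^ 2) ≤ ((m : ℝ) + 1) * ((1 + a) * (1 + a ^ 2)) := by
    have : 0 ≤ (1 + a) * (1 + a ^ 2) := by positivity
    nlinarith
  have h7 : 2 + a + a ^ 2 ≤ 2 * (((m : ℝ) + 1) * (1 + a) * (1 + a ^ 2)) := by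
    nlinarith
  calc a ^ 2 * (2 + a + a ^ 2) ≤ a ^ 2 * (2 * (((m : ℝ) + 1) * (1 + a) * (1 + a ^ 2))) :=
        mul_le_mul_of_nonneg_left h7 (sq_nonneg _)
    _ = 2 * a ^ 2 * (((m : ℝ) + 1) * (1 + a) * (1 + a ^ 2)) := by ring

theorem log_bd {x : ℝ} (hx : 0 ≤ x) : Bd (fun m => x ^ (m + 1) / (m + 1)) x := by
  intro m
  have h1 := one_le_cast m
  have h : 0 ≤ x ^ (m + 1) := by positivity
  have h2 : x ^ (m + 1) / (m + 1) ≤ x ^ (m + 1) := div_le_self h h1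
  show |x ^ (m + 1) / ((m : ℝ) + 1)| ≤ 2 * x ^ (m + 1)
  rw [abs_of_nonneg (by positivity)]
  linarith

end Pool.Agent.Lib.MP_0430e4_lc.Lower
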