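import Pool.Agent.Lib.MP_0430e4_lc.LPLOW.CoefI

/-!
# The constant of the first branch in the form used by the second branch
-/

set_option autoImplicit false

namespace Pool.Agent.Lib.MP_0430e4_lc.Lower

theorem cval_eq_f0 {t : ℝ} (ht : 0 < t) : Exact.cval t = f0 (Real.exp (-t))
    + t / 2 * ((1 - (LPLOW.S (LPLOW.cS (t / 2)) (Complex.I * (Real.pi / 2))).re) / 4) := by
  rw [LPLOW.Pos.SS_pi, Complex.ofReal_re, LPLOW.cval_eq_f0 ht]
  have h0 : -(2 * (t / 2)) = -t := by ring
  rw [h0]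

end Pool.Agent.Lib.MP_0430e4_lc.Lower
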