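import Pool.Agent.Lib.MP_0430e4_lc.Lower.Zmap

/-!
# The product identity for `1 - z ^ 2`
-/

set_option autoImplicit false
set_option linter.unusedSectionVars false

namespace Pool.Agent.Lib.MP_0430e4_lc.Lower

open Filter Topology Set

variable {r : ℝ}

/-- the open annulus on which everything is analytic -/
def Ua (r : ℝ) : Set ℂ := {t : ℂ | r < ‖t‖ ∧ r ^ 2 * ‖t‖ < 1}

theorem Ua_open (r : ℝ) : IsOpen (Ua r) := by
  apply IsOpen.inter
  · exact isOpen_lt continuous_const continuous_norm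
  · exact isOpen_lt (continuous_const.mul continuous_norm) continuous_const

/-- the value at the centre -/
noncomputable def f0 (r : ℝ) : ℝ := ∑' m, fa r m

theorem ne_zero_of_Ua (hr : 0 < r) {t : ℂ} (ht : t ∈ Ua r) : t ≠ 0 := by
  intro h
  have := ht.1
  rw [h, norm_zero] at this
  linarith

theorem inv_mem (hr : 0 < r) {t : ℂ} (ht : t ∈ Ua r) : r ^ 2 * ‖t⁻¹‖ < r := by
  rw [norm_inv]
  have h1 := ht.1
  have h2 : 0 < ‖t‖ := hr.trans h1
  rw [← div_eq_mul_inv, div_lt_iff₀ h2]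
  nlinarith

theorem T2_diff {p : ℕ → ℝ} (hr : 0 < r) (hr1 : r < 1) (hp : Bd p (r ^ 2)) {t : ℂ}
    (ht : t ∈ Ua r) : DifferentiableAt ℂ (T2 p) t := by
  have h1 : DifferentiableAt ℂ (T p) t := T_differentiableAt (by positivity) hp ht.2
  have h2 : DifferentiableAt ℂ (T p) t⁻¹ :=
    T_differentiableAt (by positivity) hp ((inv_mem hr ht).trans hr1)
  have h3 : DifferentiableAt ℂ (fun t : ℂ => t⁻¹) t := differentiableAt_inv (ne_zero_of_Ua hr ht)
  exact h1.add (h2.comp t h3)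

theorem Z2_diff (hr : 0 < r) (hr1 : r < 1) : DifferentiableOn ℂ (Z2 r) (Ua r) := by
  intro t ht
  apply DifferentiableAt.differentiableWithinAt
  have h3 : DifferentiableAt ℂ (fun t : ℂ => t⁻¹) t := differentiableAt_inv (ne_zero_of_Ua hr ht)
  have h4 := T2_diff hr hr1 (ca_bd r) ht
  unfold Z2
  fun_prop

/-- the quotient which will be shown to be `1` -/
noncomputable def rho (r : ℝ) (t : ℂ) : ℂ :=
  -(r : ℂ)⁻¹ * dslope (fun t => 1 - Z2 r t) ((1 / r : ℝ) : ℂ) t / (1 - (r : ℂ) * t⁻¹) *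
    Complex.exp (-(2 * (f0 r : ℂ) + T2 (ga r) t))

theorem one_sub_ne (hr : 0 < r) {t : ℂ} (ht : t ∈ Ua r) : (1 : ℂ) - (r : ℂ) * t⁻¹ ≠ 0 := by
  intro h
  have h1 : ‖(r : ℂ) * t⁻¹‖ = 1 := by
    have : (r : ℂ) * t⁻¹ = 1 := by linear_combination -h
    rw [this, norm_one]
  rw [norm_mul, Complex.norm_real, Real.norm_eq_abs, abs_of_pos hr, norm_inv,
    ← div_eq_mul_inv, div_eq_one_iff_eq (hr.trans ht.1).ne'] at h1
  exact absurd ht.1 (by rw [← h1]; exact lt_irrefl _)

theorem point_mem (hr : 0 < r) (hr1 : r < 1) : ((1 / r : ℝ) : ℂ) ∈ Ua r := by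
  have h : ‖((1 / r : ℝ) : ℂ)‖ = 1 / r := by
    rw [Complex.norm_real, Real.norm_eq_abs, abs_of_pos (by positivity)]
  refine ⟨?_, ?_⟩
  · show r < ‖((1 / r : ℝ) : ℂ)‖
    rw [h, lt_div_iff₀ hr]
    nlinarith
  · show r ^ 2 * ‖((1 / r : ℝ) : ℂ)‖ < 1
    rw [h]
    have : r ^ 2 * (1 / r) = r := by field_simp
    rw [this]
    exact hr1

theorem rho_diff (hr : 0 < r) (hr1 : r < 1) : DifferentiableOn ℂ (rho r) (Ua r) := by
  have h1 : DifferentiableOn ℂ (dslope (fun t => 1 - Z2 r t) ((1 / r : ℝ) : ℂ)) (Ua r) := by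
    rw [Complex.differentiableOn_dslope ((Ua_open r).mem_nhds (point_mem hr hr1))]
    exact (differentiableOn_const _).sub (Z2_diff hr hr1)
  intro t ht
  have h2 : DifferentiableAt ℂ (dslope (fun t => 1 - Z2 r t) ((1 / r : ℝ) : ℂ)) t :=
    h1.differentiableAt ((Ua_open r).mem_nhds ht)
  have h3 : DifferentiableAt ℂ (fun t : ℂ => t⁻¹) t := differentiableAt_inv (ne_zero_of_Ua hr ht)
  have h4 := T2_diff hr hr1 (ga_bd hr.le) ht
  apply DifferentiableAt.differentiableWithinAt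
  unfold rho
  apply DifferentiableAt.mul
  · apply DifferentiableAt.div
    · exact (differentiableAt_const _).mul h2
    · exact (differentiableAt_const _).sub ((differentiableAt_const _).mul h3)
    · exact one_sub_ne hr ht
  · fun_prop

theorem T2_ofReal (p : ℕ → ℝ) (x : ℝ) : ∃ y : ℝ, T2 p (x : ℂ) = (y : ℂ) := by
  refine ⟨(∑' m, p m * x ^ (m + 1)) + (∑' m, p m * (x⁻¹) ^ (m + 1)), ?_⟩
  unfold T2
  rw [← Complex.ofReal_inv, T_ofReal, T_ofReal]
  push_cast
  rfl

/-- `Z2` is `1` at `1 / r`. -/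
theorem Z2_point (hr : 0 < r) (hr1 : r < 1) : Z2 r ((1 / r : ℝ) : ℂ) = 1 := by
  obtain ⟨y, hy⟩ := T2_ofReal (ca r) (1 / r)
  have hn := Z2_norm hr hr1 (t := ((1 / r : ℝ) : ℂ)) (by
    rw [Complex.norm_real, Real.norm_eq_abs, abs_of_pos (by positivity)])
  have h1 : Z2 r ((1 / r : ℝ) : ℂ)
      = ((r * (1 / r - 2 + (1 / r)⁻¹) * Real.exp (2 * y) : ℝ) : ℂ) := by
    unfold Z2
    rw [hy]
    push_cast
    rfl
  have hpos : 0 < r * (1 / r - 2 + (1 / r)⁻¹) * Real.exp (2 * y) := by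
    apply mul_pos _ (Real.exp_pos _)
    have : r * (1 / r - 2 + (1 / r)⁻¹) = (1 - r) ^ 2 := by
      field_simp
      ring
    rw [this]
    have : 0 < 1 - r := by linarith
    positivity
  rw [h1] at hn ⊢
  rw [Complex.norm_real, Real.norm_eq_abs, abs_of_pos hpos] at hn
  rw [hn]
  simp

theorem rho_eq (hr : 0 < r) (hr1 : r < 1) {t : ℂ} (ht : t ≠ ((1 / r : ℝ) : ℂ)) :
    rho r t = (1 - Z2 r t) / ((1 - (r : ℂ) * t) * (1 - (r : ℂ) * t⁻¹)) *
      Complex.exp (-(2 * (f0 r : ℂ) + T2 (ga r) t)) := by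
  have hr0 : (r : ℂ) ≠ 0 := by exact_mod_cast hr.ne'
  unfold rho
  rw [dslope_of_ne _ ht, slope_def_field]
  simp only [Z2_point hr hr1]
  have h1 : t - ((1 / r : ℝ) : ℂ) ≠ 0 := sub_ne_zero.2 ht
  have h2 : (1 : ℂ) - (r : ℂ) * t = -(r : ℂ) * (t - ((1 / r : ℝ) : ℂ)) := by
    push_cast
    field_simp
    ring
  rw [h2]
  congr 1
  have h3 : -(r : ℂ) ≠ 0 := neg_ne_zero.2 hr0
  have h4 : -(r : ℂ)⁻¹ * ((1 - Z2 r t - (1 - 1)) / (t - ((1 / r : ℝ) : ℂ)))
      = (1 - Z2 r t) / (-(r : ℂ) * (t - ((1 / r : ℝ) : ℂ))) := by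
    rw [sub_self, sub_zero]
    generalize t - ((1 / r : ℝ) : ℂ) = w at *
    field_simp
  rw [h4, div_div]

/-- reality on the unit circle -/
theorem rho_real_one (hr : 0 < r) (hr1 : r < 1) {t : ℂ} (ht : ‖t‖ = 1) :
    (starRingEnd ℂ) (rho r t) = rho r t := by
  have hne : t ≠ ((1 / r : ℝ) : ℂ) := by
    intro h
    rw [h, Complex.norm_real, Real.norm_eq_abs, abs_of_pos (by positivity)] at ht
    rw [div_eq_one_iff_eq hr.ne'] at ht
    linarith
  have hc : (starRingEnd ℂ) t = t⁻¹ := (Complex.inv_eq_conj ht).symm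
  have hc' : (starRingEnd ℂ) t⁻¹ = t := by rw [map_inv₀, hc, inv_inv]
  have hZ : (starRingEnd ℂ) (Z2 r t) = Z2 r t := by
    unfold Z2
    simp only [map_mul, map_add, map_sub, Complex.conj_ofReal, Complex.conj_ofNat]
    rw [← Complex.exp_conj]
    simp only [map_mul, Complex.conj_ofNat]
    rw [T2_real ht, hc, hc']
    ring
  rw [rho_eq hr hr1 hne]
  simp only [map_mul, map_div₀, map_sub, map_one, Complex.conj_ofReal]
  rw [← Complex.exp_conj]
  simp only [map_neg, map_add, map_mul, Complex.conj_ofReal, Complex.conj_ofNat]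
  rw [hZ, T2_real ht, hc, hc', mul_comm (1 - (r : ℂ) * t⁻¹)]

theorem Z2_conj (r : ℝ) (t : ℂ) : (starRingEnd ℂ) (Z2 r t) = Z2 r ((starRingEnd ℂ) t) := by
  unfold Z2
  simp only [map_mul, map_add, map_sub, Complex.conj_ofReal, Complex.conj_ofNat, map_inv₀]
  rw [← Complex.exp_conj]
  simp only [map_mul, Complex.conj_ofNat]
  rw [T2_conj]

theorem rho_real_real (hr : 0 < r) (hr1 : r < 1) {x : ℝ} (hx : x ≠ 1 / r) :
    (starRingEnd ℂ) (rho r (x : ℂ)) = rho r (x : ℂ) := by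
  have hne : (x : ℂ) ≠ ((1 / r : ℝ) : ℂ) := by
    intro h
    exact hx (by exact_mod_cast h)
  rw [rho_eq hr hr1 hne]
  simp only [map_mul, map_div₀, map_sub, map_one, Complex.conj_ofReal]
  rw [← Complex.exp_conj]
  simp only [map_neg, map_add, map_mul, Complex.conj_ofReal, Complex.conj_ofNat]
  rw [Z2_conj, T2_conj, map_inv₀, Complex.conj_ofReal]

theorem rho_real_point (hr : 0 < r) (hr1 : r < 1) :
    (starRingEnd ℂ) (rho r ((1 / r : ℝ) : ℂ)) = rho r ((1 / r : ℝ) : ℂ) := by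
  have hc : ContinuousAt (rho r) ((1 / r : ℝ) : ℂ) :=
    ((rho_diff hr hr1).differentiableAt ((Ua_open r).mem_nhds (point_mem hr hr1))).continuousAt
  have h1 : Tendsto (fun x : ℝ => rho r (x : ℂ)) (𝓝[≠] (1 / r)) (𝓝 (rho r ((1 / r : ℝ) : ℂ))) := by
    have h2 : ContinuousAt (fun x : ℝ => rho r (x : ℂ)) (1 / r) :=
      ContinuousAt.comp (f := fun x : ℝ => (x : ℂ)) (g := rho r) hc
        Complex.continuous_ofReal.continuousAt
    exact h2.tendsto.mono_left nhdsWithin_le_nhds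
  have h3 : Tendsto (fun x : ℝ => (starRingEnd ℂ) (rho r (x : ℂ))) (𝓝[≠] (1 / r))
      (𝓝 ((starRingEnd ℂ) (rho r ((1 / r : ℝ) : ℂ)))) :=
    (Complex.continuous_conj.tendsto _).comp h1
  apply tendsto_nhds_unique h3
  apply h1.congr'
  filter_upwards [self_mem_nhdsWithin] with x hx
  exact (rho_real_real hr hr1 hx).symm

/-- reality on the outer circle -/
theorem rho_real_outer (hr : 0 < r) (hr1 : r < 1) {t : ℂ} (ht : ‖t‖ = 1 / r) :
    (starRingEnd ℂ) (rho r t) = rho r t := by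
  have hr0 : (r : ℂ) ≠ 0 := by exact_mod_cast hr.ne'
  by_cases hne : t = ((1 / r : ℝ) : ℂ)
  · subst hne
    exact rho_real_point hr hr1
  have h0 : t ≠ 0 := ne_zero_of_norm hr ht
  have hZ := Z2_mul_conj hr hr1 ht
  have hZ0 : Z2 r t ≠ 0 := by
    intro h
    rw [h] at hZ
    simp at hZ
  have hZc : (starRingEnd ℂ) (Z2 r t) = (Z2 r t)⁻¹ := by
    field_simp
    rw [mul_comm]
    exact hZ
  have key := key_ga hr hr1 ht
  have hmem : t ∈ Ua r := by
    refine ⟨?_, ?_⟩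
    · rw [ht, lt_div_iff₀ hr]
      nlinarith
    · rw [ht]
      have : r ^ 2 * (1 / r) = r := by field_simp
      rw [this]
      exact hr1
  have n1 : (1 : ℂ) - (r : ℂ) * t⁻¹ ≠ 0 := one_sub_ne hr hmem
  have n2 : (1 : ℂ) - (r : ℂ) * t ≠ 0 := by
    intro h
    apply hne
    push_cast
    rw [eq_div_iff hr0]
    linear_combination -h
  have n3 : (1 : ℂ) - ((r ^ 3 : ℝ) : ℂ) * t ≠ 0 := by
    intro h
    have h1 : ‖((r ^ 3 : ℝ) : ℂ) * t‖ = 1 := by
      have : ((r ^ 3 : ℝ) : ℂ) * t = 1 := by linear_combination -h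
      rw [this, norm_one]
    rw [norm_mul, Complex.norm_real, Real.norm_eq_abs, abs_of_pos (by positivity), ht] at h1
    have : r ^ 3 * (1 / r) = r ^ 2 := by field_simp
    rw [this] at h1
    nlinarith
  rw [rho_eq hr hr1 hne]
  simp only [map_mul, map_div₀, map_sub, map_one, Complex.conj_ofReal]
  rw [← Complex.exp_conj]
  simp only [map_neg, map_add, map_mul, Complex.conj_ofReal, Complex.conj_ofNat]
  rw [hZc, conj_eq hr ht, conj_inv_eq hr ht]
  have e1 : Complex.exp (-(2 * (f0 r : ℂ) + (starRingEnd ℂ) (T2 (ga r) t)))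
      = Complex.exp (-(2 * (f0 r : ℂ))) * Complex.exp (-((starRingEnd ℂ) (T2 (ga r) t))) := by
    rw [← Complex.exp_add]
    congr 1
    ring
  have e2 : Complex.exp (-(2 * (f0 r : ℂ) + T2 (ga r) t))
      = Complex.exp (-(2 * (f0 r : ℂ))) * Complex.exp (-(T2 (ga r) t)) := by
    rw [← Complex.exp_add]
    congr 1
    ring
  have e3 : Complex.exp (-((starRingEnd ℂ) (T2 (ga r) t)))
      = Complex.exp (-T2 (ga r) t) * (1 - t⁻¹) ^ 2 * Complex.exp (2 * T2 (ca r) t)
        * (1 - ((r ^ 3 : ℝ) : ℂ) * t) / (1 - (r : ℂ) * t⁻¹) := by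
    rw [eq_div_iff n1]
    exact key
  have e4 : (1 - t⁻¹) ^ 2 * Complex.exp (2 * T2 (ca r) t) = Z2 r t / ((r : ℂ) * t) := by
    rw [Z2_eq h0]
    field_simp
  have e5 : (1 : ℂ) - (r : ℂ) * (((((r ^ 2)⁻¹ : ℝ) : ℂ)) * t⁻¹)
      = -(1 - (r : ℂ) * t) / ((r : ℂ) * t) := by
    push_cast
    field_simp
    ring
  have e6 : (1 : ℂ) - (r : ℂ) * (((r ^ 2 : ℝ) : ℂ) * t) = 1 - ((r ^ 3 : ℝ) : ℂ) * t := by
    push_cast
    ring
  have e7 : (1 : ℂ) - (Z2 r t)⁻¹ = -(1 - Z2 r t) / Z2 r t := by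
    field_simp
    ring
  rw [e1, e2, e3, e5, e6, e7]
  have e8 : Complex.exp (-T2 (ga r) t) * (1 - t⁻¹) ^ 2 * Complex.exp (2 * T2 (ca r) t)
      = Complex.exp (-T2 (ga r) t) * (Z2 r t / ((r : ℂ) * t)) := by
    rw [mul_assoc, e4]
  rw [e8]
  generalize Complex.exp (-T2 (ga r) t) = E1
  generalize Complex.exp (-(2 * (f0 r : ℂ))) = E2
  generalize (1 : ℂ) - ((r ^ 3 : ℝ) : ℂ) * t = N3 at *
  generalize (1 : ℂ) - (r : ℂ) * t = N2 at *
  generalize (1 : ℂ) - (r : ℂ) * t⁻¹ = N1 at *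
  generalize Z2 r t = W at *
  field_simp

/-- the open annulus between the two circles -/
def Va (r : ℝ) : Set ℂ := {t : ℂ | 1 < ‖t‖ ∧ ‖t‖ < 1 / r}

theorem Va_open (r : ℝ) : IsOpen (Va r) := by
  apply IsOpen.inter
  · exact isOpen_lt continuous_const continuous_norm
  · exact isOpen_lt continuous_norm continuous_const

theorem Va_closure (r : ℝ) : closure (Va r) ⊆ {t : ℂ | 1 ≤ ‖t‖ ∧ ‖t‖ ≤ 1 / r} := by
  apply closure_minimal
  · intro t ht
    exact ⟨ht.1.le, ht.2.le⟩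
  · apply IsClosed.inter
    · exact isClosed_le continuous_const continuous_norm
    · exact isClosed_le continuous_norm continuous_const

theorem closed_sub (hr : 0 < r) (hr1 : r < 1) {t : ℂ} (h1 : 1 ≤ ‖t‖) (h2 : ‖t‖ ≤ 1 / r) :
    t ∈ Ua r := by
  refine ⟨lt_of_lt_of_le hr1 h1, ?_⟩
  have h3 : r ^ 2 * ‖t‖ ≤ r ^ 2 * (1 / r) := mul_le_mul_of_nonneg_left h2 (sq_nonneg r)
  have h4 : r ^ 2 * (1 / r) = r := by field_simp
  linarith

theorem Va_frontier (r : ℝ) {t : ℂ} (ht : t ∈ frontier (Va r)) : ‖t‖ = 1 ∨ ‖t‖ = 1 / r := by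
  rw [(Va_open r).frontier_eq] at ht
  obtain ⟨h1, h2⟩ := Va_closure r ht.1
  by_contra hcon
  push Not at hcon
  apply ht.2
  exact ⟨lt_of_le_of_ne h1 (Ne.symm hcon.1), lt_of_le_of_ne h2 hcon.2⟩

theorem Va_bounded (r : ℝ) : Bornology.IsBounded (Va r) := by
  apply (Metric.isBounded_ball (x := (0 : ℂ)) (r := 1 / r)).subset
  intro t ht
  rw [mem_ball_zero_iff]
  exact ht.2

theorem im_zero_of_conj {w : ℂ} (h : (starRingEnd ℂ) w = w) : w.im = 0 :=
  Complex.conj_eq_iff_im.1 h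

theorem rho_im_le (hr : 0 < r) (hr1 : r < 1) (ε : ℝ) {t : ℂ} (ht : t ∈ closure (Va r)) :
    -(ε * (rho r t).im) ≤ 0 := by
  have hd : DiffContOnCl ℂ (fun t => Complex.exp ((ε : ℂ) * Complex.I * rho r t)) (Va r) := by
    apply DifferentiableOn.diffContOnCl
    have h1 : DifferentiableOn ℂ (rho r) (closure (Va r)) := by
      apply (rho_diff hr hr1).mono
      intro w hw
      exact closed_sub hr hr1 (Va_closure r hw).1 (Va_closure r hw).2
    exact ((differentiableOn_const _).mul h1).cexp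
  have hn : ∀ w : ℂ, ‖Complex.exp ((ε : ℂ) * Complex.I * rho r w)‖
      = Real.exp (-(ε * (rho r w).im)) := by
    intro w
    rw [Complex.norm_exp]
    congr 1
    simp [Complex.mul_re, Complex.mul_im]
  have h := Complex.norm_le_of_forall_mem_frontier_norm_le (Va_bounded r) hd (C := 1) (by
    intro w hw
    rw [hn]
    have : (rho r w).im = 0 := by
      rcases Va_frontier r hw with h | h
      · exact im_zero_of_conj (rho_real_one hr hr1 h)
      · exact im_zero_of_conj (rho_real_outer hr hr1 h)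
    rw [this]
    simp) ht
  rw [hn] at h
  have := Real.exp_le_one_iff.1 h
  exact this

theorem rho_im (hr : 0 < r) (hr1 : r < 1) {t : ℂ} (ht : t ∈ closure (Va r)) :
    (rho r t).im = 0 := by
  have h1 := rho_im_le hr hr1 1 ht
  have h2 := rho_im_le hr hr1 (-1) ht
  linarith

theorem Va_preconnected (hr : 0 < r) : IsPreconnected (Va r) := by
  have h : Va r = (fun σ : ℂ => Complex.exp σ) '' (Complex.re ⁻¹' Ioo 0 (-Real.log r)) := by
    ext t
    constructor
    · intro ht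
      have h0 : t ≠ 0 := by
        intro h
        have := ht.1
        rw [h, norm_zero] at this
        linarith
      refine ⟨Complex.log t, ⟨?_, ?_⟩, Complex.exp_log h0⟩
      · rw [Complex.log_re]
        exact Real.log_pos ht.1
      · rw [Complex.log_re]
        have h1 : 0 < ‖t‖ := norm_pos_iff.2 h0
        have h2 := Real.log_lt_log h1 ht.2
        rwa [one_div, Real.log_inv] at h2
    · rintro ⟨σ, ⟨h1, h2⟩, rfl⟩
      refine ⟨?_, ?_⟩
      · show 1 < ‖Complex.exp σ‖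
        rw [Complex.norm_exp]
        exact Real.one_lt_exp_iff.2 h1
      · show ‖Complex.exp σ‖ < 1 / r
        rw [Complex.norm_exp]
        calc Real.exp σ.re < Real.exp (-Real.log r) := Real.exp_lt_exp.2 h2
          _ = 1 / r := by rw [Real.exp_neg, Real.exp_log hr, one_div]
  rw [h]
  apply IsPreconnected.image
  · apply Convex.isPreconnected
    exact (convex_Ioo _ _).linear_preimage Complex.reLm
  · exact Complex.continuous_exp.continuousOn

/-- `rho` is constant on the open annulus -/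
theorem rho_const (hr : 0 < r) (hr1 : r < 1) : ∃ w, ∀ t ∈ Va r, rho r t = w := by
  have hsub : Va r ⊆ Ua r := fun t ht => closed_sub hr hr1 ht.1.le ht.2.le
  have han : AnalyticOnNhd ℂ (rho r) (Va r) :=
    ((rho_diff hr hr1).mono hsub).analyticOnNhd (Va_open r)
  rcases han.is_constant_or_isOpen (Va_preconnected hr) with h | h
  · exact h
  · exfalso
    have h1 := h (Va r) subset_rfl (Va_open r)
    have h2 : (rho r '' Va r).Nonempty := by
      apply Set.Nonempty.image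
      have h3 : (1 : ℝ) < 1 / r := by
        rw [lt_div_iff₀ hr]
        linarith
      obtain ⟨x, hx1, hx2⟩ := exists_between h3
      refine ⟨(x : ℂ), ?_, ?_⟩
      · rw [Complex.norm_real, Real.norm_eq_abs, abs_of_pos (by linarith)]
        exact hx1
      · rw [Complex.norm_real, Real.norm_eq_abs, abs_of_pos (by linarith)]
        exact hx2
    obtain ⟨w, hw⟩ := h2
    rw [Metric.isOpen_iff] at h1
    obtain ⟨ε, hε, hball⟩ := h1 w hw
    have h4 : ∀ v ∈ rho r '' Va r, v.im = 0 := by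
      rintro v ⟨t, ht, rfl⟩
      exact rho_im hr hr1 (subset_closure ht)
    have h5 : w + (ε / 2 : ℝ) * Complex.I ∈ Metric.ball w ε := by
      rw [Metric.mem_ball, dist_eq_norm, add_sub_cancel_left, norm_mul, Complex.norm_real,
        Complex.norm_I, mul_one, Real.norm_eq_abs, abs_of_pos (by positivity)]
      linarith
    have h6 := h4 _ (hball h5)
    have h7 := h4 w hw
    simp at h6
    rw [h7] at h6
    linarith

theorem rho_one_circle (hr : 0 < r) (hr1 : r < 1) {w : ℂ} (hw : ∀ t ∈ Va r, rho r t = w)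
    {t : ℂ} (ht : ‖t‖ = 1) : rho r t = w := by
  have hmem : t ∈ Ua r := by
    apply closed_sub hr hr1 ht.ge
    rw [ht, le_div_iff₀ hr]
    linarith
  have hc : ContinuousAt (rho r) t :=
    ((rho_diff hr hr1).differentiableAt ((Ua_open r).mem_nhds hmem)).continuousAt
  have hline : ContinuousAt (fun x : ℝ => (x : ℂ) * t) 1 := by fun_prop
  have h1 : Tendsto (fun x : ℝ => rho r ((x : ℂ) * t)) (𝓝[>] 1) (𝓝 (rho r t)) := by
    have h2 : ContinuousAt (fun x : ℝ => rho r ((x : ℂ) * t)) 1 := by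
      apply ContinuousAt.comp (f := fun x : ℝ => (x : ℂ) * t) (g := rho r) _ hline
      simpa using hc
    have h3 := h2.tendsto
    simp only [Complex.ofReal_one, one_mul] at h3
    exact h3.mono_left nhdsWithin_le_nhds
  apply tendsto_nhds_unique h1
  have h3 : (1 : ℝ) < 1 / r := by
    rw [lt_div_iff₀ hr]
    linarith
  have h4 : Ioo 1 (1 / r) ∈ 𝓝[>] (1 : ℝ) := Ioo_mem_nhdsGT h3
  apply tendsto_const_nhds.congr'
  filter_upwards [h4] with x hx
  apply (hw _ _).symm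
  have h5 : ‖(x : ℂ) * t‖ = x := by
    rw [norm_mul, Complex.norm_real, Real.norm_eq_abs, abs_of_pos (by linarith [hx.1]), ht, mul_one]
  exact ⟨by rw [h5]; exact hx.1, by rw [h5]; exact hx.2⟩

end Pool.Agent.Lib.MP_0430e4_lc.Lower
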