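import Pool.Agent.Lib.MP_0430e4_lc.Lower.Ident

/-!
# The product identity, final form
-/

set_option autoImplicit false
set_option linter.unusedSectionVars false

namespace Pool.Agent.Lib.MP_0430e4_lc.Lower

open Filter Topology Set

variable {r : ℝ}

theorem cv_of_norm_one {p : ℕ → ℝ} {ρ : ℝ} (hρ : 0 ≤ ρ) (hρ1 : ρ < 1) (hp : Bd p ρ) {t : ℂ}
    (ht : ‖t‖ = 1) : Cv p t := by
  apply hp.cv hρ
  rw [ht, mul_one]
  exact hρ1

theorem T_xr (hr : 0 < r) (hr1 : r < 1) {t : ℂ} (ht : ‖t‖ = 1) :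
    T (fun m => r ^ (m + 1) / ((m : ℝ) + 1)) t = T (ga r) t + T (fa r) t := by
  rw [T_add (cv_of_norm_one (sq_nonneg r) (by nlinarith) (ga_bd hr.le) ht)
    (cv_of_norm_one hr.le hr1 (fa_bd hr.le hr1.le) ht)]
  congr 1
  funext m
  unfold ga
  ring

theorem T_fa_one (r : ℝ) : T (fa r) 1 = (f0 r : ℂ) := by
  have := T_ofReal (fa r) 1
  simp only [Complex.ofReal_one, one_pow, mul_one] at this
  exact this

theorem factor_eq (hr : 0 < r) (hr1 : r < 1) {t : ℂ} (ht : ‖t‖ = 1) :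
    (1 - (r : ℂ) * t) * (1 - (r : ℂ) * t⁻¹) = Complex.exp (-(T2 (ga r) t + T2 (fa r) t)) := by
  have ht' : ‖t⁻¹‖ = 1 := by rw [norm_inv, ht, inv_one]
  have h1 : ‖(r : ℂ) * t‖ < 1 := by
    rw [norm_mul, Complex.norm_real, Real.norm_eq_abs, abs_of_pos hr, ht, mul_one]
    exact hr1
  have h2 : ‖(r : ℂ) * t⁻¹‖ < 1 := by
    rw [norm_mul, Complex.norm_real, Real.norm_eq_abs, abs_of_pos hr, ht', mul_one]
    exact hr1
  rw [T_log h1, T_log h2, T_xr hr hr1 ht, T_xr hr hr1 ht', ← Complex.exp_add]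
  unfold T2
  congr 1
  ring

theorem rho_at_one (hr : 0 < r) (hr1 : r < 1) : rho r 1 = 1 := by
  have hne : (1 : ℂ) ≠ ((1 / r : ℝ) : ℂ) := by
    intro h
    have : (1 : ℝ) = 1 / r := by exact_mod_cast h
    field_simp at this
    linarith
  have hf := factor_eq hr hr1 (t := 1) norm_one
  rw [rho_eq hr hr1 hne, hf]
  have hZ : Z2 r 1 = 0 := by
    unfold Z2
    have : (1 : ℂ) - 2 + 1⁻¹ = 0 := by norm_num
    rw [this]
    ring
  have h2 : T2 (fa r) 1 = 2 * (f0 r : ℂ) := by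
    unfold T2
    rw [inv_one, T_fa_one]
    ring
  rw [hZ, h2, sub_zero, one_div, ← Complex.exp_neg, ← Complex.exp_add, neg_neg]
  have : T2 (ga r) 1 + 2 * (f0 r : ℂ) + -(2 * (f0 r : ℂ) + T2 (ga r) 1) = 0 := by ring
  rw [this, Complex.exp_zero]

theorem rho_eq_one (hr : 0 < r) (hr1 : r < 1) {t : ℂ} (ht : ‖t‖ = 1) : rho r t = 1 := by
  obtain ⟨w, hw⟩ := rho_const hr hr1
  have h1 := rho_one_circle hr hr1 hw (t := 1) norm_one
  rw [rho_at_one hr hr1] at h1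
  rw [rho_one_circle hr hr1 hw ht, ← h1]

/-- THE PRODUCT IDENTITY. -/
theorem one_sub_Z2 (hr : 0 < r) (hr1 : r < 1) {t : ℂ} (ht : ‖t‖ = 1) :
    1 - Z2 r t = Complex.exp (2 * (f0 r : ℂ) - T2 (fa r) t) := by
  have hne : t ≠ ((1 / r : ℝ) : ℂ) := by
    intro h
    rw [h, Complex.norm_real, Real.norm_eq_abs, abs_of_pos (by positivity)] at ht
    rw [div_eq_one_iff_eq hr.ne'] at ht
    linarith
  have h1 := rho_eq_one hr hr1 ht
  rw [rho_eq hr hr1 hne, factor_eq hr hr1 ht] at h1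
  have h2 : Complex.exp (-(T2 (ga r) t + T2 (fa r) t)) ≠ 0 := Complex.exp_ne_zero _
  have h3 : Complex.exp (-(2 * (f0 r : ℂ) + T2 (ga r) t)) ≠ 0 := Complex.exp_ne_zero _
  rw [div_mul_eq_mul_div, div_eq_one_iff_eq h2] at h1
  have h4 : 1 - Z2 r t = Complex.exp (-(T2 (ga r) t + T2 (fa r) t)) /
      Complex.exp (-(2 * (f0 r : ℂ) + T2 (ga r) t)) := by
    rw [eq_div_iff h3]
    exact h1
  rw [h4, ← Complex.exp_sub]
  congr 1
  ring

end Pool.Agent.Lib.MP_0430e4_lc.Lower
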