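import Mathlib

/-!
# One-sided power series with real coefficients

`T p t = ∑' m, p m * t ^ (m + 1)`
-/

set_option autoImplicit false

namespace Pool.Agent.Lib.MP_0430e4_lc.Lower

open Filter Topology Set

/-- `T p t = ∑' m, p m * t ^ (m + 1)` -/
noncomputable def T (p : ℕ → ℝ) (t : ℂ) : ℂ := ∑' m, (p m : ℂ) * t ^ (m + 1)

/-- geometric bound on the coefficients -/
def Bd (p : ℕ → ℝ) (ρ : ℝ) : Prop := ∀ m, |p m| ≤ 2 * ρ ^ (m + 1)

theorem Bd.add_half {p q : ℕ → ℝ} {ρ : ℝ} (hp : ∀ m, |p m| ≤ ρ ^ (m + 1))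
    (hq : ∀ m, |q m| ≤ ρ ^ (m + 1)) : Bd (fun m => p m + q m) ρ := by
  intro m
  have := abs_add_le (p m) (q m)
  have h1 := hp m
  have h2 := hq m
  linarith

theorem Bd.summable {p : ℕ → ℝ} {ρ : ℝ} (hρ : 0 ≤ ρ) (hp : Bd p ρ) {t : ℂ} (ht : ρ * ‖t‖ < 1) :
    Summable fun m => ‖(p m : ℂ) * t ^ (m + 1)‖ := by
  have h1 : Summable fun m : ℕ => 2 * (ρ * ‖t‖) ^ (m + 1) := by
    apply Summable.mul_left
    have := summable_geometric_of_lt_one (by positivity : (0 : ℝ) ≤ ρ * ‖t‖) ht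
    exact (summable_nat_add_iff 1).2 this
  apply Summable.of_nonneg_of_le (fun m => norm_nonneg _) _ h1
  intro m
  rw [norm_mul, norm_pow, Complex.norm_real, Real.norm_eq_abs, mul_pow, ← mul_assoc]
  exact mul_le_mul_of_nonneg_right (hp m) (by positivity)

theorem Bd.summable' {p : ℕ → ℝ} {ρ : ℝ} (hρ : 0 ≤ ρ) (hp : Bd p ρ) {t : ℂ} (ht : ρ * ‖t‖ < 1) :
    Summable fun m => (p m : ℂ) * t ^ (m + 1) :=
  (hp.summable hρ ht).of_norm

/-- convergence at a point -/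
def Cv (p : ℕ → ℝ) (t : ℂ) : Prop := Summable fun m => (p m : ℂ) * t ^ (m + 1)

theorem Bd.cv {p : ℕ → ℝ} {ρ : ℝ} (hρ : 0 ≤ ρ) (hp : Bd p ρ) {t : ℂ} (ht : ρ * ‖t‖ < 1) :
    Cv p t := hp.summable' hρ ht

theorem T_add {p q : ℕ → ℝ} {t : ℂ} (hp : Cv p t) (hq : Cv q t) :
    T p t + T q t = T (fun m => p m + q m) t := by
  unfold T
  rw [← hp.tsum_add hq]
  congr 1
  funext m
  push_cast
  ring

theorem T_mul (c : ℝ) (p : ℕ → ℝ) (t : ℂ) :
    T (fun m => c * p m) t = (c : ℂ) * T p t := by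
  unfold T
  rw [← tsum_mul_left]
  congr 1
  funext m
  push_cast
  ring

theorem Cv.mul (c : ℝ) {p : ℕ → ℝ} {t : ℂ} (hp : Cv p t) : Cv (fun m => c * p m) t := by
  unfold Cv at *
  have := hp.mul_left (c : ℂ)
  apply this.congr
  intro m
  push_cast
  ring

theorem Cv.add {p q : ℕ → ℝ} {t : ℂ} (hp : Cv p t) (hq : Cv q t) :
    Cv (fun m => p m + q m) t := by
  unfold Cv at *
  apply (Summable.add hp hq).congr
  intro m
  push_cast
  ring

theorem T_conj (p : ℕ → ℝ) (t : ℂ) :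
    (starRingEnd ℂ) (T p t) = T p ((starRingEnd ℂ) t) := by
  unfold T
  rw [Complex.conj_tsum]
  congr 1
  funext m
  simp

theorem T_scale (p : ℕ → ℝ) (x : ℝ) (t : ℂ) :
    T p ((x : ℂ) * t) = T (fun m => p m * x ^ (m + 1)) t := by
  unfold T
  congr 1
  funext m
  push_cast
  ring

theorem T_log {x : ℝ} {t : ℂ} (h : ‖(x : ℂ) * t‖ < 1) :
    1 - (x : ℂ) * t = Complex.exp (-T (fun m => x ^ (m + 1) / (m + 1)) t) := by
  have h1 := (Complex.hasSum_taylorSeries_neg_log h)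
  have h2 : HasSum (fun m : ℕ => (((x ^ (m + 1) / (m + 1) : ℝ)) : ℂ) * t ^ (m + 1))
      (-Complex.log (1 - (x : ℂ) * t)) := by
    have h3 := (hasSum_nat_add_iff' 1).2 h1
    simp only [Finset.range_one, Finset.sum_singleton, pow_zero, Nat.cast_zero, div_zero,
      sub_zero] at h3
    have e : (fun m : ℕ => (((x ^ (m + 1) / (m + 1) : ℝ)) : ℂ) * t ^ (m + 1))
        = fun n : ℕ => ((x : ℂ) * t) ^ (n + 1) / ((n + 1 : ℕ) : ℂ) := by
      funext m
      push_cast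
      rw [mul_pow]
      ring
    rw [e]
    exact h3
  have h4 : T (fun m => x ^ (m + 1) / (m + 1)) t = -Complex.log (1 - (x : ℂ) * t) := h2.tsum_eq
  rw [h4, neg_neg, Complex.exp_log]
  intro h0
  have : (x : ℂ) * t = 1 := by linear_combination -h0
  rw [this] at h
  simp at h

theorem T_ofReal (p : ℕ → ℝ) (x : ℝ) :
    T p (x : ℂ) = ((∑' m, p m * x ^ (m + 1) : ℝ) : ℂ) := by
  unfold T
  rw [Complex.ofReal_tsum]
  congr 1
  funext m
  push_cast
  ring

theorem norm_T_le {p : ℕ → ℝ} {ρ : ℝ} (hρ : 0 ≤ ρ) (hp : Bd p ρ) {t : ℂ} {R : ℝ} (hR : ‖t‖ ≤ R)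
    (ht : ρ * R < 1) : ‖T p t‖ ≤ ∑' m : ℕ, 2 * (ρ * R) ^ (m + 1) := by
  have hR0 : 0 ≤ R := (norm_nonneg t).trans hR
  have ht' : ρ * ‖t‖ < 1 := lt_of_le_of_lt (mul_le_mul_of_nonneg_left hR hρ) ht
  have h1 : Summable fun m : ℕ => 2 * (ρ * R) ^ (m + 1) := by
    apply Summable.mul_left
    have := summable_geometric_of_lt_one (by positivity : (0 : ℝ) ≤ ρ * R) ht
    exact (summable_nat_add_iff 1).2 this
  unfold T
  refine le_trans (norm_tsum_le_tsum_norm (hp.summable hρ ht')) ?_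
  apply Summable.tsum_le_tsum _ (hp.summable hρ ht') h1
  intro m
  rw [norm_mul, norm_pow, Complex.norm_real, Real.norm_eq_abs, mul_pow, ← mul_assoc]
  apply mul_le_mul (hp m) _ (by positivity) (by positivity)
  gcongr

theorem T_differentiableOn {p : ℕ → ℝ} {ρ : ℝ} (hρ : 0 ≤ ρ) (hp : Bd p ρ) {R : ℝ}
    (hR : ρ * R < 1) (hR0 : 0 < R) : DifferentiableOn ℂ (T p) (Metric.ball 0 R) := by
  have h1 : Summable fun m : ℕ => 2 * (ρ * R) ^ (m + 1) := by
    apply Summable.mul_left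
    have := summable_geometric_of_lt_one (by positivity : (0 : ℝ) ≤ ρ * R) hR
    exact (summable_nat_add_iff 1).2 this
  apply Complex.differentiableOn_tsum_of_summable_norm h1 _ Metric.isOpen_ball
  · intro m w hw
    rw [mem_ball_zero_iff] at hw
    rw [norm_mul, norm_pow, Complex.norm_real, Real.norm_eq_abs, mul_pow, ← mul_assoc]
    apply mul_le_mul (hp m) _ (by positivity) (by positivity)
    gcongr
  · intro m
    fun_prop

theorem T_differentiableAt {p : ℕ → ℝ} {ρ : ℝ} (hρ : 0 < ρ) (hp : Bd p ρ) {t : ℂ}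
    (ht : ρ * ‖t‖ < 1) : DifferentiableAt ℂ (T p) t := by
  have h1 : ‖t‖ < 1 / ρ := by
    rw [lt_div_iff₀ hρ]
    linarith
  obtain ⟨R, hR1, hR2⟩ := exists_between h1
  have hR0 : 0 < R := lt_of_le_of_lt (norm_nonneg _) hR1
  have hR3 : ρ * R < 1 := by
    rw [lt_div_iff₀ hρ] at hR2
    linarith
  exact (T_differentiableOn hρ.le hp hR3 hR0).differentiableAt
    (Metric.isOpen_ball.mem_nhds (by rwa [mem_ball_zero_iff]))

theorem T_hasDerivAt {p : ℕ → ℝ} {ρ : ℝ} (hρ : 0 < ρ) (hp : Bd p ρ) {t : ℂ}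
    (ht : ρ * ‖t‖ < 1) : HasDerivAt (T p) (∑' m : ℕ, (p m : ℂ) * ((m + 1) * t ^ m)) t := by
  have h1 : ‖t‖ < 1 / ρ := by
    rw [lt_div_iff₀ hρ]
    linarith
  obtain ⟨R, hR1, hR2⟩ := exists_between h1
  have hR0 : 0 < R := lt_of_le_of_lt (norm_nonneg _) hR1
  have hR3 : ρ * R < 1 := by
    rw [lt_div_iff₀ hρ] at hR2
    linarith
  have hs : Summable fun m : ℕ => 2 * (ρ * R) ^ (m + 1) := by
    apply Summable.mul_left
    have := summable_geometric_of_lt_one (by positivity : (0 : ℝ) ≤ ρ * R) hR3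
    exact (summable_nat_add_iff 1).2 this
  have h2 := Complex.hasSum_deriv_of_summable_norm (F := fun (m : ℕ) (w : ℂ) => (p m : ℂ) * w ^ (m + 1))
    (U := Metric.ball 0 R) (z := t) hs (fun m => by fun_prop)
    Metric.isOpen_ball (fun m w hw => by
      rw [mem_ball_zero_iff] at hw
      rw [norm_mul, norm_pow, Complex.norm_real, Real.norm_eq_abs, mul_pow, ← mul_assoc]
      apply mul_le_mul (hp m) _ (by positivity) (by positivity)
      gcongr) (by rwa [mem_ball_zero_iff])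
  have h3 : ∀ m : ℕ, deriv (fun w : ℂ => (p m : ℂ) * w ^ (m + 1)) t = (p m : ℂ) * ((m + 1) * t ^ m) := by
    intro m
    have := ((hasDerivAt_pow (m + 1) t).const_mul (p m : ℂ)).deriv
    rw [this]
    simp
  simp only [h3] at h2
  have h4 := (T_differentiableAt hρ hp ht).hasDerivAt
  have h5 : deriv (T p) t = ∑' m : ℕ, (p m : ℂ) * ((m + 1) * t ^ m) := h2.tsum_eq.symm
  rw [h5] at h4
  exact h4

end Pool.Agent.Lib.MP_0430e4_lc.Lower
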