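import Pool.Agent.Lib.MP_0430e4_lc.Lower.Wmap

/-!
# `z = (1 - w) / (1 + w)`
-/

set_option autoImplicit false
set_option linter.unusedSectionVars false

namespace Pool.Agent.Lib.MP_0430e4_lc.Lower

open Filter Topology Set

variable {q : ℝ}

noncomputable def zv (q : ℝ) (v : ℂ) : ℂ :=
  (q : ℂ) * (v - v⁻¹) * Complex.exp (T2 (ca (q ^ 2)) (v ^ 2))

theorem zv_sq {v : ℂ} (hv : v ≠ 0) : zv q v ^ 2 = Z2 (q ^ 2) (v ^ 2) := by
  unfold zv Z2
  rw [mul_pow, mul_pow, ← Complex.exp_nat_mul]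
  push_cast
  congr 1
  field_simp
  ring

/-- the region of analyticity in the variable `v` -/
def Uv (q : ℝ) : Set ℂ := {v : ℂ | q < ‖v‖ ∧ q ^ 2 * ‖v‖ < 1}

theorem Uv_open (q : ℝ) : IsOpen (Uv q) := by
  apply IsOpen.inter
  · exact isOpen_lt continuous_const continuous_norm
  · exact isOpen_lt (continuous_const.mul continuous_norm) continuous_const

section
variable (hq : 0 < q) (hq1 : q < 1)
include hq hq1

theorem Uv_ne {v : ℂ} (hv : v ∈ Uv q) : v ≠ 0 := by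
  intro h
  have := hv.1
  rw [h, norm_zero] at this
  linarith

theorem Uv_sq {v : ℂ} (hv : v ∈ Uv q) : v ^ 2 ∈ Ua (q ^ 2) := by
  obtain ⟨h1, h2⟩ := hv
  refine ⟨?_, ?_⟩
  · rw [norm_pow]
    nlinarith [norm_nonneg v]
  · rw [norm_pow]
    have h3 : 0 ≤ q ^ 2 * ‖v‖ := by positivity
    have h4 : (q ^ 2) ^ 2 * ‖v‖ ^ 2 = (q ^ 2 * ‖v‖) ^ 2 := by ring
    rw [h4]
    nlinarith

theorem Uv_closed {v : ℂ} (h1 : 1 ≤ ‖v‖) (h2 : ‖v‖ ≤ 1 / q) : v ∈ Uv q := by
  refine ⟨lt_of_lt_of_le hq1 h1, ?_⟩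
  have h3 : q ^ 2 * ‖v‖ ≤ q ^ 2 * (1 / q) := mul_le_mul_of_nonneg_left h2 (sq_nonneg q)
  have h4 : q ^ 2 * (1 / q) = q := by field_simp
  linarith

theorem Xf_diff {v : ℂ} (hv : v ∈ Uv q) : DifferentiableAt ℂ (Xf q) v := by
  have hv0 := Uv_ne hq hq1 hv
  obtain ⟨h1, h2⟩ := hv
  have e1 : DifferentiableAt ℂ (T (xo q)) v := by
    apply T_differentiableAt (by positivity) (xo_bd hq.le)
    calc q ^ 3 * ‖v‖ = q * (q ^ 2 * ‖v‖) := by ring
      _ < 1 := by nlinarith [mul_nonneg (sq_nonneg q) (norm_nonneg v)]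
  have e2 : DifferentiableAt ℂ (T (xo q)) v⁻¹ := by
    apply T_differentiableAt (by positivity) (xo_bd hq.le)
    rw [norm_inv, ← div_eq_mul_inv, div_lt_one (hq.trans h1)]
    have : q ^ 3 < q := by
      have h5 : q ^ 3 = q * q ^ 2 := by ring
      rw [h5]
      nlinarith
    linarith
  have e3 : DifferentiableAt ℂ (fun v : ℂ => v⁻¹) v := differentiableAt_inv hv0
  exact e1.sub (e2.comp v e3)

theorem al_diff {v : ℂ} (hv : v ∈ Uv q) : DifferentiableAt ℂ (al q) v := by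
  have hv0 := Uv_ne hq hq1 hv
  have e3 : DifferentiableAt ℂ (fun v : ℂ => v⁻¹) v := differentiableAt_inv hv0
  have e4 := Xf_diff hq hq1 hv
  unfold al
  fun_prop

theorem be_diff {v : ℂ} (hv : v ∈ Uv q) : DifferentiableAt ℂ (be q) v := by
  have hv0 := Uv_ne hq hq1 hv
  have e3 : DifferentiableAt ℂ (fun v : ℂ => v⁻¹) v := differentiableAt_inv hv0
  have e4 := Xf_diff hq hq1 hv
  unfold be
  fun_prop

theorem comp_sq_diff {f : ℂ → ℂ} (hf : ∀ t ∈ Ua (q ^ 2), DifferentiableAt ℂ f t) {v : ℂ}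
    (hv : v ∈ Uv q) : DifferentiableAt ℂ (fun v => f (v ^ 2)) v := by
  have h2 := hf _ (Uv_sq hq hq1 hv)
  have h3 : DifferentiableAt ℂ (fun v : ℂ => v ^ 2) v := by fun_prop
  exact h2.comp v h3

theorem rq : 0 < q ^ 2 ∧ q ^ 2 < 1 := ⟨by positivity, by nlinarith⟩

theorem zv_diff {v : ℂ} (hv : v ∈ Uv q) : DifferentiableAt ℂ (zv q) v := by
  have hv0 := Uv_ne hq hq1 hv
  have e3 : DifferentiableAt ℂ (fun v : ℂ => v⁻¹) v := differentiableAt_inv hv0
  obtain ⟨r0, r1⟩ := rq hq hq1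
  have e4 : DifferentiableAt ℂ (fun v : ℂ => T2 (ca (q ^ 2)) (v ^ 2)) v :=
    comp_sq_diff hq hq1 (fun t ht => T2_diff r0 r1 (ca_bd _) ht) hv
  unfold zv
  fun_prop

end

noncomputable def numf (q : ℝ) (v : ℂ) : ℂ := be q v ^ 2 - al q v ^ 2

noncomputable def Ef (q : ℝ) (v : ℂ) : ℂ :=
  Complex.exp (2 * (f0 (q ^ 2) : ℂ) + T2 (ga (q ^ 2)) (v ^ 2) - T2 (ca (q ^ 2)) (v ^ 2))

noncomputable def S2 (q : ℝ) (v : ℂ) : ℂ :=
  dslope (dslope (numf q) 1) (-1) v * v * Ef q v / (4 * (q : ℂ))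

theorem numf_one (q : ℝ) : numf q 1 = 0 := by
  unfold numf
  have h := al_inv q 1
  rw [inv_one] at h
  rw [h]
  ring

theorem numf_neg_one (q : ℝ) : numf q (-1) = 0 := by
  unfold numf
  have h := al_inv q (-1)
  have : (-1 : ℂ)⁻¹ = -1 := by norm_num
  rw [this] at h
  rw [h]
  ring

theorem S2_eq {v : ℂ} (hv0 : v ≠ 0) (h1 : v ≠ 1) (h2 : v ≠ -1) :
    S2 q v = numf q v * Ef q v / (4 * (q : ℂ) * (v - v⁻¹)) := by
  unfold S2
  have hne : (-1 : ℂ) ≠ 1 := by norm_num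
  rw [dslope_of_ne _ h2, slope_def_field, dslope_of_ne _ h1, slope_def_field,
    dslope_of_ne _ hne, slope_def_field, numf_one, numf_neg_one]
  have n1 : v - 1 ≠ 0 := sub_ne_zero.2 h1
  have n2 : v + 1 ≠ 0 := by
    intro h
    apply h2
    linear_combination h
  have n3 : v - v⁻¹ = (v - 1) * (v + 1) / v := by
    field_simp
    ring
  have n4 : v - -1 = v + 1 := by ring
  rw [n3, n4]
  simp only [sub_zero, zero_div]
  generalize (v - 1 : ℂ) = a at *
  generalize (v + 1 : ℂ) = b at *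
  by_cases hq : (q : ℂ) = 0
  · rw [hq]
    simp
  · field_simp

section
variable (hq : 0 < q) (hq1 : q < 1)
include hq hq1

theorem Ef_diff {v : ℂ} (hv : v ∈ Uv q) : DifferentiableAt ℂ (Ef q) v := by
  obtain ⟨r0, r1⟩ := rq hq hq1
  have e4 : DifferentiableAt ℂ (fun v : ℂ => T2 (ca (q ^ 2)) (v ^ 2)) v :=
    comp_sq_diff hq hq1 (fun t ht => T2_diff r0 r1 (ca_bd _) ht) hv
  have e5 : DifferentiableAt ℂ (fun v : ℂ => T2 (ga (q ^ 2)) (v ^ 2)) v :=
    comp_sq_diff hq hq1 (fun t ht => T2_diff r0 r1 (ga_bd r0.le) ht) hv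
  unfold Ef
  fun_prop

theorem one_mem_Uv : (1 : ℂ) ∈ Uv q := by
  apply Uv_closed hq hq1
  · simp
  · rw [norm_one, le_div_iff₀ hq]
    linarith

theorem neg_one_mem_Uv : (-1 : ℂ) ∈ Uv q := by
  apply Uv_closed hq hq1
  · simp
  · rw [norm_neg, norm_one, le_div_iff₀ hq]
    linarith

theorem S2_diff : DifferentiableOn ℂ (S2 q) (Uv q) := by
  have h0 : DifferentiableOn ℂ (numf q) (Uv q) := by
    intro v hv
    apply DifferentiableAt.differentiableWithinAt
    have e1 := al_diff hq hq1 hv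
    have e2 := be_diff hq hq1 hv
    unfold numf
    exact (e2.pow 2).sub (e1.pow 2)
  have h1 : DifferentiableOn ℂ (dslope (numf q) 1) (Uv q) := by
    rw [Complex.differentiableOn_dslope ((Uv_open q).mem_nhds (one_mem_Uv hq hq1))]
    exact h0
  have h2 : DifferentiableOn ℂ (dslope (dslope (numf q) 1) (-1)) (Uv q) := by
    rw [Complex.differentiableOn_dslope ((Uv_open q).mem_nhds (neg_one_mem_Uv hq hq1))]
    exact h1
  intro v hv
  have e1 : DifferentiableAt ℂ (dslope (dslope (numf q) 1) (-1)) v :=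
    h2.differentiableAt ((Uv_open q).mem_nhds hv)
  have e2 := Ef_diff hq hq1 hv
  apply DifferentiableAt.differentiableWithinAt
  unfold S2
  have : (4 * (q : ℂ)) ≠ 0 := by
    have : (q : ℂ) ≠ 0 := by exact_mod_cast hq.ne'
    exact mul_ne_zero (by norm_num) this
  exact ((e1.mul differentiableAt_id).mul e2).div_const _

/-- the fundamental relation on the closed annulus -/
theorem S2_rel {v : ℂ} (h1 : 1 ≤ ‖v‖) (h2 : ‖v‖ ≤ 1 / q) :
    S2 q v * (4 * zv q v * (al q v * be q v)) = numf q v * (1 - zv q v ^ 2) := by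
  obtain ⟨r0, r1⟩ := rq hq hq1
  have hmem := Uv_closed hq hq1 h1 h2
  have hv0 := Uv_ne hq hq1 hmem
  have hq0 : (q : ℂ) ≠ 0 := by exact_mod_cast hq.ne'
  have e1 : 1 - zv q v ^ 2 = al q v * be q v *
      Complex.exp (2 * (f0 (q ^ 2) : ℂ) + T2 (ga (q ^ 2)) (v ^ 2)) := by
    rw [zv_sq hv0, al_mul_be q hv0]
    apply one_sub_Z2_closed r0 r1
    · rw [norm_pow]
      exact one_le_pow₀ h1
    · rw [norm_pow]
      calc ‖v‖ ^ 2 ≤ (1 / q) ^ 2 := by gcongr
        _ = 1 / q ^ 2 := by rw [one_div_pow]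
  rw [e1]
  by_cases hv1 : v = 1
  · rw [hv1, numf_one]
    unfold zv
    simp
  by_cases hv2 : v = -1
  · rw [hv2, numf_neg_one]
    have : (-1 : ℂ)⁻¹ = -1 := by norm_num
    unfold zv
    rw [this]
    simp
  rw [S2_eq hv0 hv1 hv2]
  have n3 : v - v⁻¹ ≠ 0 := by
    intro h
    have h3 : v * v = 1 := by
      have : v = v⁻¹ := sub_eq_zero.1 h
      field_simp at this
      rw [← sq]
      exact this
    rcases mul_self_eq_one_iff.1 h3 with h | h
    · exact hv1 h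
    · exact hv2 h
  unfold Ef zv
  have e2 : Complex.exp (2 * (f0 (q ^ 2) : ℂ) + T2 (ga (q ^ 2)) (v ^ 2) - T2 (ca (q ^ 2)) (v ^ 2))
      = Complex.exp (2 * (f0 (q ^ 2) : ℂ) + T2 (ga (q ^ 2)) (v ^ 2)) /
        Complex.exp (T2 (ca (q ^ 2)) (v ^ 2)) := by
    rw [← Complex.exp_sub]
  rw [e2]
  have n4 := Complex.exp_ne_zero (T2 (ca (q ^ 2)) (v ^ 2))
  generalize Complex.exp (T2 (ca (q ^ 2)) (v ^ 2)) = E1 at *
  generalize Complex.exp (2 * (f0 (q ^ 2) : ℂ) + T2 (ga (q ^ 2)) (v ^ 2)) = E2 at *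
  generalize v - v⁻¹ = d at *
  field_simp

end

/-! ### reality -/

theorem Xf_neg (q : ℝ) (v : ℂ) : Xf q (-v) = -Xf q v := by
  have h : ∀ u : ℂ, T (xo q) (-u) = -T (xo q) u := by
    intro u
    have e1 : (-u) = ((-1 : ℝ) : ℂ) * u := by push_cast; ring
    have e2 : -T (xo q) u = ((-1 : ℝ) : ℂ) * T (xo q) u := by push_cast; ring
    rw [e1, T_scale, e2, ← T_mul]
    congr 1
    funext m
    unfold xo
    split_ifs with hm
    · have : Odd (m + 1) := hm.add_one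
      rw [this.neg_pow]
      ring
    · ring
  unfold Xf
  rw [h, ← neg_inv, h]
  ring

theorem al_neg (q : ℝ) (v : ℂ) : al q (-v) = be q v := by
  unfold al be
  rw [Xf_neg, inv_neg]
  ring

theorem be_neg (q : ℝ) (v : ℂ) : be q (-v) = al q v := by
  have := al_neg q (-v)
  rw [neg_neg] at this
  exact this.symm

theorem numf_conj (q : ℝ) (v : ℂ) : (starRingEnd ℂ) (numf q v) = numf q ((starRingEnd ℂ) v) := by
  unfold numf
  rw [map_sub, map_pow, map_pow, al_conj, be_conj]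

theorem Ef_conj (q : ℝ) (v : ℂ) : (starRingEnd ℂ) (Ef q v) = Ef q ((starRingEnd ℂ) v) := by
  unfold Ef
  rw [← Complex.exp_conj, map_sub, map_add, map_mul, Complex.conj_ofNat, Complex.conj_ofReal,
    T2_conj, T2_conj, map_pow]

theorem zv_conj (q : ℝ) (v : ℂ) : (starRingEnd ℂ) (zv q v) = zv q ((starRingEnd ℂ) v) := by
  unfold zv
  rw [map_mul, map_mul, map_sub, map_inv₀, Complex.conj_ofReal, ← Complex.exp_conj, T2_conj,
    map_pow]

theorem S2_real_one {v : ℂ} (hv : ‖v‖ = 1) (h1 : v ≠ 1) (h2 : v ≠ -1) :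
    (starRingEnd ℂ) (S2 q v) = S2 q v := by
  have hv0 : v ≠ 0 := by
    intro h
    rw [h, norm_zero] at hv
    exact zero_ne_one hv
  have hc : (starRingEnd ℂ) v = v⁻¹ := (Complex.inv_eq_conj hv).symm
  rw [S2_eq hv0 h1 h2]
  simp only [map_div₀, map_mul, map_sub, Complex.conj_ofReal, Complex.conj_ofNat]
  rw [numf_conj, Ef_conj, map_inv₀, hc, inv_inv]
  have e1 : numf q v⁻¹ = -numf q v := by
    unfold numf
    rw [al_inv, be_inv]
    ring
  have e2 : Ef q v⁻¹ = Ef q v := by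
    unfold Ef
    rw [inv_pow, T2_inv, T2_inv]
  rw [e1, e2]
  have e3 : 4 * (q : ℂ) * (v⁻¹ - v) = -(4 * (q : ℂ) * (v - v⁻¹)) := by ring
  rw [e3, div_neg, neg_mul, neg_div, neg_neg]

theorem S2_real_real {x : ℝ} (hx0 : x ≠ 0) (h1 : x ≠ 1) (h2 : x ≠ -1) :
    (starRingEnd ℂ) (S2 q (x : ℂ)) = S2 q (x : ℂ) := by
  have hv0 : (x : ℂ) ≠ 0 := by exact_mod_cast hx0
  have h1' : (x : ℂ) ≠ 1 := by exact_mod_cast h1
  have h2' : (x : ℂ) ≠ -1 := by exact_mod_cast h2
  rw [S2_eq hv0 h1' h2']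
  simp only [map_div₀, map_mul, map_sub, Complex.conj_ofReal, Complex.conj_ofNat]
  rw [numf_conj, Ef_conj, map_inv₀, Complex.conj_ofReal]

section
variable (hq : 0 < q) (hq1 : q < 1)
include hq hq1

theorem S2_real_limit {x₀ : ℝ} (hx : (x₀ : ℂ) ∈ Uv q) (h0 : x₀ ≠ 0) :
    (starRingEnd ℂ) (S2 q (x₀ : ℂ)) = S2 q (x₀ : ℂ) := by
  have hc : ContinuousAt (S2 q) (x₀ : ℂ) :=
    ((S2_diff hq hq1).differentiableAt ((Uv_open q).mem_nhds hx)).continuousAt
  have h1 : Tendsto (fun x : ℝ => S2 q (x : ℂ)) (𝓝[≠] x₀) (𝓝 (S2 q (x₀ : ℂ))) := by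
    have h2 : ContinuousAt (fun x : ℝ => S2 q (x : ℂ)) x₀ :=
      ContinuousAt.comp (f := fun x : ℝ => (x : ℂ)) (g := S2 q) hc
        Complex.continuous_ofReal.continuousAt
    exact h2.tendsto.mono_left nhdsWithin_le_nhds
  have h3 : Tendsto (fun x : ℝ => (starRingEnd ℂ) (S2 q (x : ℂ))) (𝓝[≠] x₀)
      (𝓝 ((starRingEnd ℂ) (S2 q (x₀ : ℂ)))) :=
    (Complex.continuous_conj.tendsto _).comp h1
  apply tendsto_nhds_unique h3
  apply h1.congr'
  have e0 : ∀ᶠ x in 𝓝[≠] x₀, x ≠ 0 := by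
    have : ∀ᶠ x in 𝓝 x₀, x ≠ 0 := isOpen_ne.mem_nhds h0
    exact this.filter_mono nhdsWithin_le_nhds
  have hfin : ∀ a : ℝ, ∀ᶠ x in 𝓝[≠] x₀, x ≠ a := by
    intro a
    by_cases ha : x₀ = a
    · rw [← ha]
      exact self_mem_nhdsWithin
    · have : ∀ᶠ x in 𝓝 x₀, x ≠ a := isOpen_ne.mem_nhds ha
      exact this.filter_mono nhdsWithin_le_nhds
  filter_upwards [hfin 0, hfin 1, hfin (-1)] with x e1 e2 e3
  exact (S2_real_real e1 e2 e3).symm

theorem S2_im_one {v : ℂ} (hv : ‖v‖ = 1) : (S2 q v).im = 0 := by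
  apply im_zero_of_conj
  by_cases h1 : v = 1
  · rw [h1]
    have := S2_real_limit hq hq1 (x₀ := 1) (by
      push_cast
      exact one_mem_Uv hq hq1) one_ne_zero
    simpa using this
  by_cases h2 : v = -1
  · rw [h2]
    have := S2_real_limit hq hq1 (x₀ := -1) (by
      push_cast
      exact neg_one_mem_Uv hq hq1) (by norm_num)
    simpa using this
  exact S2_real_one hv h1 h2

theorem zv_norm {v : ℂ} (hv : ‖v‖ = 1 / q) : zv q v * (starRingEnd ℂ) (zv q v) = 1 := by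
  obtain ⟨r0, r1⟩ := rq hq hq1
  have hv0 := v_ne hq hq1 hv
  have h1 : ‖zv q v ^ 2‖ = 1 := by
    rw [zv_sq hv0]
    apply Z2_norm r0 r1
    rw [norm_pow, hv, one_div_pow]
  rw [Complex.mul_conj, Complex.normSq_eq_norm_sq, ← norm_pow, h1]
  simp

theorem S2_im_outer {v : ℂ} (hv : ‖v‖ = 1 / q) : (S2 q v).im = 0 := by
  apply im_zero_of_conj
  have hv1 : 1 ≤ ‖v‖ := by
    rw [hv, le_div_iff₀ hq]
    linarith
  have hv0 := v_ne hq hq1 hv
  have hq0 : (q : ℂ) ≠ 0 := by exact_mod_cast hq.ne'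
  by_cases hA : al q v * be q v = 0
  · -- then `v = ± 1 / q` is real
    rw [al_mul_be q hv0] at hA
    have hmem := Uv_closed hq hq1 hv1 hv.le
    have n1 : (1 : ℂ) - ((q ^ 2 : ℝ) : ℂ) * (v ^ 2)⁻¹ ≠ 0 := by
      obtain ⟨r0, r1⟩ := rq hq hq1
      exact one_sub_ne r0 (Uv_sq hq hq1 hmem)
    have h2 : (1 : ℂ) - ((q ^ 2 : ℝ) : ℂ) * v ^ 2 = 0 := by
      rcases mul_eq_zero.1 hA with h | h
      · exact h
      · exact absurd h n1
    have h3 : ((q : ℂ) * v) * ((q : ℂ) * v) = 1 := by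
      push_cast at h2
      linear_combination -h2
    rcases mul_self_eq_one_iff.1 h3 with h | h
    · have h4 : v = ((1 / q : ℝ) : ℂ) := by
        push_cast
        field_simp
        rw [mul_comm]
        exact h
      rw [h4]
      apply S2_real_limit hq hq1
      · rw [← h4]
        exact hmem
      · positivity
    · have h4 : v = ((-(1 / q) : ℝ) : ℂ) := by
        push_cast
        field_simp
        rw [mul_comm]
        exact h
      rw [h4]
      apply S2_real_limit hq hq1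
      · rw [← h4]
        exact hmem
      · have : 0 < 1 / q := by positivity
        linarith
  · have hA1 : al q v ≠ 0 := fun h => hA (by rw [h, zero_mul])
    have hB1 : be q v ≠ 0 := fun h => hA (by rw [h, mul_zero])
    have hz := zv_norm hq hq1 hv
    have hz0 : zv q v ≠ 0 := by
      intro h
      rw [h, zero_mul] at hz
      exact zero_ne_one hz
    have hw := w_imag hq hq1 hv
    have hrel := S2_rel hq hq1 hv1 hv.le
    have hrel2 := congrArg (starRingEnd ℂ) hrel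
    unfold numf at hrel hrel2
    simp only [map_mul, map_sub, map_one, map_pow, Complex.conj_ofNat] at hrel2
    have hcA : (starRingEnd ℂ) (al q v) = -(al q v * (starRingEnd ℂ) (be q v)) / be q v := by
      field_simp
      exact hw
    have hcz : (starRingEnd ℂ) (zv q v) = (zv q v)⁻¹ := by
      field_simp
      rw [mul_comm]
      exact hz
    have hcB0 : (starRingEnd ℂ) (be q v) ≠ 0 := by
      rw [Ne, map_eq_zero]
      exact hB1
    rw [hcA, hcz] at hrel2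
    have h4 : (4 * zv q v * (al q v * be q v)) ≠ 0 :=
      mul_ne_zero (mul_ne_zero (by norm_num) hz0) hA
    apply mul_right_cancel₀ h4
    rw [hrel]
    generalize (starRingEnd ℂ) (S2 q v) = S' at *
    generalize (starRingEnd ℂ) (be q v) = B' at *
    generalize al q v = A at *
    generalize be q v = B at *
    generalize zv q v = z at *
    field_simp at hrel2
    have h5 : B' ^ 2 * (S' * (4 * z * (A * B)) - (B ^ 2 - A ^ 2) * (1 - z ^ 2)) = 0 := by
      linear_combination -B' ^ 2 * hrel2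
    have h6 := (mul_eq_zero.1 h5).resolve_left (pow_ne_zero 2 hcB0)
    linear_combination h6

theorem S2_const : ∃ w : ℂ, ∀ v : ℂ, 1 ≤ ‖v‖ → ‖v‖ ≤ 1 / q → S2 q v = w := by
  apply annulus_const (Uv_open q) _ (S2_diff hq hq1) (fun v e1 e2 => Uv_closed hq hq1 e1 e2)
    (fun v e => S2_im_one hq hq1 e) (fun v e => S2_im_outer hq hq1 e)
  rw [lt_div_iff₀ hq]
  linarith

end

/-! ### the logarithm of `w` -/

noncomputable def lq (q : ℝ) (m : ℕ) : ℝ :=
  if Even m then q ^ (m + 1) / ((1 + (q ^ (m + 1)) ^ 2) * (m + 1)) else 0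

theorem lq_nonneg (hq : 0 ≤ q) (m : ℕ) : 0 ≤ lq q m := by
  unfold lq
  split_ifs
  · positivity
  · exact le_rfl

theorem lq_le (hq : 0 ≤ q) (m : ℕ) : lq q m ≤ q ^ (m + 1) := by
  unfold lq
  have h1 := one_le_cast m
  have h0 : 0 ≤ q ^ (m + 1) := by positivity
  split_ifs
  · rw [div_le_iff₀ (by positivity)]
    have h2 : 0 ≤ (q ^ (m + 1)) ^ 2 := sq_nonneg _
    have h3 : 1 ≤ (1 + (q ^ (m + 1)) ^ 2) * ((m : ℝ) + 1) := by nlinarith
    nlinarith
  · exact h0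

theorem lq_bd (hq : 0 ≤ q) : Bd (lq q) q := by
  intro m
  rw [abs_of_nonneg (lq_nonneg hq m)]
  have := lq_le hq m
  have h : 0 ≤ q ^ (m + 1) := by positivity
  linarith

noncomputable def Lf (q : ℝ) (v : ℂ) : ℂ := T (lq q) v - T (lq q) v⁻¹

theorem T_lq (hq : 0 < q) (hq1 : q < 1) {t : ℂ} (ht : q * ‖t‖ < 1) :
    T (lo q) t = T (xo q) t + T (lq q) t := by
  have ht3 : q ^ 3 * ‖t‖ < 1 := by
    have : q ^ 3 ≤ q := by
      have h5 : q ^ 3 = q * q ^ 2 := by ring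
      rw [h5]
      nlinarith
    have := mul_le_mul_of_nonneg_right this (norm_nonneg t)
    linarith
  rw [T_add ((xo_bd hq.le).cv (by positivity) ht3) ((lq_bd hq.le).cv hq.le ht)]
  congr 1
  funext m
  unfold lo xo lq
  split_ifs
  · have h4 : (1 : ℝ) + (q ^ (m + 1)) ^ 2 ≠ 0 := by positivity
    generalize q ^ (m + 1) = a at *
    field_simp
    ring
  · ring

/-- `be = exp (2 L) al` -/
theorem be_eq (hq : 0 < q) (hq1 : q < 1) {v : ℂ} (h1 : q * ‖v‖ < 1) (h2 : q * ‖v⁻¹‖ < 1) :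
    be q v = Complex.exp (2 * Lf q v) * al q v := by
  have l1 := T_lo (x := q) (t := v) hq.le (by
    rw [norm_mul, Complex.norm_real, Real.norm_eq_abs, abs_of_pos hq]
    exact h1)
  have l2 := T_lo (x := q) (t := v⁻¹) hq.le (by
    rw [norm_mul, Complex.norm_real, Real.norm_eq_abs, abs_of_pos hq]
    exact h2)
  rw [T_lq hq hq1 h1] at l1
  rw [T_lq hq hq1 h2] at l2
  unfold be al
  rw [l1, l2]
  have key : Complex.exp (2 * (T (xo q) v + T (lq q) v)) * Complex.exp (-Xf q v)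
      = Complex.exp (2 * Lf q v) * Complex.exp (Xf q v) *
        Complex.exp (2 * (T (xo q) v⁻¹ + T (lq q) v⁻¹)) := by
    rw [← Complex.exp_add, ← Complex.exp_add, ← Complex.exp_add]
    congr 1
    unfold Xf Lf
    ring
  calc _ = (1 - (q : ℂ) * v) * (1 - (q : ℂ) * v⁻¹) *
        (Complex.exp (2 * (T (xo q) v + T (lq q) v)) * Complex.exp (-Xf q v)) := by ring
    _ = _ := by
      rw [key]
      ring

/-! ### evaluation at real points -/

theorem T_ofReal_nonneg {p : ℕ → ℝ} (hp : ∀ m, 0 ≤ p m) {x : ℝ} (hx : 0 ≤ x) :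
    0 ≤ ∑' m, p m * x ^ (m + 1) := tsum_nonneg fun m => mul_nonneg (hp m) (by positivity)

theorem summable_real {p : ℕ → ℝ} {ρ : ℝ} (hρ : 0 ≤ ρ) (hp : Bd p ρ) {x : ℝ} (hx : 0 ≤ x)
    (h : ρ * x < 1) : Summable fun m => p m * x ^ (m + 1) := by
  have h1 := hp.summable' hρ (t := (x : ℂ)) (by
    rw [Complex.norm_real, Real.norm_eq_abs, abs_of_nonneg hx]
    exact h)
  have h2 : (fun m => (p m : ℂ) * (x : ℂ) ^ (m + 1)) = fun m => ((p m * x ^ (m + 1) : ℝ) : ℂ) := by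
    funext m
    push_cast
    rfl
  rw [h2] at h1
  exact Complex.summable_ofReal.1 h1

/-- real points: `al > 0`, `be > al`, `z > 0` -/
theorem real_point (hq : 0 < q) (hq1 : q < 1) {x : ℝ} (hx1 : 1 < x) (hx2 : q * x < 1) :
    ∃ a b z : ℝ, al q (x : ℂ) = (a : ℂ) ∧ be q (x : ℂ) = (b : ℂ) ∧ zv q (x : ℂ) = (z : ℂ) ∧
      0 < a ∧ a < b ∧ 0 < z := by
  have hx0 : 0 < x := by linarith
  have hxi : 0 < x⁻¹ := inv_pos.2 hx0
  have hxi1 : x⁻¹ < 1 := inv_lt_one_of_one_lt₀ hx1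
  have hqxi : q * x⁻¹ < 1 := by nlinarith
  set X : ℝ := (∑' m, xo q m * x ^ (m + 1)) - ∑' m, xo q m * (x⁻¹) ^ (m + 1) with hX
  set L : ℝ := (∑' m, lq q m * x ^ (m + 1)) - ∑' m, lq q m * (x⁻¹) ^ (m + 1) with hL
  have hXf : Xf q (x : ℂ) = (X : ℂ) := by
    unfold Xf
    rw [← Complex.ofReal_inv, T_ofReal, T_ofReal, hX]
    push_cast
    rfl
  have hLf : Lf q (x : ℂ) = (L : ℂ) := by
    unfold Lf
    rw [← Complex.ofReal_inv, T_ofReal, T_ofReal, hL]
    push_cast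
    rfl
  have hLpos : 0 < L := by
    rw [hL, sub_pos]
    apply Summable.tsum_lt_tsum (i := 0)
    · intro m
      apply mul_le_mul_of_nonneg_left _ (lq_nonneg hq.le m)
      exact pow_le_pow_left₀ hxi.le (by linarith) _
    · have : 0 < lq q 0 := by
        unfold lq
        rw [if_pos (by decide)]
        positivity
      apply mul_lt_mul_of_pos_left _ this
      simp only [zero_add, pow_one]
      linarith
    · exact summable_real hq.le (lq_bd hq.le) hxi.le hqxi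
    · exact summable_real hq.le (lq_bd hq.le) hx0.le hx2
  set a : ℝ := (1 - q * x) * (1 + q * x⁻¹) * Real.exp X with ha
  have ha0 : 0 < a := by
    have : 0 < 1 - q * x := by linarith
    positivity
  have hala : al q (x : ℂ) = (a : ℂ) := by
    unfold al
    rw [hXf, ha]
    push_cast
    rfl
  have hbe : be q (x : ℂ) = ((Real.exp (2 * L) * a : ℝ) : ℂ) := by
    rw [be_eq hq hq1 (by
        rw [Complex.norm_real, Real.norm_eq_abs, abs_of_pos hx0]
        exact hx2) (by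
        rw [norm_inv, Complex.norm_real, Real.norm_eq_abs, abs_of_pos hx0]
        exact hqxi), hala, hLf]
    push_cast
    rfl
  obtain ⟨y, hy⟩ := T2_ofReal (ca (q ^ 2)) (x ^ 2)
  refine ⟨a, Real.exp (2 * L) * a, q * (x - x⁻¹) * Real.exp y, hala, hbe, ?_, ha0, ?_, ?_⟩
  · unfold zv
    push_cast at hy
    rw [hy]
    push_cast
    rfl
  · have : 1 < Real.exp (2 * L) := Real.one_lt_exp_iff.2 (by linarith)
    nlinarith
  · have : 0 < x - x⁻¹ := by linarith
    positivity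

end Pool.Agent.Lib.MP_0430e4_lc.Lower
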