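import Pool.Agent.Lib.MP_0430e4_lc.Lower.Sid

/-!
# `al (1 + z) = be (1 - z)`, that is `(1 - z) / (1 + z) = exp (-2 L)`
-/

set_option autoImplicit false
set_option linter.unusedSectionVars false

namespace Pool.Agent.Lib.MP_0430e4_lc.Lower

open Filter Topology Set

variable {q : ℝ}

section
variable (hq : 0 < q) (hq1 : q < 1)
include hq hq1

theorem one_sub_zv_sq {v : ℂ} (h1 : 1 ≤ ‖v‖) (h2 : ‖v‖ ≤ 1 / q) :
    1 - zv q v ^ 2 = al q v * be q v *
      Complex.exp (2 * (f0 (q ^ 2) : ℂ) + T2 (ga (q ^ 2)) (v ^ 2)) := by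
  obtain ⟨r0, r1⟩ := rq hq hq1
  have hmem := Uv_closed hq hq1 h1 h2
  have hv0 := Uv_ne hq hq1 hmem
  rw [zv_sq hv0, al_mul_be q hv0]
  apply one_sub_Z2_closed r0 r1
  · rw [norm_pow]
    exact one_le_pow₀ h1
  · rw [norm_pow]
    calc ‖v‖ ^ 2 ≤ (1 / q) ^ 2 := by gcongr
      _ = 1 / q ^ 2 := by rw [one_div_pow]

/-- value at `v = i / q` -/
theorem S2_sq : S2 q (((1 / q : ℝ) : ℂ) * Complex.I) ^ 2 = 1 := by
  obtain ⟨r0, r1⟩ := rq hq hq1
  set v : ℂ := ((1 / q : ℝ) : ℂ) * Complex.I with hvd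
  have hv : ‖v‖ = 1 / q := by
    rw [hvd, norm_mul, Complex.norm_I, mul_one, Complex.norm_real, Real.norm_eq_abs,
      abs_of_pos (by positivity)]
  have hv1 : 1 ≤ ‖v‖ := by
    rw [hv, le_div_iff₀ hq]
    linarith
  have hv0 := v_ne hq hq1 hv
  have hcv : (starRingEnd ℂ) v = -v := by
    rw [hvd, map_mul, Complex.conj_ofReal, Complex.conj_I]
    ring
  have hsq : v ^ 2 = ((-(1 / q ^ 2) : ℝ) : ℂ) := by
    rw [hvd, mul_pow, Complex.I_sq]
    push_cast
    ring
  -- z² = -1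
  have hz : zv q v ^ 2 = -1 := by
    obtain ⟨y, hy⟩ := T2_ofReal (ca (q ^ 2)) (-(1 / q ^ 2))
    have hn := Z2_norm r0 r1 (t := v ^ 2) (by rw [norm_pow, hv, one_div_pow])
    have e1 : Z2 (q ^ 2) (v ^ 2) = ((-(q ^ 2 * (1 / q ^ 2 + 2 + q ^ 2) * Real.exp (2 * y)) : ℝ) : ℂ) := by
      unfold Z2
      rw [hsq, hy]
      push_cast
      field_simp
      ring
    have hpos : 0 < q ^ 2 * (1 / q ^ 2 + 2 + q ^ 2) * Real.exp (2 * y) := by positivity
    rw [zv_sq hv0]
    rw [e1] at hn ⊢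
    rw [Complex.norm_real, Real.norm_eq_abs, abs_neg, abs_of_pos hpos] at hn
    rw [hn]
    simp
  have hcA : (starRingEnd ℂ) (al q v) = be q v := by
    rw [al_conj, hcv, al_neg]
  have hcB : (starRingEnd ℂ) (be q v) = al q v := by
    rw [be_conj, hcv, be_neg]
  have hw := w_imag hq hq1 hv
  rw [hcA, hcB] at hw
  have hAB : al q v * be q v ≠ 0 := by
    rw [al_mul_be q hv0, hsq]
    have e1 : (1 - ((q ^ 2 : ℝ) : ℂ) * ((-(1 / q ^ 2) : ℝ) : ℂ)) *
        (1 - ((q ^ 2 : ℝ) : ℂ) * (((-(1 / q ^ 2) : ℝ) : ℂ))⁻¹)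
        = ((2 * (1 + q ^ 4) : ℝ) : ℂ) := by
      have hq0 : (q : ℂ) ≠ 0 := by exact_mod_cast hq.ne'
      push_cast
      field_simp
      ring
    rw [e1]
    have : (2 * (1 + q ^ 4) : ℝ) ≠ 0 := by positivity
    exact_mod_cast this
  have hA1 : al q v ≠ 0 := fun h => hAB (by rw [h, zero_mul])
  have hB1 : be q v ≠ 0 := fun h => hAB (by rw [h, mul_zero])
  have hrel := S2_rel hq hq1 hv1 hv.le
  unfold numf at hrel
  rw [hz] at hrel
  -- S z A = B
  have e2 : S2 q v * zv q v * al q v = be q v := by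
    have e3 : 4 * be q v * (S2 q v * zv q v * al q v - be q v) = 0 := by
      linear_combination hrel - 2 * hw
    have e4 := (mul_eq_zero.1 e3).resolve_left (mul_ne_zero (by norm_num) hB1)
    linear_combination e4
  have e5 : S2 q v ^ 2 * zv q v ^ 2 * al q v ^ 2 = be q v ^ 2 := by
    rw [← e2]
    ring
  rw [hz] at e5
  have e6 : be q v ^ 2 * (S2 q v ^ 2 - 1) = 0 := by
    linear_combination e5 + S2 q v ^ 2 * hw
  have e7 := (mul_eq_zero.1 e6).resolve_left (pow_ne_zero 2 hB1)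
  linear_combination e7

/-- `S2` is `1` on the closed annulus -/
theorem S2_one {v : ℂ} (h1 : 1 ≤ ‖v‖) (h2 : ‖v‖ ≤ 1 / q) : S2 q v = 1 := by
  obtain ⟨w, hw⟩ := S2_const hq hq1
  have hq2 : 1 < 1 / q := by
    rw [lt_div_iff₀ hq]
    linarith
  have hI : ‖((1 / q : ℝ) : ℂ) * Complex.I‖ = 1 / q := by
    rw [norm_mul, Complex.norm_I, mul_one, Complex.norm_real, Real.norm_eq_abs,
      abs_of_pos (by positivity)]
  have e1 := S2_sq hq hq1
  rw [hw _ (by rw [hI]; exact hq2.le) hI.le] at e1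
  obtain ⟨x, hx1, hx2⟩ := exists_between hq2
  have hqx : q * x < 1 := by
    rw [lt_div_iff₀ hq] at hx2
    linarith
  have hx : ‖(x : ℂ)‖ = x := by
    rw [Complex.norm_real, Real.norm_eq_abs, abs_of_pos (by linarith)]
  obtain ⟨a, b, z, ha, hb, hz, ha0, hab, hz0⟩ := real_point hq hq1 hx1 hqx
  have e2 := S2_rel hq hq1 (v := (x : ℂ)) (by rw [hx]; exact hx1.le) (by rw [hx]; exact hx2.le)
  rw [hw (x : ℂ) (by rw [hx]; exact hx1.le) (by rw [hx]; exact hx2.le)] at e2
  have e3 := one_sub_zv_sq hq hq1 (v := (x : ℂ)) (by rw [hx]; exact hx1.le) (by rw [hx]; exact hx2.le)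
  obtain ⟨y, hy⟩ := T2_ofReal (ga (q ^ 2)) (x ^ 2)
  push_cast at hy
  rw [hy] at e3
  unfold numf at e2
  rw [e3, ha, hb, hz] at e2
  have e4 : Complex.exp (2 * (f0 (q ^ 2) : ℂ) + (y : ℂ))
      = ((Real.exp (2 * f0 (q ^ 2) + y) : ℝ) : ℂ) := by
    push_cast
    rfl
  rw [e4] at e2
  rw [sq] at e1
  have e5 : w = 1 := by
    rcases mul_self_eq_one_iff.1 e1 with h | h
    · exact h
    · exfalso
      rw [h] at e2
      have e6 : (-1) * (4 * z * (a * b)) = (b ^ 2 - a ^ 2) * (a * b * Real.exp (2 * f0 (q ^ 2) + y)) := by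
        exact_mod_cast e2
      have hb0 : 0 < b := by linarith
      have e7 : 0 < 4 * z * (a * b) := by positivity
      have e8 : 0 < b ^ 2 - a ^ 2 := by nlinarith
      have e9 : 0 < (b ^ 2 - a ^ 2) * (a * b * Real.exp (2 * f0 (q ^ 2) + y)) := by positivity
      linarith
  rw [hw v h1 h2, e5]

/-- THE SECOND IDENTITY: `al (1 + z) = be (1 - z)` on the closed annulus. -/
theorem al_be_rel {v : ℂ} (h1 : 1 ≤ ‖v‖) (h2 : ‖v‖ ≤ 1 / q) :
    al q v * (1 + zv q v) = be q v * (1 - zv q v) := by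
  have hq2 : 1 < 1 / q := by
    rw [lt_div_iff₀ hq]
    linarith
  set V : Set ℂ := {t : ℂ | 1 < ‖t‖ ∧ ‖t‖ < 1 / q} with hV
  have hVo : IsOpen V := by
    apply IsOpen.inter
    · exact isOpen_lt continuous_const continuous_norm
    · exact isOpen_lt continuous_norm continuous_const
  have hVU : V ⊆ Uv q := fun t ht => Uv_closed hq hq1 ht.1.le ht.2.le
  set φ : ℂ → ℂ := fun v => zv q v * (be q v + al q v) - (be q v - al q v) with hφ
  set ψ : ℂ → ℂ := fun v => (be q v + al q v) + zv q v * (be q v - al q v) with hψ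
  have hφd : DifferentiableOn ℂ φ (Uv q) := by
    intro t ht
    have e1 := al_diff hq hq1 ht
    have e2 := be_diff hq hq1 ht
    have e3 := zv_diff hq hq1 ht
    exact ((e3.mul (e2.add e1)).sub (e2.sub e1)).differentiableWithinAt
  have hψd : DifferentiableOn ℂ ψ (Uv q) := by
    intro t ht
    have e1 := al_diff hq hq1 ht
    have e2 := be_diff hq hq1 ht
    have e3 := zv_diff hq hq1 ht
    exact ((e2.add e1).add (e3.mul (e2.sub e1))).differentiableWithinAt
  have hprod : ∀ t ∈ V, φ t * ψ t = 0 := by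
    intro t ht
    have e1 := S2_rel hq hq1 ht.1.le ht.2.le
    rw [S2_one hq hq1 ht.1.le ht.2.le] at e1
    unfold numf at e1
    rw [hφ, hψ]
    simp only
    linear_combination e1
  have hpre : IsPreconnected V := by
    have h : V = (fun σ : ℂ => Complex.exp σ) '' (Complex.re ⁻¹' Ioo 0 (Real.log (1 / q))) := by
      ext t
      constructor
      · intro ht
        have h0 : t ≠ 0 := by
          intro h
          have := ht.1
          rw [h, norm_zero] at this
          linarith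
        refine ⟨Complex.log t, ⟨?_, ?_⟩, Complex.exp_log h0⟩
        · rw [Complex.log_re]
          exact Real.log_pos ht.1
        · rw [Complex.log_re]
          exact Real.log_lt_log (norm_pos_iff.2 h0) ht.2
      · rintro ⟨σ, ⟨h1, h2⟩, rfl⟩
        refine ⟨?_, ?_⟩
        · show 1 < ‖Complex.exp σ‖
          rw [Complex.norm_exp]
          exact Real.one_lt_exp_iff.2 h1
        · show ‖Complex.exp σ‖ < 1 / q
          rw [Complex.norm_exp]
          calc Real.exp σ.re < Real.exp (Real.log (1 / q)) := Real.exp_lt_exp.2 h2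
            _ = 1 / q := Real.exp_log (by linarith)
    rw [h]
    apply IsPreconnected.image
    · apply Convex.isPreconnected
      exact (convex_Ioo _ _).linear_preimage Complex.reLm
    · exact Complex.continuous_exp.continuousOn
  obtain ⟨x, hx1, hx2⟩ := exists_between hq2
  have hx : ‖(x : ℂ)‖ = x := by
    rw [Complex.norm_real, Real.norm_eq_abs, abs_of_pos (by linarith)]
  have hxV : (x : ℂ) ∈ V := ⟨by rw [hx]; exact hx1, by rw [hx]; exact hx2⟩
  have hφ0 : ∀ t ∈ V, φ t = 0 := by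
    rcases ((hφd.mono hVU).analyticOnNhd hVo).eq_zero_or_eq_zero_of_mul_eq_zero
      ((hψd.mono hVU).analyticOnNhd hVo) hprod hpre with h | h
    · exact h
    · exfalso
      have hqx : q * x < 1 := by
        rw [lt_div_iff₀ hq] at hx2
        linarith
      obtain ⟨a, b, z, ha, hb, hz, ha0, hab, hz0⟩ := real_point hq hq1 hx1 hqx
      have e1 := h _ hxV
      rw [hψ] at e1
      simp only at e1
      rw [ha, hb, hz] at e1
      have e2 : (b + a) + z * (b - a) = 0 := by exact_mod_cast e1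
      have e3 : 0 < z * (b - a) := mul_pos hz0 (by linarith)
      linarith
  -- the closure
  have hvU := Uv_closed hq hq1 h1 h2
  have hc : ContinuousAt φ v := (hφd.differentiableAt ((Uv_open q).mem_nhds hvU)).continuousAt
  have hv0 : 0 < ‖v‖ := by linarith
  have hline : ContinuousAt (fun y : ℝ => (((1 - y) + y * (x / ‖v‖) : ℝ) : ℂ) * v) 0 := by
    fun_prop
  have e1 : Tendsto (fun y : ℝ => φ ((((1 - y) + y * (x / ‖v‖) : ℝ) : ℂ) * v)) (𝓝[>] 0)
      (𝓝 (φ v)) := by
    have h2 : ContinuousAt (fun y : ℝ => φ ((((1 - y) + y * (x / ‖v‖) : ℝ) : ℂ) * v)) 0 := by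
      apply ContinuousAt.comp (f := fun y : ℝ => (((1 - y) + y * (x / ‖v‖) : ℝ) : ℂ) * v)
        (g := φ) _ hline
      simpa using hc
    have h3 := h2.tendsto
    simp only [sub_zero, zero_mul, add_zero, Complex.ofReal_one, one_mul] at h3
    exact h3.mono_left nhdsWithin_le_nhds
  have e2 : φ v = 0 := by
    apply tendsto_nhds_unique e1
    have h4 : Ioo (0 : ℝ) 1 ∈ 𝓝[>] (0 : ℝ) := Ioo_mem_nhdsGT one_pos
    apply tendsto_const_nhds.congr'
    filter_upwards [h4] with y hy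
    apply (hφ0 _ _).symm
    have hpos : 0 < (1 - y) + y * (x / ‖v‖) := by
      have : 0 < y * (x / ‖v‖) := mul_pos hy.1 (div_pos (by linarith) hv0)
      linarith [hy.2]
    have h5 : ‖(((1 - y) + y * (x / ‖v‖) : ℝ) : ℂ) * v‖ = (1 - y) * ‖v‖ + y * x := by
      rw [norm_mul, Complex.norm_real, Real.norm_eq_abs, abs_of_pos hpos]
      field_simp
    refine ⟨?_, ?_⟩
    · rw [h5]
      nlinarith [hy.1, hy.2]
    · rw [h5]
      nlinarith [hy.1, hy.2]
  rw [hφ] at e2
  simp only at e2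
  linear_combination e2

end

end Pool.Agent.Lib.MP_0430e4_lc.Lower
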