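import Pool.Agent.Lib.MP_0430e4_lc.Lower.Core

/-!
# The lower bound from the disc minus a slit
-/

set_option autoImplicit false

namespace Pool.Agent.Lib.MP_0430e4_lc.Lower

open Tensor Filter Topology Set

variable {n : ℕ}

theorem norm_sinh_le (s : ℂ) : ‖Complex.sinh s‖ ≤ Real.cosh s.re := by
  rw [Complex.sinh, norm_div, Real.cosh_eq]
  have h1 : ‖Complex.exp s - Complex.exp (-s)‖ ≤ Real.exp s.re + Real.exp (-s.re) := by
    refine le_trans (norm_sub_le _ _) ?_
    rw [Complex.norm_exp, Complex.norm_exp]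
    simp
  simp only [Complex.norm_ofNat]
  linarith

theorem slit_bound {l : ℝ} {h : (Fin n → Bool) → ℝ} (hh : IsCert l h) {b η β q C : ℝ}
    (hb : 0 < b) (hη : 0 < η) (hbη : b * Real.cosh η ≤ 1) (hβ1 : 1 < β) (hβ : β ^ 2 = 1 + b ^ 2)
    (hq : q * (β + 1) = β - 1) (hC : C = (1 + β) / 2) :
    η * (b * l - n * (β - 1)) + n * Real.log (C * (1 - q * Real.exp (-(2 * η))))
      ≤ Real.log (val h) := by
  have hq0 : 0 < q := by
    by_contra hc
    push Not at hc
    nlinarith
  have hq1 : q < 1 := by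
    by_contra hc
    push Not at hc
    nlinarith
  have hC0 : 0 < C := by rw [hC]; linarith
  have hCq : C * (1 - q) = 1 := by rw [hC]; linarith
  have h2qC : 2 * q * C = β - 1 := by rw [hC]; linarith
  set h0 : ℝ := h (fun _ => false) with hh0
  have hh0p : 0 < h0 := hh.pos
  set S : ℝ := ∑ y, h y with hS
  have hSh : h0 ≤ S := Finset.single_le_sum (f := h) (fun y _ => hh.nonneg y) (Finset.mem_univ _)
  have hSp : 0 < S := lt_of_lt_of_le hh0p hSh
  set D : ℝ := C * (1 - q * Real.exp (-(2 * η))) with hD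
  have hexp1 : Real.exp (-(2 * η)) < 1 := by
    rw [Real.exp_lt_one_iff]
    linarith
  have hD1 : 1 < D := by
    rw [hD, ← hCq]
    apply mul_lt_mul_of_pos_left _ hC0
    nlinarith
  have hD0 : 0 < D := by linarith
  have hval : val h = S / h0 := rfl
  set K : ℝ := (Real.log (S / h0) - n * Real.log D) / η with hK
  have hKη : K * η = Real.log (S / h0) - n * Real.log D := by
    rw [hK]; field_simp
  -- the denominators
  have hden : ∀ s : ℂ, 0 ≤ s.re → C * (1 - q * Real.exp (-(2 * s.re))) ≤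
      ‖(C : ℂ) * (1 - q * Complex.exp (-(2 * s)))‖ := by
    intro s hs
    rw [norm_mul, Complex.norm_real, Real.norm_eq_abs, abs_of_pos hC0]
    apply mul_le_mul_of_nonneg_left _ hC0.le
    have h1 : ‖(q : ℂ) * Complex.exp (-(2 * s))‖ = q * Real.exp (-(2 * s.re)) := by
      rw [norm_mul, Complex.norm_real, Real.norm_eq_abs, abs_of_pos hq0, Complex.norm_exp]
      simp
    have h2 := norm_sub_norm_le (1 : ℂ) ((q : ℂ) * Complex.exp (-(2 * s)))
    rw [h1, norm_one] at h2
    exact h2
  have hden1 : ∀ s : ℂ, 0 ≤ s.re → 1 ≤ ‖(C : ℂ) * (1 - q * Complex.exp (-(2 * s)))‖ := by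
    intro s hs
    refine le_trans ?_ (hden s hs)
    rw [← hCq]
    apply mul_le_mul_of_nonneg_left _ hC0.le
    have : Real.exp (-(2 * s.re)) ≤ 1 := by
      rw [Real.exp_le_one_iff]
      linarith
    nlinarith
  set F : ℂ → ℂ := fun s => Pz h (b * Complex.sinh s) * Complex.exp (-(K * s)) /
    ((C : ℂ) * (1 - q * Complex.exp (-(2 * s)))) ^ n with hF
  have hnorm : ∀ s : ℂ, ‖F s‖ = ‖Pz h (b * Complex.sinh s)‖ * Real.exp (-(K * s.re)) /
      ‖(C : ℂ) * (1 - q * Complex.exp (-(2 * s)))‖ ^ n := by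
    intro s
    rw [hF]
    simp only [norm_div, norm_mul, norm_pow, Complex.norm_exp]
    congr 3
    simp
  have hdiff : ∀ s : ℂ, 0 ≤ s.re → DifferentiableAt ℂ F s := by
    intro s hs
    have h1 : ((C : ℂ) * (1 - q * Complex.exp (-(2 * s)))) ^ n ≠ 0 := by
      apply pow_ne_zero
      intro hc
      have := hden1 s hs
      rw [hc, norm_zero] at this
      linarith
    have h2 : DifferentiableAt ℂ (fun s : ℂ => Pz h (b * Complex.sinh s)) s := by
      have h3 : DifferentiableAt ℂ (fun s : ℂ => (b : ℂ) * Complex.sinh s) s := by fun_prop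
      exact ((Pz_differentiable h) _).comp s h3
    have h4 : DifferentiableAt ℂ (fun s : ℂ => Complex.exp (-(K * s))) s := by fun_prop
    have h5 : DifferentiableAt ℂ (fun s : ℂ => ((C : ℂ) * (1 - q * Complex.exp (-(2 * s)))) ^ n) s := by
      fun_prop
    exact (h2.mul h4).div h5 h1
  have hz1 : ∀ s : ℂ, 0 ≤ s.re → s.re ≤ η → ‖(b : ℂ) * Complex.sinh s‖ ≤ 1 := by
    intro s hs0 hs1
    rw [norm_mul, Complex.norm_real, Real.norm_eq_abs, abs_of_pos hb]
    refine le_trans (mul_le_mul_of_nonneg_left (norm_sinh_le s) hb.le) ?_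
    refine le_trans (mul_le_mul_of_nonneg_left ?_ hb.le) hbη
    rw [Real.cosh_le_cosh, abs_of_nonneg hs0, abs_of_pos hη]
    exact hs1
  have hcl : closure (Complex.re ⁻¹' Ioo 0 η) ⊆ {s : ℂ | 0 ≤ s.re} := by
    apply closure_minimal
    · intro s hs
      exact le_of_lt hs.1
    · exact isClosed_le continuous_const Complex.continuous_re
  have hdc : DiffContOnCl ℂ F (Complex.re ⁻¹' Ioo 0 η) := by
    constructor
    · intro s hs
      exact (hdiff s hs.1.le).differentiableWithinAt
    · intro s hs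
      exact (hdiff s (hcl hs)).continuousAt.continuousWithinAt
  have hbd : ∀ s : ℂ, 0 ≤ s.re → s.re ≤ η → ‖F s‖ ≤ S * Real.exp (|K| * η) := by
    intro s hs0 hs1
    rw [hnorm]
    have h1 := norm_Pz_le hh _ (hz1 s hs0 hs1)
    have h2 : Real.exp (-(K * s.re)) ≤ Real.exp (|K| * η) := by
      apply Real.exp_le_exp.2
      have h3 : -(K * s.re) ≤ |K * s.re| := neg_le_abs _
      rw [abs_mul, abs_of_nonneg hs0] at h3
      have h4 : |K| * s.re ≤ |K| * η := mul_le_mul_of_nonneg_left hs1 (abs_nonneg _)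
      linarith
    have h5 : 1 ≤ ‖(C : ℂ) * (1 - q * Complex.exp (-(2 * s)))‖ ^ n := one_le_pow₀ (hden1 s hs0)
    refine le_trans (div_le_self (by positivity) h5) ?_
    exact mul_le_mul h1 h2 (by positivity) hSp.le
  have hb0 : ∀ s : ℂ, s.re = 0 → ‖F s‖ ≤ h0 := by
    intro s hs
    obtain ⟨φ, rfl⟩ : ∃ φ : ℝ, s = φ * Complex.I := by
      refine ⟨s.im, ?_⟩
      apply Complex.ext
      · simp [hs]
      · simp
    rw [hnorm]
    have h1 : Complex.sinh (φ * Complex.I) = (Real.sin φ : ℂ) * Complex.I := by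
      rw [Complex.sinh_mul_I]
      simp
    have h2 : ∀ t : ℝ, ‖1 + (t : ℂ) * Complex.I‖ ^ 2 = 1 + t ^ 2 := by
      intro t
      rw [Complex.sq_norm, Complex.normSq_apply]
      simp
      ring
    have h3 : ‖(C : ℂ) * (1 - q * Complex.exp (-(2 * (φ * Complex.I))))‖ ^ 2
        = 1 + (b * Real.sin φ) ^ 2 := by
      have h4 : Complex.exp (-(2 * (φ * Complex.I)))
          = (Real.cos (2 * φ) : ℂ) - (Real.sin (2 * φ) : ℂ) * Complex.I := by
        have : -(2 * ((φ : ℂ) * Complex.I)) = ((-(2 * φ) : ℝ) : ℂ) * Complex.I := by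
          push_cast; ring
        rw [this, Complex.exp_mul_I, ← Complex.ofReal_cos, ← Complex.ofReal_sin,
          Real.cos_neg, Real.sin_neg]
        push_cast
        ring
      rw [h4, Complex.sq_norm, Complex.normSq_apply]
      simp only [Complex.mul_re, Complex.ofReal_re, Complex.sub_re, Complex.one_re,
        Complex.ofReal_im, Complex.I_re, Complex.I_im, Complex.sub_im, Complex.one_im,
        Complex.mul_im]
      have h5 : Real.cos (2 * φ) = 1 - 2 * Real.sin φ ^ 2 := by
        rw [Real.cos_two_mul, Real.cos_sq']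
        ring
      have h6 : Real.sin (2 * φ) ^ 2 = 1 - Real.cos (2 * φ) ^ 2 := by
        rw [Real.sin_sq]
      have h7 : C ^ 2 * (1 + q ^ 2) = 1 + b ^ 2 / 2 := by
        have : C * q = (β - 1) / 2 := by linarith
        have h8 : C ^ 2 * (1 + q ^ 2) = C ^ 2 + (C * q) ^ 2 := by ring
        rw [h8, this, hC]
        linarith
      have h9 : 2 * C ^ 2 * q = b ^ 2 / 2 := by
        have h8 : 2 * C ^ 2 * q = C * (2 * q * C) := by ring
        rw [h8, h2qC, hC]
        linarith
      have h10 : (C ^ 2 * (1 + q ^ 2) - 2 * C ^ 2 * q * Real.cos (2 * φ))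
          = 1 + (b * Real.sin φ) ^ 2 := by
        rw [h7, h9, h5]
        ring
      rw [← h10]
      have h11 : Real.cos (2 * φ) ^ 2 + Real.sin (2 * φ) ^ 2 = 1 := by
        rw [h6]; ring
      linear_combination C ^ 2 * q ^ 2 * h11
    set A : ℝ := ‖(C : ℂ) * (1 - q * Complex.exp (-(2 * (φ * Complex.I))))‖ with hA
    have hA1 : ‖1 + (b : ℂ) * Complex.sinh (φ * Complex.I)‖ = A := by
      rw [h1]
      have h4 : (1 : ℂ) + b * ((Real.sin φ : ℂ) * Complex.I)
          = 1 + ((b * Real.sin φ : ℝ) : ℂ) * Complex.I := by push_cast; ring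
      rw [h4]
      have h5 := h2 (b * Real.sin φ)
      rw [← h3] at h5
      exact (sq_eq_sq₀ (norm_nonneg _) (norm_nonneg _)).1 h5
    have hA2 : ‖1 - (b : ℂ) * Complex.sinh (φ * Complex.I)‖ = A := by
      rw [h1]
      have h4 : (1 : ℂ) - b * ((Real.sin φ : ℂ) * Complex.I)
          = 1 + ((-(b * Real.sin φ) : ℝ) : ℂ) * Complex.I := by push_cast; ring
      rw [h4]
      have h5 := h2 (-(b * Real.sin φ))
      rw [neg_sq, ← h3] at h5
      exact (sq_eq_sq₀ (norm_nonneg _) (norm_nonneg _)).1 h5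
    have h4 := norm_Pz_imag hh ((b : ℂ) * Complex.sinh (φ * Complex.I)) A hA2.le hA1.le
    have hApos : 0 < A := by
      have := hden1 (φ * Complex.I) (by simp)
      linarith
    have h5 : Real.exp (-(K * ((φ : ℂ) * Complex.I).re)) = 1 := by simp
    rw [h5, mul_one, div_le_iff₀ (by positivity)]
    linarith
  have hb1 : ∀ s : ℂ, s.re = η → ‖F s‖ ≤ h0 := by
    intro s hs
    rw [hnorm]
    have h1 := norm_Pz_le hh _ (hz1 s (by linarith) (by linarith))
    have h2 := hden s (by linarith)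
    rw [hs] at h2 ⊢
    have h3 : D ^ n ≤ ‖(C : ℂ) * (1 - q * Complex.exp (-(2 * s)))‖ ^ n :=
      pow_le_pow_left₀ hD0.le h2 n
    have h4 : Real.exp (-(K * η)) = h0 / S * D ^ n := by
      rw [hKη, neg_sub, Real.exp_sub, Real.exp_log (by positivity)]
      have : Real.exp (n * Real.log D) = D ^ n := by
        rw [← Real.log_pow, Real.exp_log (by positivity)]
      rw [this]
      field_simp
    rw [h4]
    rw [div_le_iff₀ (pow_pos (lt_of_lt_of_le one_pos (hden1 s (by linarith))) n)]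
    calc ‖Pz h (b * Complex.sinh s)‖ * (h0 / S * D ^ n) ≤ S * (h0 / S * D ^ n) :=
          mul_le_mul_of_nonneg_right h1 (by positivity)
      _ = h0 * D ^ n := by field_simp
      _ ≤ h0 * ‖(C : ℂ) * (1 - q * Complex.exp (-(2 * s)))‖ ^ n :=
          mul_le_mul_of_nonneg_left h3 hh0p.le
  have hmain := strip_max hη hdc hbd hb0 hb1
  -- real points
  have hreal : ∀ s : ℝ, 0 < s → s < η →
      (1 + l * (b * Real.sinh s)) * Real.exp (-(K * s)) ≤
        (C * (1 - q * Real.exp (-(2 * s)))) ^ n := by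
    intro s hs0 hs1
    have h1 := hmain (s : ℂ) (by simpa using hs0.le) (by simpa using hs1.le)
    rw [hnorm] at h1
    have h2 : (b : ℂ) * Complex.sinh (s : ℂ) = ((b * Real.sinh s : ℝ) : ℂ) := by push_cast; ring
    have h3 : (C : ℂ) * (1 - q * Complex.exp (-(2 * (s : ℂ))))
        = ((C * (1 - q * Real.exp (-(2 * s))) : ℝ) : ℂ) := by push_cast; ring
    rw [h2, h3, Pz_ofReal, Complex.norm_real, Complex.norm_real, Complex.ofReal_re] at h1
    have hpos : 0 < C * (1 - q * Real.exp (-(2 * s))) := by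
      have := hden1 (s : ℂ) (by simpa using hs0.le)
      apply mul_pos hC0
      have h5 : Real.exp (-(2 * s)) < 1 := by
        rw [Real.exp_lt_one_iff]; linarith
      nlinarith
    rw [Real.norm_eq_abs, Real.norm_eq_abs, abs_of_pos hpos] at h1
    rw [div_le_iff₀ (by positivity)] at h1
    have hsb : 0 ≤ b * Real.sinh s := mul_nonneg hb.le (Real.sinh_nonneg_iff.2 hs0.le)
    have h4 := Pr_lower hh hsb
    have h5 : Pr h (b * Real.sinh s) * Real.exp (-(K * s)) ≤
        h0 * (C * (1 - q * Real.exp (-(2 * s)))) ^ n :=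
      le_trans (mul_le_mul_of_nonneg_right (le_abs_self _) (Real.exp_pos _).le) h1
    have h6 : h0 * ((1 + l * (b * Real.sinh s)) * Real.exp (-(K * s))) ≤
        h0 * (C * (1 - q * Real.exp (-(2 * s)))) ^ n := by
      refine le_trans ?_ h5
      rw [← mul_assoc]
      exact mul_le_mul_of_nonneg_right h4 (Real.exp_pos _).le
    exact le_of_mul_le_mul_left h6 hh0p
  have hf : HasDerivAt (fun s : ℝ => (1 + l * (b * Real.sinh s)) * Real.exp (-(K * s)))
      (l * b - K) 0 := by
    have h1 : HasDerivAt (fun s : ℝ => 1 + l * (b * Real.sinh s)) (l * (b * Real.cosh 0)) 0 :=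
      (((Real.hasDerivAt_sinh 0).const_mul b).const_mul l).const_add 1
    have h2 : HasDerivAt (fun s : ℝ => Real.exp (-(K * s))) (Real.exp (-(K * 0)) * (-(K * 1))) 0 :=
      (((hasDerivAt_id (0 : ℝ)).const_mul K).neg).exp
    have h3 := h1.mul h2
    refine HasDerivAt.congr_deriv h3 ?_
    simp
    ring
  have hg : HasDerivAt (fun s : ℝ => (C * (1 - q * Real.exp (-(2 * s)))) ^ n)
      (n * (β - 1)) 0 := by
    have h1 : HasDerivAt (fun s : ℝ => Real.exp (-(2 * s))) (Real.exp (-(2 * 0)) * (-(2 * 1))) 0 :=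
      (((hasDerivAt_id (0 : ℝ)).const_mul 2).neg).exp
    have h2 : HasDerivAt (fun s : ℝ => C * (1 - q * Real.exp (-(2 * s))))
        (C * (-(q * (Real.exp (-(2 * 0)) * (-(2 * 1)))))) 0 :=
      ((h1.const_mul q).const_sub 1).const_mul C
    have h3 := h2.fun_pow n
    refine HasDerivAt.congr_deriv h3 ?_
    simp only [mul_zero, neg_zero, Real.exp_zero, mul_one]
    rw [hCq, one_pow, mul_one]
    linear_combination (n : ℝ) * h2qC
  have hfin := deriv_le_of_le hη hf hg (by simp [hCq]) hreal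
  rw [hval]
  have h1 : K * η ≥ (b * l - n * (β - 1)) * η := by
    apply mul_le_mul_of_nonneg_right _ hη.le
    linarith
  rw [hKη] at h1
  linarith

end Pool.Agent.Lib.MP_0430e4_lc.Lower
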