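import Pool.Agent.Lib.MP_0430e4_lc.Lower.Ann

/-!
# The dual map `w = (1 - z) / (1 + z)` in product form
-/

set_option autoImplicit false
set_option linter.unusedSectionVars false

namespace Pool.Agent.Lib.MP_0430e4_lc.Lower

open Filter Topology Set

variable {q : ℝ}

noncomputable def xo (q : ℝ) (m : ℕ) : ℝ :=
  if Even m then (q ^ (m + 1)) ^ 3 / ((1 + (q ^ (m + 1)) ^ 2) * (m + 1)) else 0

noncomputable def lo (x : ℝ) (m : ℕ) : ℝ := if Even m then x ^ (m + 1) / (m + 1) else 0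

theorem xo_nonneg (hq : 0 ≤ q) (m : ℕ) : 0 ≤ xo q m := by
  unfold xo
  split_ifs
  · positivity
  · exact le_rfl

theorem xo_le (hq : 0 ≤ q) (m : ℕ) : xo q m ≤ (q ^ 3) ^ (m + 1) := by
  have e : (q ^ 3) ^ (m + 1) = (q ^ (m + 1)) ^ 3 := by ring
  rw [e]
  unfold xo
  have h1 := one_le_cast m
  have h0 : 0 ≤ (q ^ (m + 1)) ^ 3 := by positivity
  split_ifs
  · rw [div_le_iff₀ (by positivity)]
    have h2 : 0 ≤ (q ^ (m + 1)) ^ 2 := sq_nonneg _
    have h3 : 1 ≤ (1 + (q ^ (m + 1)) ^ 2) * ((m : ℝ) + 1) := by nlinarith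
    nlinarith
  · exact h0

theorem xo_bd (hq : 0 ≤ q) : Bd (xo q) (q ^ 3) := by
  intro m
  rw [abs_of_nonneg (xo_nonneg hq m)]
  have := xo_le hq m
  have h : 0 ≤ (q ^ 3) ^ (m + 1) := by positivity
  linarith

theorem lo_bd {x : ℝ} (hx : 0 ≤ x) : Bd (lo x) x := by
  intro m
  have h := log_bd hx m
  unfold lo
  split_ifs
  · exact h
  · rw [abs_zero]
    positivity

/-- `(1 + x t) = exp (2 T (lo x) t) (1 - x t)` -/
theorem T_lo {x : ℝ} (hx : 0 ≤ x) {t : ℂ} (h : ‖(x : ℂ) * t‖ < 1) :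
    1 + (x : ℂ) * t = Complex.exp (2 * T (lo x) t) * (1 - (x : ℂ) * t) := by
  have hx' : x * ‖t‖ < 1 := by
    rwa [norm_mul, Complex.norm_real, Real.norm_eq_abs, abs_of_nonneg hx] at h
  have e1 := T_log h
  have h' : ‖((-x : ℝ) : ℂ) * t‖ < 1 := by
    rw [Complex.ofReal_neg, neg_mul, norm_neg]
    exact h
  have e2 := T_log h'
  have e3 : 1 + (x : ℂ) * t = 1 - ((-x : ℝ) : ℂ) * t := by
    push_cast
    ring
  have c1 : Cv (fun m => x ^ (m + 1) / ((m : ℝ) + 1)) t := (log_bd hx).cv hx hx'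
  have b2 : Bd (fun m => (-x) ^ (m + 1) / ((m : ℝ) + 1)) x := by
    intro m
    have h3 := log_bd hx m
    show |(-x) ^ (m + 1) / ((m : ℝ) + 1)| ≤ 2 * x ^ (m + 1)
    simp only at h3
    rw [abs_div, abs_pow] at h3 ⊢
    rw [abs_neg]
    exact h3
  have c2 : Cv (fun m => (-x) ^ (m + 1) / ((m : ℝ) + 1)) t := b2.cv hx hx'
  rw [e3, e2, e1, ← Complex.exp_add]
  congr 1
  have e4 : ((2 : ℝ) : ℂ) * T (lo x) t + ((-1 : ℝ) : ℂ) * T (fun m => x ^ (m + 1) / ((m : ℝ) + 1)) t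
      = ((-1 : ℝ) : ℂ) * T (fun m => (-x) ^ (m + 1) / ((m : ℝ) + 1)) t := by
    rw [← T_mul, ← T_mul, ← T_mul, T_add (((lo_bd hx).cv hx hx').mul 2) (c1.mul (-1))]
    congr 1
    funext m
    unfold lo
    rcases Nat.even_or_odd m with hm | hm
    · rw [if_pos hm]
      have : Odd (m + 1) := hm.add_one
      rw [this.neg_pow]
      ring
    · rw [if_neg (Nat.not_even_iff_odd.2 hm)]
      have : Even (m + 1) := hm.add_one
      rw [this.neg_pow]
      ring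
  push_cast at e4
  linear_combination -e4

noncomputable def Xf (q : ℝ) (v : ℂ) : ℂ := T (xo q) v - T (xo q) v⁻¹

noncomputable def al (q : ℝ) (v : ℂ) : ℂ :=
  (1 - (q : ℂ) * v) * (1 + (q : ℂ) * v⁻¹) * Complex.exp (Xf q v)

noncomputable def be (q : ℝ) (v : ℂ) : ℂ :=
  (1 + (q : ℂ) * v) * (1 - (q : ℂ) * v⁻¹) * Complex.exp (-Xf q v)

theorem Xf_conj (q : ℝ) (v : ℂ) : (starRingEnd ℂ) (Xf q v) = Xf q ((starRingEnd ℂ) v) := by
  unfold Xf
  rw [map_sub, T_conj, T_conj, map_inv₀]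

theorem Xf_inv (q : ℝ) (v : ℂ) : Xf q v⁻¹ = -Xf q v := by
  unfold Xf
  rw [inv_inv]
  ring

theorem al_conj (q : ℝ) (v : ℂ) : (starRingEnd ℂ) (al q v) = al q ((starRingEnd ℂ) v) := by
  unfold al
  simp only [map_mul, map_sub, map_add, map_one, Complex.conj_ofReal, map_inv₀]
  rw [← Complex.exp_conj, Xf_conj]

theorem be_conj (q : ℝ) (v : ℂ) : (starRingEnd ℂ) (be q v) = be q ((starRingEnd ℂ) v) := by
  unfold be
  simp only [map_mul, map_sub, map_add, map_one, Complex.conj_ofReal, map_inv₀]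
  rw [← Complex.exp_conj, map_neg, Xf_conj]

theorem al_inv (q : ℝ) (v : ℂ) : al q v⁻¹ = be q v := by
  unfold al be
  rw [Xf_inv, inv_inv]
  ring

theorem be_inv (q : ℝ) (v : ℂ) : be q v⁻¹ = al q v := by
  unfold al be
  rw [Xf_inv, inv_inv, neg_neg]
  ring

theorem al_mul_be (q : ℝ) {v : ℂ} (hv : v ≠ 0) :
    al q v * be q v = (1 - ((q ^ 2 : ℝ) : ℂ) * v ^ 2) * (1 - ((q ^ 2 : ℝ) : ℂ) * (v ^ 2)⁻¹) := by
  unfold al be
  have h1 : Complex.exp (Xf q v) * Complex.exp (-Xf q v) = 1 := by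
    rw [← Complex.exp_add, add_neg_cancel, Complex.exp_zero]
  calc _ = ((1 - (q : ℂ) * v) * (1 + (q : ℂ) * v)) * ((1 + (q : ℂ) * v⁻¹) * (1 - (q : ℂ) * v⁻¹)) *
        (Complex.exp (Xf q v) * Complex.exp (-Xf q v)) := by ring
    _ = _ := by
        rw [h1]
        push_cast
        field_simp
        ring

section
variable {v : ℂ} (hq : 0 < q) (hq1 : q < 1) (hv : ‖v‖ = 1 / q)
include hq hq1 hv

theorem v_ne : v ≠ 0 := ne_zero_of_norm hq hv

theorem v_conj : (starRingEnd ℂ) v = (((q ^ 2)⁻¹ : ℝ) : ℂ) * v⁻¹ := conj_eq hq hv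

theorem v_conj_inv : (starRingEnd ℂ) v⁻¹ = ((q ^ 2 : ℝ) : ℂ) * v := conj_inv_eq hq hv

/-- the cancellation for the odd series -/
theorem Xc_eq :
    (1 + ((q ^ 3 : ℝ) : ℂ) * v) * (1 - (q : ℂ) * v⁻¹) * Complex.exp (2 * (starRingEnd ℂ) (Xf q v))
      = (1 - ((q ^ 3 : ℝ) : ℂ) * v) * (1 + (q : ℂ) * v⁻¹) * Complex.exp (2 * Xf q v) := by
  have hinv : ‖v⁻¹‖ = q := aux_norm_inv hq hq1 hv
  have n1 : q ^ 3 * ‖v‖ < 1 := by
    rw [hv]
    have : q ^ 3 * (1 / q) = q ^ 2 := by field_simp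
    rw [this]
    nlinarith
  have n2 : q * ‖v⁻¹‖ < 1 := by
    rw [hinv]
    nlinarith
  have l1 := T_lo (x := q ^ 3) (t := v) (by positivity) (by
    rw [norm_mul, Complex.norm_real, Real.norm_eq_abs, abs_of_pos (by positivity)]
    exact n1)
  have l2 := T_lo (x := q) (t := v⁻¹) hq.le (by
    rw [norm_mul, Complex.norm_real, Real.norm_eq_abs, abs_of_pos hq]
    exact n2)
  have hc1 : (starRingEnd ℂ) (T (xo q) v) = T (fun m => xo q m * ((q ^ 2)⁻¹) ^ (m + 1)) v⁻¹ := by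
    rw [T_conj, v_conj hq hq1 hv, T_scale]
  have hc2 : (starRingEnd ℂ) (T (xo q) v⁻¹) = T (fun m => xo q m * (q ^ 2) ^ (m + 1)) v := by
    rw [T_conj, v_conj_inv hq hq1 hv, T_scale]
  have b1 : Bd (fun m => xo q m * ((q ^ 2)⁻¹) ^ (m + 1)) q := by
    intro m
    have h3 := xo_le hq.le m
    have h2 := xo_nonneg hq.le m
    have h4 : 0 < (q ^ 2) ^ (m + 1) := by positivity
    show |xo q m * ((q ^ 2)⁻¹) ^ (m + 1)| ≤ 2 * q ^ (m + 1)
    rw [abs_of_nonneg (by positivity), inv_pow, ← div_eq_mul_inv, div_le_iff₀ h4]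
    have h5 : 0 ≤ (q ^ 3) ^ (m + 1) := by positivity
    have h6 : 2 * q ^ (m + 1) * (q ^ 2) ^ (m + 1) = 2 * (q ^ 3) ^ (m + 1) := by
      rw [mul_assoc, ← mul_pow]
      congr 2
      ring
    rw [h6]
    linarith
  have b2 : Bd (fun m => xo q m * (q ^ 2) ^ (m + 1)) (q ^ 3) := by
    intro m
    have h3 := xo_bd hq.le m
    have h2 := xo_nonneg hq.le m
    have h4 : (q ^ 2) ^ (m + 1) ≤ 1 := pow_le_one₀ (sq_nonneg q) (by nlinarith)
    have h5 : 0 ≤ (q ^ 2) ^ (m + 1) := by positivity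
    show |xo q m * (q ^ 2) ^ (m + 1)| ≤ 2 * (q ^ 3) ^ (m + 1)
    rw [abs_mul, abs_of_nonneg h5]
    have h6 := abs_nonneg (xo q m)
    nlinarith
  have cx1 : Cv (xo q) v := (xo_bd hq.le).cv (by positivity) n1
  have cx2 : Cv (xo q) v⁻¹ := by
    apply (xo_bd hq.le).cv (by positivity)
    rw [hinv]
    calc q ^ 3 * q = q ^ 4 := by ring
      _ < 1 := pow_lt_one₀ hq.le hq1 (by norm_num)
  have cb1 := b1.cv hq.le n2
  have cb2 := b2.cv (by positivity) n1
  have cl1 : Cv (lo (q ^ 3)) v := (lo_bd (by positivity)).cv (by positivity) n1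
  have cl2 : Cv (lo q) v⁻¹ := (lo_bd hq.le).cv hq.le n2
  have I1 : T (lo (q ^ 3)) v + ((-1 : ℝ) : ℂ) * T (fun m => xo q m * (q ^ 2) ^ (m + 1)) v
      = T (xo q) v := by
    rw [← T_mul, T_add cl1 (cb2.mul (-1))]
    congr 1
    funext m
    unfold lo xo
    split_ifs
    · have e1 : (q ^ 3) ^ (m + 1) = (q ^ (m + 1)) ^ 3 := by ring
      have e2 : (q ^ 2) ^ (m + 1) = (q ^ (m + 1)) ^ 2 := by ring
      rw [e1, e2]
      have h4 : (1 : ℝ) + (q ^ (m + 1)) ^ 2 ≠ 0 := by positivity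
      generalize q ^ (m + 1) = a at *
      field_simp
      ring
    · ring
  have I2 : T (fun m => xo q m * ((q ^ 2)⁻¹) ^ (m + 1)) v⁻¹ + T (xo q) v⁻¹
      = T (lo q) v⁻¹ := by
    rw [T_add cb1 cx2]
    congr 1
    funext m
    unfold lo xo
    split_ifs
    · have e1 : ((q ^ 2)⁻¹) ^ (m + 1) = ((q ^ (m + 1)) ^ 2)⁻¹ := by
        rw [inv_pow]
        congr 1
        ring
      rw [e1]
      have h4 : (1 : ℝ) + (q ^ (m + 1)) ^ 2 ≠ 0 := by positivity
      have h5 : q ^ (m + 1) ≠ 0 := by positivity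
      generalize q ^ (m + 1) = a at *
      field_simp
    · ring
  have hX : (starRingEnd ℂ) (Xf q v) = T (fun m => xo q m * ((q ^ 2)⁻¹) ^ (m + 1)) v⁻¹
      - T (fun m => xo q m * (q ^ 2) ^ (m + 1)) v := by
    unfold Xf
    rw [map_sub, hc1, hc2]
  rw [l1, l2, hX]
  have key : Complex.exp (2 * T (lo (q ^ 3)) v) *
      Complex.exp (2 * (T (fun m => xo q m * ((q ^ 2)⁻¹) ^ (m + 1)) v⁻¹
        - T (fun m => xo q m * (q ^ 2) ^ (m + 1)) v))
      = Complex.exp (2 * T (lo q) v⁻¹) * Complex.exp (2 * Xf q v) := by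
    rw [← Complex.exp_add, ← Complex.exp_add]
    congr 1
    unfold Xf
    push_cast at I1
    linear_combination 2 * I1 + 2 * I2
  calc _ = (1 - ((q ^ 3 : ℝ) : ℂ) * v) * (1 - (q : ℂ) * v⁻¹) * (Complex.exp (2 * T (lo (q ^ 3)) v) *
      Complex.exp (2 * (T (fun m => xo q m * ((q ^ 2)⁻¹) ^ (m + 1)) v⁻¹
        - T (fun m => xo q m * (q ^ 2) ^ (m + 1)) v))) := by ring
    _ = _ := by
      rw [key]
      ring

/-- `w = al / be` is imaginary on the outer circle: `conj al * be = - al * conj be`. -/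
theorem w_imag : (starRingEnd ℂ) (al q v) * be q v = -(al q v * (starRingEnd ℂ) (be q v)) := by
  have hv0 := v_ne hq hq1 hv
  have hq0 : (q : ℂ) ≠ 0 := by exact_mod_cast hq.ne'
  have hX := Xc_eq hq hq1 hv
  have ha : (starRingEnd ℂ) (al q v) = -((1 - (q : ℂ) * v) / ((q : ℂ) * v)) *
      (1 + ((q ^ 3 : ℝ) : ℂ) * v) * Complex.exp ((starRingEnd ℂ) (Xf q v)) := by
    unfold al
    simp only [map_mul, map_sub, map_add, map_one, Complex.conj_ofReal]
    rw [v_conj hq hq1 hv, v_conj_inv hq hq1 hv, ← Complex.exp_conj]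
    congr 1
    push_cast
    field_simp
    ring
  have hb : (starRingEnd ℂ) (be q v) = ((1 + (q : ℂ) * v) / ((q : ℂ) * v)) *
      (1 - ((q ^ 3 : ℝ) : ℂ) * v) * Complex.exp (-(starRingEnd ℂ) (Xf q v)) := by
    unfold be
    simp only [map_mul, map_sub, map_add, map_one, Complex.conj_ofReal]
    rw [v_conj hq hq1 hv, v_conj_inv hq hq1 hv, ← Complex.exp_conj, map_neg]
    congr 1
    push_cast
    field_simp
    ring
  rw [ha, hb]
  unfold al be
  set X := Xf q v with hXd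
  set Y := (starRingEnd ℂ) X with hYd
  have e1 : Complex.exp (2 * Y) = Complex.exp Y * Complex.exp Y := by
    rw [← Complex.exp_add]; congr 1; ring
  have e2 : Complex.exp (2 * X) = Complex.exp X * Complex.exp X := by
    rw [← Complex.exp_add]; congr 1; ring
  have e3 : Complex.exp (-Y) = (Complex.exp Y)⁻¹ := Complex.exp_neg Y
  have e4 : Complex.exp (-X) = (Complex.exp X)⁻¹ := Complex.exp_neg X
  rw [e1, e2] at hX
  rw [e3, e4]
  have nY := Complex.exp_ne_zero Y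
  have nX := Complex.exp_ne_zero X
  generalize Complex.exp Y = EY at *
  generalize Complex.exp X = EX at *
  field_simp
  field_simp at hX
  linear_combination -(1 - (q : ℂ) * v) * (1 + (q : ℂ) * v) * hX

end

end Pool.Agent.Lib.MP_0430e4_lc.Lower
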