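import Pool.Agent.Lib.MP_0430e4_lc.Lower.Coef

/-!
# The square of the uniformising map, in the variable `t = exp (2 σ)`
-/

set_option autoImplicit false
set_option linter.unusedSectionVars false

namespace Pool.Agent.Lib.MP_0430e4_lc.Lower

open Filter Topology Set

variable {r : ℝ}

/-- two-sided series `T p t + T p t⁻¹` -/
noncomputable def T2 (p : ℕ → ℝ) (t : ℂ) : ℂ := T p t + T p t⁻¹

noncomputable def Z2 (r : ℝ) (t : ℂ) : ℂ :=
  (r : ℂ) * (t - 2 + t⁻¹) * Complex.exp (2 * T2 (ca r) t)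

theorem T2_inv (p : ℕ → ℝ) (t : ℂ) : T2 p t⁻¹ = T2 p t := by
  unfold T2
  rw [inv_inv, add_comm]

theorem T2_conj (p : ℕ → ℝ) (t : ℂ) :
    (starRingEnd ℂ) (T2 p t) = T2 p ((starRingEnd ℂ) t) := by
  unfold T2
  rw [map_add, T_conj, T_conj, map_inv₀]

/-- On the unit circle the two-sided series is real. -/
theorem T2_real {p : ℕ → ℝ} {t : ℂ} (ht : ‖t‖ = 1) : (starRingEnd ℂ) (T2 p t) = T2 p t := by
  rw [T2_conj, ← Complex.inv_eq_conj ht, T2_inv]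

theorem Z2_eq {t : ℂ} (ht : t ≠ 0) :
    Z2 r t = (r : ℂ) * t * (1 - t⁻¹) ^ 2 * Complex.exp (2 * T2 (ca r) t) := by
  unfold Z2
  congr 1
  field_simp
  ring

theorem conj_eq {t : ℂ} (hr : 0 < r) (ht : ‖t‖ = 1 / r) :
    (starRingEnd ℂ) t = (((r ^ 2)⁻¹ : ℝ) : ℂ) * t⁻¹ := by
  have h0 : t ≠ 0 := by
    intro h
    rw [h, norm_zero] at ht
    have : (0 : ℝ) < 1 / r := by positivity
    linarith
  have h1 : t * (starRingEnd ℂ) t = ((1 / r) ^ 2 : ℝ) := by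
    rw [Complex.mul_conj, Complex.normSq_eq_norm_sq, ht]
  field_simp
  rw [mul_comm, h1]
  push_cast
  field_simp

theorem conj_inv_eq {t : ℂ} (hr : 0 < r) (ht : ‖t‖ = 1 / r) :
    (starRingEnd ℂ) t⁻¹ = ((r ^ 2 : ℝ) : ℂ) * t := by
  rw [map_inv₀, conj_eq hr ht, mul_inv, inv_inv]
  congr 1
  push_cast
  rw [inv_inv]

theorem ne_zero_of_norm {t : ℂ} (hr : 0 < r) (ht : ‖t‖ = 1 / r) : t ≠ 0 := by
  intro h
  rw [h, norm_zero] at ht
  have : (0 : ℝ) < 1 / r := by positivity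
  linarith

theorem T_one_sub {x : ℝ} {t : ℂ} (h : ‖(x : ℂ) * t‖ < 1) :
    Complex.exp (T (fun m => x ^ (m + 1) / (m + 1)) t) * (1 - (x : ℂ) * t) = 1 := by
  rw [T_log h, ← Complex.exp_add, add_neg_cancel, Complex.exp_zero]

section
variable {t : ℂ} (hr : 0 < r) (hr1 : r < 1) (ht : ‖t‖ = 1 / r)
include hr hr1 ht

theorem aux_norm_inv : ‖t⁻¹‖ = r := by
  rw [norm_inv, ht, one_div, inv_inv]

theorem cv_ca_t : Cv (ca r) t := by
  apply (ca_bd r).cv (sq_nonneg r)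
  rw [ht, sq, one_div, mul_assoc, mul_inv_cancel₀ hr.ne', mul_one]
  exact hr1

theorem cv_ca_inv : Cv (ca r) t⁻¹ := by
  apply (ca_bd r).cv (sq_nonneg r)
  rw [aux_norm_inv hr hr1 ht]
  calc r ^ 2 * r = r ^ 3 := by ring
    _ < 1 := pow_lt_one₀ hr.le hr1 (by norm_num)

theorem cv_ga_t : Cv (ga r) t := by
  apply (ga_bd hr.le).cv (sq_nonneg r)
  rw [ht, sq, one_div, mul_assoc, mul_inv_cancel₀ hr.ne', mul_one]
  exact hr1

theorem cv_ga_inv : Cv (ga r) t⁻¹ := by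
  apply (ga_bd hr.le).cv (sq_nonneg r)
  rw [aux_norm_inv hr hr1 ht]
  calc r ^ 2 * r = r ^ 3 := by ring
    _ < 1 := pow_lt_one₀ hr.le hr1 (by norm_num)

/-- first cancellation -/
theorem aux1 : Complex.exp (T (ca r) t + (starRingEnd ℂ) (T (ca r) t⁻¹)) * (1 - ((r ^ 2 : ℝ) : ℂ) * t)
    = 1 := by
  have h1 : (starRingEnd ℂ) (T (ca r) t⁻¹) = T (fun m => ca r m * (r ^ 2) ^ (m + 1)) t := by
    rw [T_conj, conj_inv_eq hr ht, T_scale]
  have hb : Bd (fun m => ca r m * (r ^ 2) ^ (m + 1)) (r ^ 2) := by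
    intro m
    have h2 := ca_nonneg r m
    have h3 := ca_le r m
    have h4 : (r ^ 2) ^ (m + 1) ≤ 1 := pow_le_one₀ (sq_nonneg r) (by nlinarith)
    have h5 : 0 ≤ (r ^ 2) ^ (m + 1) := by positivity
    rw [abs_of_nonneg (by positivity)]
    nlinarith
  have hlt : r ^ 2 * ‖t‖ < 1 := by
    rw [ht, sq, one_div, mul_assoc, mul_inv_cancel₀ hr.ne', mul_one]
    exact hr1
  have h2 : Cv (fun m => ca r m * (r ^ 2) ^ (m + 1)) t := hb.cv (sq_nonneg r) hlt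
  rw [h1, T_add (cv_ca_t hr hr1 ht) h2]
  have h3 : (fun m => ca r m + ca r m * (r ^ 2) ^ (m + 1)) = fun m : ℕ => (r ^ 2) ^ (m + 1) / ((m : ℝ) + 1) := by
    funext m
    unfold ca
    have e : (r ^ 2) ^ (m + 1) = (r ^ (m + 1)) ^ 2 := by ring
    rw [e]
    have : (1 : ℝ) + (r ^ (m + 1)) ^ 2 ≠ 0 := by positivity
    field_simp
  rw [h3]
  apply T_one_sub
  rw [norm_mul, Complex.norm_real, Real.norm_eq_abs, abs_of_nonneg (sq_nonneg r)]
  exact hlt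

/-- second cancellation -/
theorem aux2 : Complex.exp (T (ca r) t⁻¹ + (starRingEnd ℂ) (T (ca r) t)) * (1 - t⁻¹) = 1 := by
  have h1 : (starRingEnd ℂ) (T (ca r) t) = T (fun m => ca r m * ((r ^ 2)⁻¹) ^ (m + 1)) t⁻¹ := by
    rw [T_conj, conj_eq hr ht, T_scale]
  have hb : Bd (fun m => ca r m * ((r ^ 2)⁻¹) ^ (m + 1)) 1 := by
    intro m
    have h2 := ca_nonneg r m
    have h3 := ca_le r m
    have h4 : 0 < (r ^ 2) ^ (m + 1) := by positivity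
    show |ca r m * ((r ^ 2)⁻¹) ^ (m + 1)| ≤ 2 * 1 ^ (m + 1)
    rw [abs_of_nonneg (by positivity), inv_pow, ← div_eq_mul_inv, div_le_iff₀ h4]
    simp only [one_pow, mul_one]
    linarith
  have hlt : 1 * ‖t⁻¹‖ < 1 := by
    rw [aux_norm_inv hr hr1 ht, one_mul]
    exact hr1
  have h2 : Cv (fun m => ca r m * ((r ^ 2)⁻¹) ^ (m + 1)) t⁻¹ := hb.cv zero_le_one hlt
  rw [h1, T_add (cv_ca_inv hr hr1 ht) h2]
  have h3 : (fun m => ca r m + ca r m * ((r ^ 2)⁻¹) ^ (m + 1))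
      = fun m : ℕ => (1 : ℝ) ^ (m + 1) / ((m : ℝ) + 1) := by
    funext m
    unfold ca
    have e : ((r ^ 2)⁻¹) ^ (m + 1) = ((r ^ (m + 1)) ^ 2)⁻¹ := by
      rw [inv_pow]
      congr 1
      ring
    rw [e]
    have : (1 : ℝ) + (r ^ (m + 1)) ^ 2 ≠ 0 := by positivity
    have h0 : r ^ (m + 1) ≠ 0 := by positivity
    field_simp
    ring
  rw [h3]
  have h4 := T_one_sub (x := 1) (t := t⁻¹) (by
    rw [norm_mul, Complex.norm_real, Real.norm_eq_abs, abs_one]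
    exact hlt)
  simpa using h4

theorem Z2_mul_conj : Z2 r t * (starRingEnd ℂ) (Z2 r t) = 1 := by
  have h0 : t ≠ 0 := ne_zero_of_norm hr ht
  have hr0 : (r : ℂ) ≠ 0 := by exact_mod_cast hr.ne'
  have e1 := aux1 hr hr1 ht
  have e2 := aux2 hr hr1 ht
  have hc : (starRingEnd ℂ) (Z2 r t) = (r : ℂ) * ((((r ^ 2)⁻¹ : ℝ) : ℂ) * t⁻¹) *
      (1 - ((r ^ 2 : ℝ) : ℂ) * t) ^ 2 *
      Complex.exp (2 * ((starRingEnd ℂ) (T (ca r) t) + (starRingEnd ℂ) (T (ca r) t⁻¹))) := by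
    rw [Z2_eq h0]
    simp only [map_mul, map_pow, map_sub, map_one, Complex.conj_ofReal]
    rw [conj_inv_eq hr ht, conj_eq hr ht, ← Complex.exp_conj]
    unfold T2
    simp only [map_mul, map_add, Complex.conj_ofNat]
  rw [hc, Z2_eq h0]
  unfold T2
  have h1 : Complex.exp (2 * (T (ca r) t + T (ca r) t⁻¹)) *
      Complex.exp (2 * ((starRingEnd ℂ) (T (ca r) t) + (starRingEnd ℂ) (T (ca r) t⁻¹)))
      = (Complex.exp (T (ca r) t + (starRingEnd ℂ) (T (ca r) t⁻¹))) ^ 2 *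
        (Complex.exp (T (ca r) t⁻¹ + (starRingEnd ℂ) (T (ca r) t))) ^ 2 := by
    rw [← Complex.exp_nat_mul, ← Complex.exp_nat_mul, ← Complex.exp_add, ← Complex.exp_add]
    congr 1
    push_cast
    ring
  calc _ = ((r : ℂ) * t * ((r : ℂ) * ((((r ^ 2)⁻¹ : ℝ) : ℂ) * t⁻¹))) *
        (1 - t⁻¹) ^ 2 * (1 - ((r ^ 2 : ℝ) : ℂ) * t) ^ 2 *
        (Complex.exp (2 * (T (ca r) t + T (ca r) t⁻¹)) *
      Complex.exp (2 * ((starRingEnd ℂ) (T (ca r) t) + (starRingEnd ℂ) (T (ca r) t⁻¹)))) := by ring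
    _ = (Complex.exp (T (ca r) t + (starRingEnd ℂ) (T (ca r) t⁻¹)) * (1 - ((r ^ 2 : ℝ) : ℂ) * t)) ^ 2 *
        (Complex.exp (T (ca r) t⁻¹ + (starRingEnd ℂ) (T (ca r) t)) * (1 - t⁻¹)) ^ 2 := by
        rw [h1]
        have : (r : ℂ) * t * ((r : ℂ) * ((((r ^ 2)⁻¹ : ℝ) : ℂ) * t⁻¹)) = 1 := by
          push_cast
          field_simp
        rw [this]
        ring
    _ = 1 := by rw [e1, e2]; norm_num

theorem Z2_norm : ‖Z2 r t‖ = 1 := by
  have h := Z2_mul_conj hr hr1 ht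
  rw [Complex.mul_conj, Complex.normSq_eq_norm_sq] at h
  have h2 : ‖Z2 r t‖ ^ 2 = 1 := by exact_mod_cast h
  nlinarith [norm_nonneg (Z2 r t)]

/-- the key identity for the conjugate of the exponential factor -/
theorem key_ga :
    Complex.exp (-((starRingEnd ℂ) (T2 (ga r) t))) * (1 - (r : ℂ) * t⁻¹)
      = Complex.exp (-T2 (ga r) t) * (1 - t⁻¹) ^ 2 * Complex.exp (2 * T2 (ca r) t)
        * (1 - ((r ^ 3 : ℝ) : ℂ) * t) := by
  have hg1 : (starRingEnd ℂ) (T (ga r) t) = T (fun m => ga r m * ((r ^ 2)⁻¹) ^ (m + 1)) t⁻¹ := by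
    rw [T_conj, conj_eq hr ht, T_scale]
  have hg2 : (starRingEnd ℂ) (T (ga r) t⁻¹) = T (fun m => ga r m * (r ^ 2) ^ (m + 1)) t := by
    rw [T_conj, conj_inv_eq hr ht, T_scale]
  have hlt1 : 1 * ‖t⁻¹‖ < 1 := by
    rw [aux_norm_inv hr hr1 ht, one_mul]
    exact hr1
  have hlt2 : r ^ 2 * ‖t‖ < 1 := by
    rw [ht, sq, one_div, mul_assoc, mul_inv_cancel₀ hr.ne', mul_one]
    exact hr1
  have hb1 : Bd (fun m => ga r m * ((r ^ 2)⁻¹) ^ (m + 1)) 1 := by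
    intro m
    have h3 := ga_bd hr.le m
    have h4 : 0 < (r ^ 2) ^ (m + 1) := by positivity
    rw [abs_mul, inv_pow, abs_inv, abs_of_pos h4, ← div_eq_mul_inv, div_le_iff₀ h4]
    simp only [one_pow, mul_one]
    linarith
  have hb2 : Bd (fun m => ga r m * (r ^ 2) ^ (m + 1)) (r ^ 2) := by
    intro m
    have h3 := ga_bd hr.le m
    have h4 : (r ^ 2) ^ (m + 1) ≤ 1 := pow_le_one₀ (sq_nonneg r) (by nlinarith)
    have h5 : 0 ≤ (r ^ 2) ^ (m + 1) := by positivity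
    rw [abs_mul, abs_of_nonneg h5]
    have h6 := abs_nonneg (ga r m)
    nlinarith
  have l1 : (1 : ℂ) - (r : ℂ) * t⁻¹ = Complex.exp (-T (fun m => r ^ (m + 1) / (m + 1)) t⁻¹) := by
    apply T_log
    rw [norm_mul, Complex.norm_real, Real.norm_eq_abs, abs_of_pos hr, aux_norm_inv hr hr1 ht]
    nlinarith
  have l2 : (1 : ℂ) - t⁻¹ = Complex.exp (-T (fun m => (1 : ℝ) ^ (m + 1) / (m + 1)) t⁻¹) := by
    have := T_log (x := 1) (t := t⁻¹) (by
      rw [norm_mul, Complex.norm_real, Real.norm_eq_abs, abs_one]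
      exact hlt1)
    simpa using this
  have l3 : (1 : ℂ) - ((r ^ 3 : ℝ) : ℂ) * t
      = Complex.exp (-T (fun m => (r ^ 3) ^ (m + 1) / (m + 1)) t) := by
    apply T_log
    rw [norm_mul, Complex.norm_real, Real.norm_eq_abs, abs_of_pos (by positivity), ht]
    have : r ^ 3 * (1 / r) = r ^ 2 := by field_simp
    rw [this]
    nlinarith
  have cg1 := hb1.cv zero_le_one hlt1
  have cg2 := hb2.cv (sq_nonneg r) hlt2
  have cr : Cv (fun m => r ^ (m + 1) / ((m : ℝ) + 1)) t⁻¹ := by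
    apply (log_bd hr.le).cv hr.le
    rw [aux_norm_inv hr hr1 ht]
    nlinarith
  have c1 : Cv (fun m => (1 : ℝ) ^ (m + 1) / ((m : ℝ) + 1)) t⁻¹ :=
    (log_bd zero_le_one).cv zero_le_one hlt1
  have c3 : Cv (fun m => (r ^ 3) ^ (m + 1) / ((m : ℝ) + 1)) t := by
    apply (log_bd (by positivity)).cv (by positivity)
    rw [ht]
    have : r ^ 3 * (1 / r) = r ^ 2 := by field_simp
    rw [this]
    nlinarith
  -- the two coefficient identities
  have I1 : T (fun m => ga r m * ((r ^ 2)⁻¹) ^ (m + 1)) t⁻¹ + T (fun m => r ^ (m + 1) / ((m : ℝ) + 1)) t⁻¹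
      = T (ga r) t⁻¹ + ((2 : ℝ) : ℂ) * T (fun m => (1 : ℝ) ^ (m + 1) / ((m : ℝ) + 1)) t⁻¹
        + ((-2 : ℝ) : ℂ) * T (ca r) t⁻¹ := by
    rw [T_add cg1 cr, ← T_mul, ← T_mul, T_add (cv_ga_inv hr hr1 ht) (c1.mul 2),
      T_add ((cv_ga_inv hr hr1 ht).add (c1.mul 2)) ((cv_ca_inv hr hr1 ht).mul (-2))]
    congr 1
    funext m
    rw [ga_eq hr.le]
    unfold ca
    have e : ((r ^ 2)⁻¹) ^ (m + 1) = ((r ^ (m + 1)) ^ 2)⁻¹ := by
      rw [inv_pow]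
      congr 1
      ring
    rw [e]
    have h1 : (1 : ℝ) + (r ^ (m + 1)) ^ 2 ≠ 0 := by positivity
    have h2 : (1 : ℝ) + r ^ (m + 1) ≠ 0 := by positivity
    have h0 : r ^ (m + 1) ≠ 0 := by positivity
    generalize r ^ (m + 1) = a at *
    field_simp
    ring
  have I2 : T (fun m => ga r m * (r ^ 2) ^ (m + 1)) t
      = T (ga r) t + ((-2 : ℝ) : ℂ) * T (ca r) t + T (fun m => (r ^ 3) ^ (m + 1) / ((m : ℝ) + 1)) t := by
    rw [← T_mul, T_add (cv_ga_t hr hr1 ht) ((cv_ca_t hr hr1 ht).mul (-2)),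
      T_add ((cv_ga_t hr hr1 ht).add ((cv_ca_t hr hr1 ht).mul (-2))) c3]
    congr 1
    funext m
    rw [ga_eq hr.le]
    unfold ca
    have e2 : (r ^ 2) ^ (m + 1) = (r ^ (m + 1)) ^ 2 := by ring
    have e3 : (r ^ 3) ^ (m + 1) = (r ^ (m + 1)) ^ 3 := by ring
    rw [e2, e3]
    have h1 : (1 : ℝ) + (r ^ (m + 1)) ^ 2 ≠ 0 := by positivity
    have h2 : (1 : ℝ) + r ^ (m + 1) ≠ 0 := by positivity
    generalize r ^ (m + 1) = a at *
    field_simp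
    ring
  rw [l1, l2, l3, ← Complex.exp_add]
  unfold T2
  rw [map_add, hg1, hg2, ← Complex.exp_nat_mul, ← Complex.exp_add, ← Complex.exp_add,
    ← Complex.exp_add]
  congr 1
  push_cast at I1 I2 ⊢
  linear_combination -I1 - I2

end

end Pool.Agent.Lib.MP_0430e4_lc.Lower
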